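import Pool.Agent.ZetaGaps.Defs
import Pool.Agent.Lib.Hadamard.Digamma

/-!
# Basic facts about `zeroCount`, `ordinate`
-/

open Complex Filter Topology
open Pool.Agent.Hadamard (ntz mult)

namespace Pool.Agent.ZetaGaps

lemma mem_ntz_of_mem {T : ℝ} {ρ : ℂ} (h : ρ ∈ zerosUpTo T) : ρ ∈ ntz := ⟨h.1, h.2.1, h.2.2.1⟩

lemma mem_zerosUpTo {T : ℝ} {ρ : ℂ} : ρ ∈ zerosUpTo T ↔ ρ ∈ ntz ∧ 0 < ρ.im ∧ ρ.im ≤ T :=
  ⟨fun h => ⟨⟨h.1, h.2.1, h.2.2.1⟩, h.2.2.2⟩, fun h => ⟨h.1.1, h.1.2.1, h.1.2.2, h.2⟩⟩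

/-- Finitely many nontrivial zeros have bounded imaginary part. -/
lemma finite_ntz_im (T : ℝ) : {ρ : ℂ | ρ ∈ ntz ∧ |ρ.im| ≤ T}.Finite := by
  have h := Hadamard.summable_mult.tendsto_cofinite_zero
  have hpos : (0:ℝ) < 1 / (2 + T ^ 2) := by positivity
  have h1 := (h.eventually (gt_mem_nhds hpos))
  rw [Filter.eventually_cofinite] at h1
  have h2 : {ρ : ℂ | ρ ∈ ntz ∧ |ρ.im| ≤ T} ⊆
      Subtype.val '' {x : ntz | ¬ (mult x : ℝ) / (1 + ‖(x:ℂ)‖ ^ 2) < 1 / (2 + T ^ 2)} := by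
    rintro ρ ⟨hρ, hT⟩
    refine ⟨⟨ρ, hρ⟩, ?_, rfl⟩
    simp only [Set.mem_ofPred_eq, not_lt]
    have hm : (1:ℝ) ≤ mult ρ := by exact_mod_cast Hadamard.mult_pos hρ
    have hn : ‖ρ‖ ^ 2 ≤ 1 + T ^ 2 := by
      rw [← Complex.normSq_eq_norm_sq, Complex.normSq_apply]
      have h3 := hρ.2.1
      have h4 := hρ.2.2
      have h5 : ρ.im ^ 2 ≤ T ^ 2 := by
        rw [← sq_abs ρ.im]
        exact pow_le_pow_left₀ (abs_nonneg _) hT 2
      nlinarith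
    calc 1 / (2 + T ^ 2) ≤ 1 / (1 + ‖ρ‖ ^ 2) := by
          apply one_div_le_one_div_of_le (by positivity)
          linarith
      _ ≤ (mult ρ : ℝ) / (1 + ‖ρ‖ ^ 2) := by
          apply div_le_div_of_nonneg_right hm (by positivity)
  exact (h1.image _).subset h2

lemma finite_zerosUpTo (T : ℝ) : (zerosUpTo T).Finite := by
  refine (finite_ntz_im T).subset fun ρ h => ⟨mem_ntz_of_mem h, ?_⟩
  rw [abs_of_pos h.2.2.2.1]
  exact h.2.2.2.2

lemma zeroCount_eq (T : ℝ) : zeroCount T = ∑ ρ ∈ (finite_zerosUpTo T).toFinset, mult ρ := by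
  unfold zeroCount
  rw [finsum_mem_eq_finite_toFinset_sum _ (finite_zerosUpTo T)]
  rfl

lemma zerosUpTo_mono {S T : ℝ} (h : S ≤ T) : zerosUpTo S ⊆ zerosUpTo T :=
  fun _ hρ => ⟨hρ.1, hρ.2.1, hρ.2.2.1, hρ.2.2.2.1, hρ.2.2.2.2.trans h⟩

lemma zeroCount_mono : Monotone zeroCount := by
  intro S T h
  rw [zeroCount_eq, zeroCount_eq]
  apply Finset.sum_le_sum_of_subset
  intro ρ
  simp only [Set.Finite.mem_toFinset]
  exact fun h' => zerosUpTo_mono h h'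

lemma zeroCount_nonpos {T : ℝ} (h : T ≤ 0) : zeroCount T = 0 := by
  rw [zeroCount_eq]
  apply Finset.sum_eq_zero
  intro ρ hρ
  rw [Set.Finite.mem_toFinset] at hρ
  have h1 := hρ.2.2.2.1
  have h2 := hρ.2.2.2.2
  linarith

/-- The difference of counts is a sum over the zeros in between. -/
lemma zeroCount_sub {S T : ℝ} (h : S ≤ T) :
    zeroCount T = zeroCount S +
      ∑ ρ ∈ (finite_zerosUpTo T).toFinset.filter (fun ρ => S < ρ.im), mult ρ := by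
  rw [zeroCount_eq T, zeroCount_eq S,
    ← Finset.sum_filter_add_sum_filter_not (finite_zerosUpTo T).toFinset (fun ρ => ρ.im ≤ S)]
  congr 1
  · apply Finset.sum_congr _ (fun _ _ => rfl)
    ext ρ
    simp only [Finset.mem_filter, Set.Finite.mem_toFinset, mem_zerosUpTo]
    constructor
    · rintro ⟨⟨h1, h2, h3⟩, h4⟩; exact ⟨h1, h2, h4⟩
    · rintro ⟨h1, h2, h4⟩; exact ⟨⟨h1, h2, h4.trans h⟩, h4⟩
  · apply Finset.sum_congr _ (fun _ _ => rfl)
    ext ρ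
    simp only [Finset.mem_filter, Set.Finite.mem_toFinset, not_le]

/-- If no zero has ordinate in `(S, T]` then the counts agree. -/
lemma zeroCount_eq_of_forall {S T : ℝ} (h : S ≤ T)
    (hno : ∀ ρ ∈ ntz, 0 < ρ.im → S < ρ.im → ¬ ρ.im ≤ T) : zeroCount T = zeroCount S := by
  rw [zeroCount_sub h, Finset.sum_eq_zero, add_zero]
  intro ρ hρ
  rw [Finset.mem_filter, Set.Finite.mem_toFinset, mem_zerosUpTo] at hρ
  exact absurd hρ.1.2.2 (hno ρ hρ.1.1 hρ.1.2.1 hρ.2)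

/-- If a zero has ordinate in `(S, T]`, `S ≥ 0`, then the count increases. -/
lemma zeroCount_lt_of_exists {S T : ℝ} (hS : 0 ≤ S) {ρ : ℂ} (hρ : ρ ∈ ntz) (h1 : S < ρ.im)
    (h2 : ρ.im ≤ T) : zeroCount S < zeroCount T := by
  rw [zeroCount_sub (h1.le.trans h2)]
  have hmem : ρ ∈ (finite_zerosUpTo T).toFinset.filter (fun ρ => S < ρ.im) := by
    rw [Finset.mem_filter, Set.Finite.mem_toFinset, mem_zerosUpTo]
    exact ⟨⟨hρ, by linarith, h2⟩, h1⟩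
  have h3 : mult ρ ≤ ∑ ρ ∈ (finite_zerosUpTo T).toFinset.filter (fun ρ => S < ρ.im), mult ρ :=
    Finset.single_le_sum (f := fun ρ => mult ρ) (fun _ _ => Nat.zero_le _) hmem
  have h4 := Hadamard.mult_pos hρ
  omega

/-- Right-continuity: the ordinates are locally finite. -/
lemma exists_gt_zeroCount_eq (S : ℝ) : ∃ T > S, zeroCount T = zeroCount S := by
  classical
  set F : Finset ℂ := (finite_zerosUpTo (S + 1)).toFinset.filter (fun ρ => S < ρ.im) with hF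
  by_cases hne : F.Nonempty
  · obtain ⟨ρ0, h0, hmin⟩ := F.exists_min_image (fun ρ => ρ.im) hne
    rw [hF, Finset.mem_filter, Set.Finite.mem_toFinset, mem_zerosUpTo] at h0
    refine ⟨(S + ρ0.im) / 2, by linarith [h0.2], ?_⟩
    apply zeroCount_eq_of_forall (by linarith [h0.2])
    intro ρ hρ hpos h1 h2
    have hm : ρ ∈ F := by
      rw [hF, Finset.mem_filter, Set.Finite.mem_toFinset, mem_zerosUpTo]
      exact ⟨⟨hρ, hpos, by linarith [h0.2, h0.1.2.2]⟩, h1⟩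
    have : ρ0.im ≤ ρ.im := hmin ρ hm
    linarith [h0.2]
  · refine ⟨S + 1, by linarith, ?_⟩
    apply zeroCount_eq_of_forall (by linarith)
    intro ρ hρ hpos h1 h2
    apply hne
    refine ⟨ρ, ?_⟩
    rw [hF, Finset.mem_filter, Set.Finite.mem_toFinset, mem_zerosUpTo]
    exact ⟨⟨hρ, hpos, h2⟩, h1⟩

/-- The set defining `ordinate n` is bounded below by `0` for `n ≥ 1`. -/
lemma pos_of_le_zeroCount {n : ℕ} (hn : 1 ≤ n) {T : ℝ} (h : n ≤ zeroCount T) : 0 < T := by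
  by_contra hT
  rw [zeroCount_nonpos (not_lt.mp hT)] at h
  omega

/-- For `n ≥ 1` (and provided there are at least `n` zeros), `N(γ_n) ≥ n`. -/
lemma le_zeroCount_ordinate {n : ℕ} (hex : ∃ T, n ≤ zeroCount T) (hn : 1 ≤ n) :
    n ≤ zeroCount (ordinate n) := by
  obtain ⟨T, hT, hTeq⟩ := exists_gt_zeroCount_eq (ordinate n)
  rw [← hTeq]
  have hne : {T : ℝ | n ≤ zeroCount T}.Nonempty := hex
  obtain ⟨U, hU, hUT⟩ := exists_lt_of_csInf_lt hne hT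
  exact le_trans hU (zeroCount_mono hUT.le)

/-- Galois connection. -/
lemma le_zeroCount_iff {n : ℕ} (hex : ∃ T, n ≤ zeroCount T) (hn : 1 ≤ n) {T : ℝ} :
    n ≤ zeroCount T ↔ ordinate n ≤ T := by
  constructor
  · intro h
    exact csInf_le ⟨0, fun U hU => (pos_of_le_zeroCount hn hU).le⟩ h
  · intro h
    exact (le_zeroCount_ordinate hex hn).trans (zeroCount_mono h)

lemma ordinate_pos {n : ℕ} (hex : ∃ T, n ≤ zeroCount T) (hn : 1 ≤ n) : 0 < ordinate n :=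
  pos_of_le_zeroCount hn (le_zeroCount_ordinate hex hn)

lemma ordinate_mono {m n : ℕ} (hex : ∃ T, n ≤ zeroCount T) (hm : 1 ≤ m) (h : m ≤ n) :
    ordinate m ≤ ordinate n := by
  obtain ⟨T, hT⟩ := hex
  rw [← le_zeroCount_iff ⟨T, h.trans hT⟩ hm]
  exact h.trans (le_zeroCount_ordinate ⟨T, hT⟩ (hm.trans h))

/-- No zero has its ordinate strictly between `γ_n` and `γ_{n+1}`. -/
lemma no_zero_between {n : ℕ} (hex : ∃ T, n + 1 ≤ zeroCount T) (hn : 1 ≤ n) {ρ : ℂ}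
    (hρ : ρ ∈ ntz) (h1 : ordinate n < ρ.im) : ordinate (n + 1) ≤ ρ.im := by
  have hex' : ∃ T, n ≤ zeroCount T := by
    obtain ⟨T, hT⟩ := hex; exact ⟨T, by omega⟩
  rw [← le_zeroCount_iff hex (by omega)]
  have h2 := le_zeroCount_ordinate hex' hn
  have h3 := zeroCount_lt_of_exists (ordinate_pos hex' hn).le hρ h1 le_rfl
  omega

/-- `γ_n` is the ordinate of a nontrivial zero. -/
lemma exists_zero_ordinate {n : ℕ} (hex : ∃ T, n ≤ zeroCount T) (hn : 1 ≤ n) :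
    ∃ ρ ∈ ntz, ρ.im = ordinate n := by
  classical
  by_contra hno
  push Not at hno
  -- the largest ordinate below `γ_n`
  have hpos := ordinate_pos hex hn
  set F : Finset ℂ := (finite_zerosUpTo (ordinate n)).toFinset with hF
  have hmemF : ∀ ρ, ρ ∈ F ↔ ρ ∈ ntz ∧ 0 < ρ.im ∧ ρ.im ≤ ordinate n := by
    intro ρ; rw [hF, Set.Finite.mem_toFinset, mem_zerosUpTo]
  have key : ∃ S < ordinate n, 0 ≤ S ∧ ∀ ρ ∈ ntz, 0 < ρ.im → S < ρ.im → ¬ ρ.im ≤ ordinate n := by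
    by_cases hne : F.Nonempty
    · obtain ⟨ρ0, h0, hmax⟩ := F.exists_max_image (fun ρ => ρ.im) hne
      rw [hmemF] at h0
      refine ⟨ρ0.im, lt_of_le_of_ne h0.2.2 (hno ρ0 h0.1), h0.2.1.le, ?_⟩
      intro ρ hρ hp h1 h2
      have : ρ.im ≤ ρ0.im := hmax ρ ((hmemF ρ).mpr ⟨hρ, hp, h2⟩)
      linarith
    · refine ⟨0, hpos, le_rfl, fun ρ hρ hp h1 h2 => hne ⟨ρ, (hmemF ρ).mpr ⟨hρ, hp, h2⟩⟩⟩
  obtain ⟨S, hS, hS0, hS'⟩ := key
  have h1 := zeroCount_eq_of_forall hS.le hS'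
  have h2 := le_zeroCount_ordinate hex hn
  rw [h1, le_zeroCount_iff hex hn] at h2
  linarith

end Pool.Agent.ZetaGaps
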