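import Pool.Agent.ZetaGaps.Local

/-!
# There are infinitely many nontrivial zeros
-/

open Complex Filter Topology
open Pool.Agent.Hadamard (ntz mult)

namespace Pool.Agent.ZetaGaps

lemma re_term_le_one (t : ℝ) {ρ : ℂ} (hρ : ρ ∈ ntz) : (1 / ((2:ℂ) + t * I - ρ)).re ≤ 1 := by
  refine (le_abs_self _).trans ((abs_re_le_norm _).trans ?_)
  rw [norm_div, norm_one, div_le_one_iff]
  left
  have hge : 1 ≤ ‖(2:ℂ) + t * I - ρ‖ := by
    calc (1:ℝ) ≤ |((2:ℂ) + t * I - ρ).re| := by
          rw [Complex.sub_re, two_add_mul_I_re]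
          rw [abs_of_pos (by linarith [hρ.2.2])]
          linarith [hρ.2.2]
      _ ≤ _ := abs_re_le_norm _
  exact ⟨by linarith, hge⟩

theorem zeroCount_unbounded (n : ℕ) : ∃ T, n ≤ zeroCount T := by
  classical
  by_contra hno
  push Not at hno
  -- a height at which the count is maximal
  obtain ⟨T0, hT0⟩ : ∃ T0, ∀ T, zeroCount T ≤ zeroCount T0 := by
    have hfin : (Set.range zeroCount).Finite :=
      (Set.finite_lt_nat n).subset (by rintro _ ⟨T, rfl⟩; exact hno T)
    obtain ⟨m, ⟨T0, rfl⟩, hm⟩ := Set.exists_max_image (Set.range zeroCount) id hfin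
      ⟨_, ⟨0, rfl⟩⟩
    exact ⟨T0, fun T => hm _ ⟨T, rfl⟩⟩
  set M := max T0 0 with hM
  have hup : ∀ ρ ∈ ntz, ρ.im ≤ M := by
    intro ρ hρ
    by_contra h
    push Not at h
    have h1 := zeroCount_lt_of_exists (le_max_right T0 0) hρ h le_rfl
    have h2 := hT0 ρ.im
    have h3 := zeroCount_mono (le_max_left T0 0)
    omega
  have habs : ∀ ρ ∈ ntz, |ρ.im| ≤ M := by
    intro ρ hρ
    rw [abs_le]
    constructor
    · have := hup (1 - ρ) (Hadamard.ntz_one_sub.mpr hρ)
      simp at this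
      linarith
    · exact hup ρ hρ
  have hfin : ntz.Finite := (finite_ntz_im M).subset fun ρ hρ => ⟨hρ, habs ρ hρ⟩
  haveI : Fintype ntz := hfin.fintype
  have hbd : ∀ t, PS t ≤ ∑ ρ : ntz, (mult ρ : ℝ) := by
    intro t
    rw [PS, tsum_fintype]
    apply Finset.sum_le_sum
    intro ρ _
    calc (mult ρ : ℝ) * (1 / ((2:ℂ) + t * I - ρ)).re ≤ (mult ρ : ℝ) * 1 :=
          mul_le_mul_of_nonneg_left (re_term_le_one t ρ.2) (Nat.cast_nonneg _)
      _ = _ := mul_one _
  obtain ⟨C, hC, h⟩ := PS_bound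
  set B := ∑ ρ : ntz, (mult ρ : ℝ) with hB
  have hB0 : 0 ≤ B := Finset.sum_nonneg fun _ _ => Nat.cast_nonneg _
  have h1 := h (Real.exp (2 * (B + C + 1))) (by
    rw [abs_of_pos (Real.exp_pos _)]
    exact Real.one_le_exp (by positivity))
  rw [abs_of_pos (Real.exp_pos _), Real.log_exp, abs_le] at h1
  have h2 := hbd (Real.exp (2 * (B + C + 1)))
  linarith [h1.1]

lemma tendsto_ordinate : Tendsto ordinate atTop atTop := by
  rw [tendsto_atTop]
  intro b
  filter_upwards [eventually_gt_atTop (zeroCount b), eventually_ge_atTop 1] with n hn hn1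
  by_contra h
  push Not at h
  have := (le_zeroCount_iff (zeroCount_unbounded n) hn1 (T := b)).mpr h.le
  omega

end Pool.Agent.ZetaGaps
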