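import Pool.Agent.Lib.Hadamard.Xi

/-!
# Ordinates of the zeros of zeta and their normalised gaps

* `zerosUpTo T`: nontrivial zeros with `0 < Im ρ ≤ T`;
* `zeroCount T`: their number, counted with multiplicity;
* `ordinate n`: the `n`-th ordinate `γ_n`, counted with multiplicity (`n ≥ 1`);
* `gap n`: the normalised gap `δ_n` of the problem MP_21f43f_nt.
-/

namespace Pool.Agent.ZetaGaps

/-- The nontrivial zeros `ρ` of `ζ` (zeros in the open critical strip) with `0 < Im ρ ≤ T`. -/
def zerosUpTo (T : ℝ) : Set ℂ :=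
  {ρ | riemannZeta ρ = 0 ∧ 0 < ρ.re ∧ ρ.re < 1 ∧ 0 < ρ.im ∧ ρ.im ≤ T}

/-- `N(T)`: the number of nontrivial zeros of `ζ` with `0 < Im ρ ≤ T`, counted with
multiplicity. -/
noncomputable def zeroCount (T : ℝ) : ℕ :=
  ∑ᶠ ρ ∈ zerosUpTo T, analyticOrderNatAt riemannZeta ρ

/-- The `n`-th positive ordinate `γ_n` of the nontrivial zeros, listed in nondecreasing order
with multiplicity (`n ≥ 1`): the least `T` with `N(T) ≥ n`. -/
noncomputable def ordinate (n : ℕ) : ℝ := sInf {T : ℝ | n ≤ zeroCount T}

/-- The normalised ordinate `γ_n log γ_n / (2π)`. -/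
noncomputable def normOrdinate (n : ℕ) : ℝ :=
  ordinate n * Real.log (ordinate n) / (2 * Real.pi)

/-- The normalised gap `δ_n`, the difference of consecutive normalised ordinates. -/
noncomputable def gap (n : ℕ) : ℝ := normOrdinate (n + 1) - normOrdinate n

end Pool.Agent.ZetaGaps
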