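import Pool.Agent.ZetaGaps.Basic
import Pool.Agent.Lib.Hadamard.RvM

/-!
# Riemann-von Mangoldt for `zeroCount`
-/

open Complex Filter Topology
open Pool.Agent.Hadamard (ntz mult)

namespace Pool.Agent.ZetaGaps

lemma zc_eq (T : ℝ) : Hadamard.zc T = zeroCount T := by
  classical
  rw [zeroCount_eq]
  unfold Hadamard.zc
  set F := (finite_zerosUpTo T).toFinset with hF
  have hmem : ∀ ρ ∈ F, ρ ∈ ntz := fun ρ hρ => by
    rw [hF, Set.Finite.mem_toFinset] at hρ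
    exact mem_ntz_of_mem hρ
  set F' : Finset ntz := F.subtype (· ∈ ntz) with hF'
  have hsupp : ∀ ρ ∉ F', (mult (ρ : ntz) : ℝ) * Hadamard.ind T (ρ:ℂ).im = 0 := by
    intro ρ hρ
    have h1 : (ρ:ℂ) ∉ F := fun h => hρ (by rw [hF', Finset.mem_subtype]; exact h)
    rw [hF, Set.Finite.mem_toFinset, mem_zerosUpTo] at h1
    unfold Hadamard.ind
    rw [if_neg fun h => h1 ⟨ρ.2, h⟩, mul_zero]
  rw [tsum_eq_sum hsupp]
  push_cast
  have h2 : ∑ ρ ∈ F', (mult (ρ : ntz) : ℝ) * Hadamard.ind T (ρ:ℂ).im =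
      ∑ ρ ∈ F', (mult (ρ : ℂ) : ℝ) := by
    refine Finset.sum_congr rfl fun ρ hρ => ?_
    rw [hF', Finset.mem_subtype, hF, Set.Finite.mem_toFinset, mem_zerosUpTo] at hρ
    unfold Hadamard.ind
    rw [if_pos hρ.2, mul_one]
  rw [h2, hF']
  exact Finset.sum_subtype_of_mem (fun ρ : ℂ => (mult ρ : ℝ)) hmem

/-- **Riemann-von Mangoldt** with multiplicity. -/
theorem zeroCount_asymp : ∃ C : ℝ, 0 < C ∧ ∀ T : ℝ, 2 ≤ T →
    |(zeroCount T : ℝ) - T / (2 * Real.pi) * Real.log (T / (2 * Real.pi * Real.exp 1))| ≤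
      C * Real.log T := by
  obtain ⟨C, hC, h⟩ := Hadamard.riemann_von_mangoldt
  exact ⟨C, hC, fun T hT => by rw [← zc_eq]; exact h T hT⟩

end Pool.Agent.ZetaGaps
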