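import Pool.Agent.ZetaGaps.Tail

/-!
# From the measure of void (or crowded) windows to a positive proportion of gaps
-/

open Filter Topology Finset MeasureTheory
open Pool.Agent.Hadamard (ntz mult)

namespace Pool.Agent.ZetaGaps

/-! ### Second moment of the gaps -/

lemma sq_le_sum_ind {x : ℝ} {S J : ℕ} (hJ : x ≤ J) :
    (max x 0) ^ 2 ≤ (S:ℝ) ^ 2 + ∑ j ∈ Finset.Ico S J, (2 * (j:ℝ) + 1) * (if (j:ℝ) < x then 1 else 0) := by
  have hnn : 0 ≤ ∑ j ∈ Finset.Ico S J, (2 * (j:ℝ) + 1) * (if (j:ℝ) < x then 1 else 0) := by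
    refine Finset.sum_nonneg fun j _ => ?_
    split_ifs <;> positivity
  rcases le_or_gt x S with hx | hx
  · have : (max x 0) ^ 2 ≤ (S:ℝ) ^ 2 := by
      apply pow_le_pow_left₀ (le_max_right _ _)
      exact max_le hx (Nat.cast_nonneg _)
    linarith
  · have hx0 : 0 < x := lt_of_le_of_lt (Nat.cast_nonneg _) hx
    rw [max_eq_left hx0.le]
    set m := ⌈x⌉₊ with hm
    have hmx : x ≤ m := Nat.le_ceil x
    have hmlt : ∀ j : ℕ, j < m → (j:ℝ) < x := fun j hj => Nat.lt_ceil.mp hj
    have hmJ : m ≤ J := Nat.ceil_le.mpr hJ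
    have hSm : S ≤ m := by
      have : (S:ℝ) < m := lt_of_lt_of_le hx hmx
      exact_mod_cast this.le
    have htel : ∀ k : ℕ, S ≤ k → ∑ j ∈ Finset.Ico S k, (2 * (j:ℝ) + 1) = (k:ℝ) ^ 2 - (S:ℝ) ^ 2 := by
      intro k hk
      induction k, hk using Nat.le_induction with
      | base => simp
      | succ k hk ih =>
        rw [Finset.sum_Ico_succ_top hk, ih]
        push_cast
        ring
    have h1 : ∑ j ∈ Finset.Ico S m, (2 * (j:ℝ) + 1) ≤
        ∑ j ∈ Finset.Ico S J, (2 * (j:ℝ) + 1) * (if (j:ℝ) < x then 1 else 0) := by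
      calc ∑ j ∈ Finset.Ico S m, (2 * (j:ℝ) + 1) =
          ∑ j ∈ Finset.Ico S m, (2 * (j:ℝ) + 1) * (if (j:ℝ) < x then 1 else 0) := by
            refine Finset.sum_congr rfl fun j hj => ?_
            rw [if_pos (hmlt j (Finset.mem_Ico.mp hj).2), mul_one]
        _ ≤ _ := by
            refine Finset.sum_le_sum_of_subset_of_nonneg (Finset.Ico_subset_Ico_right hmJ)
              fun j _ _ => ?_
            split_ifs <;> positivity
    rw [htel m hSm] at h1
    have h2 : x ^ 2 ≤ (m:ℝ) ^ 2 := by gcongr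
    linarith

theorem exists_sum_sq_gap (hRH : RiemannHypothesis) : ∃ C : ℝ, 0 < C ∧ ∀ N : ℕ,
    ∑ n ∈ Icc 1 N, (max (gap n) 0) ^ 2 ≤ C * N := by
  obtain ⟨s0, hs0, h⟩ := largeGapTail hRH (ε := 1 / 2) (by norm_num)
  obtain ⟨S, hS⟩ := exists_nat_ge (max s0 (Real.exp 6))
  have hSs0 : s0 ≤ S := (le_max_left _ _).trans hS
  have hSe : Real.exp 6 ≤ S := (le_max_right _ _).trans hS
  refine ⟨(S:ℝ) ^ 2 + 6, by positivity, fun N => ?_⟩
  -- a common bound for the gaps
  obtain ⟨J, hJ⟩ : ∃ J : ℕ, ∀ n ∈ Icc 1 N, gap n ≤ J := by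
    have hfin : (((Icc 1 N).image gap : Finset ℝ) : Set ℝ).Finite := Finset.finite_toSet _
    obtain ⟨D, hD⟩ := hfin.bddAbove
    obtain ⟨J, hJ⟩ := exists_nat_ge D
    refine ⟨J, fun n hn => (hD ?_).trans hJ⟩
    exact Finset.mem_coe.mpr (Finset.mem_image_of_mem gap hn)
  calc ∑ n ∈ Icc 1 N, (max (gap n) 0) ^ 2
      ≤ ∑ n ∈ Icc 1 N, ((S:ℝ) ^ 2 +
          ∑ j ∈ Finset.Ico S J, (2 * (j:ℝ) + 1) * (if (j:ℝ) < gap n then 1 else 0)) :=
        Finset.sum_le_sum fun n hn => sq_le_sum_ind (hJ n hn)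
    _ = N * (S:ℝ) ^ 2 + ∑ j ∈ Finset.Ico S J, (2 * (j:ℝ) + 1) * largeGapCount N j := by
        rw [Finset.sum_add_distrib, Finset.sum_const, Nat.card_Icc, nsmul_eq_mul, Finset.sum_comm]
        congr 1
        refine Finset.sum_congr rfl fun j _ => ?_
        rw [← Finset.mul_sum]
        congr 1
        unfold largeGapCount
        rw [Finset.card_filter]
        push_cast
        rfl
    _ ≤ N * (S:ℝ) ^ 2 + ∑ j ∈ Finset.Ico S J, (N:ℝ) * (3 * (1 / 2 : ℝ) ^ j) := by
        refine add_le_add le_rfl (Finset.sum_le_sum fun j hj => ?_)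
        have hj1 := (Finset.mem_Ico.mp hj).1
        have hjS : (S:ℝ) ≤ j := by exact_mod_cast hj1
        have h1 := h j (hSs0.trans hjS) N
        have hje : Real.exp 6 ≤ j := hSe.trans hjS
        have hj0 : (0:ℝ) < j := (Real.exp_pos 6).trans_le hje
        have h2 : 6 ≤ Real.log j := by
          rwa [Real.le_log_iff_exp_le hj0]
        have h3 : Real.exp (-(1 - 1 / 2) * (j * Real.log j)) ≤ Real.exp (-(3 * j)) := by
          apply Real.exp_le_exp.mpr
          nlinarith
        have h4 : (2 * (j:ℝ) + 1) ≤ 3 * Real.exp j := by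
          have := Real.add_one_le_exp (j:ℝ)
          linarith
        have h5 : Real.exp (-(j:ℝ)) ≤ (1 / 2) ^ j := by
          have h6 : Real.exp (-(j:ℝ)) = (Real.exp (-1)) ^ j := by
            rw [← Real.exp_nat_mul]; ring_nf
          rw [h6]
          apply pow_le_pow_left₀ (Real.exp_pos _).le
          rw [Real.exp_neg, one_div]
          apply inv_anti₀ (by norm_num)
          have := Real.add_one_le_exp (1:ℝ)
          linarith
        calc (2 * (j:ℝ) + 1) * largeGapCount N j
            ≤ (3 * Real.exp j) * (N * Real.exp (-(3 * j))) := by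
              gcongr
              exact h1.trans (by gcongr)
          _ = N * (3 * (Real.exp j * Real.exp (-(3 * j)))) := by ring
          _ = N * (3 * Real.exp (-(2 * j))) := by
              rw [← Real.exp_add]; ring_nf
          _ ≤ N * (3 * Real.exp (-(j:ℝ))) := by
              gcongr
              linarith
          _ ≤ N * (3 * (1 / 2) ^ j) := by gcongr
    _ ≤ N * (S:ℝ) ^ 2 + N * 6 := by
        rw [← Finset.mul_sum, ← Finset.mul_sum]
        gcongr
        have h1 : ∑ j ∈ Finset.Ico S J, (1 / 2 : ℝ) ^ j ≤ ∑' j : ℕ, (1 / 2 : ℝ) ^ j :=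
          Summable.sum_le_tsum _ (fun _ _ => by positivity) summable_geometric_two
        rw [tsum_geometric_two] at h1
        linarith
    _ = _ := by ring

/-! ### Size of the height -/

/-- Facts valid for all large heights. -/
structure BigT (T : ℝ) : Prop where
  big : 4 ≤ T
  log : 10 ≤ Real.log T
  gap : zeroCount (T / 4) < zeroCount (T / 2)

lemma exists_bigT (hRH : RiemannHypothesis) : ∃ T1 : ℝ, ∀ T : ℝ, T1 ≤ T → BigT T := by
  obtain ⟨C, hC, h⟩ := riemann_vonMangoldt hRH
  have h1 : ∀ᶠ T : ℝ in atTop, Real.log T / T < 1 / (20 * C) :=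
    tendsto_log_div.eventually (gt_mem_nhds (by positivity))
  obtain ⟨T1, hT1⟩ := eventually_atTop.mp (h1.and ((eventually_ge_atTop 8).and
    (Real.tendsto_log_atTop.eventually_ge_atTop 10)))
  refine ⟨T1, fun T hT => ?_⟩
  obtain ⟨h2, h3, h4⟩ := hT1 T hT
  have hT0 : 0 < T := by linarith
  refine ⟨by linarith, h4, ?_⟩
  have h5 := (abs_le.mp (h (T / 2) (by linarith))).1
  have h6 := (abs_le.mp (h (T / 4) (by linarith))).2
  have hl4 : Real.log 4 = 2 * Real.log 2 := by
    rw [show (4:ℝ) = 2 ^ 2 by norm_num, Real.log_pow]; norm_num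
  have hl2 := Real.log_two_lt_d9
  have hl2' := Real.log_two_gt_d9
  have e2 : Real.log (T / 2) = Real.log T - Real.log 2 := Real.log_div hT0.ne' (by norm_num)
  have e4 : Real.log (T / 4) = Real.log T - Real.log 4 := Real.log_div hT0.ne' (by norm_num)
  rw [e2] at h5
  rw [e4, hl4] at h6
  have hpi := Real.pi_gt_three
  have hpi2 := Real.pi_lt_d2
  have hlp : Real.log (2 * Real.pi) ≤ 3 := by
    rw [Real.log_le_iff_le_exp (by positivity)]
    have h7 : (2:ℝ) ^ 3 ≤ Real.exp 3 := by
      have : Real.exp 3 = (Real.exp 1) ^ 3 := by rw [← Real.exp_nat_mul]; norm_num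
      rw [this]
      have := Real.exp_one_gt_d9
      gcongr
      linarith
    linarith
  have hCl : C * Real.log T ≤ T / 20 := by
    rw [div_lt_div_iff₀ hT0 (by positivity)] at h2
    linarith
  have hCl2 : 0 < C * Real.log 2 := by positivity
  -- main terms
  set a := T / (2 * Real.pi) with ha
  have ha0 : T / 7 ≤ a := by
    rw [ha]
    apply div_le_div_of_nonneg_left hT0.le (by positivity)
    linarith
  have e5 : T / 2 / (2 * Real.pi) = a / 2 := by rw [ha]; ring
  have e6 : T / 4 / (2 * Real.pi) = a / 4 := by rw [ha]; ring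
  rw [e5] at h5
  rw [e6] at h6
  have key : (zeroCount (T / 4) : ℝ) < zeroCount (T / 2) := by
    set lg := Real.log (2 * Real.pi)
    have h8 : a / 2 * (Real.log T - Real.log 2 - lg - 1) - a / 4 * (Real.log T - 2 * Real.log 2 - lg - 1) =
        a / 4 * (Real.log T - lg - 1) := by ring
    have h9 : a / 4 * 6 ≤ a / 4 * (Real.log T - lg - 1) := by
      have : 0 < a := by linarith
      gcongr
      linarith
    nlinarith
  exact_mod_cast key

/-- `N ≤ 8 T log T` for `T = γ_N / 4`. -/
lemma exists_N_le (hRH : RiemannHypothesis) : ∃ N1 : ℕ, ∀ N : ℕ, N1 ≤ N →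
    (N:ℝ) ≤ 8 * ((ordinate N / 4) * Real.log (ordinate N / 4)) := by
  obtain ⟨C, hC, h⟩ := riemann_vonMangoldt hRH
  have h1 : ∀ᶠ T : ℝ in atTop, Real.log T / T < 1 / (20 * C) :=
    tendsto_log_div.eventually (gt_mem_nhds (by positivity))
  have h2 := tendsto_ordinate.eventually (h1.and ((eventually_ge_atTop 16).and
    (Real.tendsto_log_atTop.eventually_ge_atTop 10)))
  obtain ⟨N1, hN1⟩ := eventually_atTop.mp (h2.and (eventually_ge_atTop 1))
  refine ⟨N1, fun N hN => ?_⟩
  obtain ⟨⟨h3, h4, h5⟩, h6⟩ := hN1 N hN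
  set g := ordinate N with hg
  have hg0 : 0 < g := by linarith
  have h7 : (N:ℝ) ≤ zeroCount g := by
    exact_mod_cast le_zeroCount_ordinate (zeroCount_unbounded N) h6
  have h8 := (abs_le.mp (h g (by linarith))).2
  have hCl : C * Real.log g ≤ g / 20 := by
    rw [div_lt_div_iff₀ hg0 (by positivity)] at h3
    linarith
  have hpi := Real.pi_gt_three
  have hlp : 0 < Real.log (2 * Real.pi) := Real.log_pos (by linarith)
  have h9 : g / (2 * Real.pi) * (Real.log g - Real.log (2 * Real.pi) - 1) ≤ g / 6 * Real.log g := by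
    calc _ ≤ g / (2 * Real.pi) * Real.log g := by
          gcongr
          linarith
      _ ≤ _ := by
          gcongr
          linarith
  have h10 : Real.log (g / 4) = Real.log g - Real.log 4 := Real.log_div hg0.ne' (by norm_num)
  have hl4 : Real.log 4 ≤ 2 := by
    have : Real.log 4 = 2 * Real.log 2 := by
      rw [show (4:ℝ) = 2 ^ 2 by norm_num, Real.log_pow]; norm_num
    have := Real.log_two_lt_d9
    linarith
  rw [h10]
  nlinarith

/-- Lower bound for the gap. -/
lemma gap_ge {n : ℕ} (hn : 1 ≤ n) : (ordinate (n + 1) - ordinate n) * Real.log (ordinate n) ≤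
    2 * Real.pi * gap n := by
  have h1 := ordinate_pos (zeroCount_unbounded n) hn
  have h2 := ordinate_mono (zeroCount_unbounded (n + 1)) hn (show n ≤ n + 1 by omega)
  have h3 : Real.log (ordinate n) ≤ Real.log (ordinate (n + 1)) := Real.log_le_log h1 h2
  have h4 : 2 * Real.pi * gap n = ordinate (n + 1) * Real.log (ordinate (n + 1)) -
      ordinate n * Real.log (ordinate n) := by
    unfold gap normOrdinate
    field_simp
  rw [h4]
  nlinarith

/-- **From void windows to large gaps.** -/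
theorem count_of_void (hRH : RiemannHypothesis) {c d c0 T0 : ℝ} (hc : 0 < c) (hd : d < c)
    (hc0 : 0 < c0) (hV : ∀ T : ℝ, T0 ≤ T → c0 * T ≤ volume.real {t : ℝ |
      t ∈ Set.Icc (T / 2) (3 * T) ∧ ∀ ρ ∈ ntz, Real.pi * c / Real.log T < |ρ.im - t|}) :
    ∃ κ : ℝ, 0 < κ ∧ ∃ N0 : ℕ, ∀ N : ℕ, N0 ≤ N →
      κ * N ≤ ({n ∈ Icc 1 N | d < gap n}.card : ℝ) := by
  obtain ⟨C, hC, hsq⟩ := exists_sum_sq_gap hRH
  obtain ⟨T1, hT1⟩ := exists_bigT hRH
  obtain ⟨N1, hN1⟩ := exists_N_le hRH
  set d' := max d 0 with hd'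
  have hd'c : d' < c := max_lt hd hc
  -- large height
  have hev : ∀ᶠ g : ℝ in atTop, T0 ≤ g / 4 ∧ T1 ≤ g / 4 ∧ c * 2 / (c - d') ≤ Real.log (g / 4) := by
    have e1 : Tendsto (fun g : ℝ => g / 4) atTop atTop :=
      tendsto_id.atTop_div_const (by norm_num)
    exact (e1.eventually_ge_atTop T0).and ((e1.eventually_ge_atTop T1).and
      ((Real.tendsto_log_atTop.comp e1).eventually_ge_atTop _))
  obtain ⟨N2, hN2⟩ := eventually_atTop.mp (tendsto_ordinate.eventually hev)
  refine ⟨c0 ^ 2 / (C * (32 * Real.pi) ^ 2), by positivity, max (max N1 N2) 1, fun N hN => ?_⟩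
  have hNN1 : N1 ≤ N := (le_max_left _ _).trans ((le_max_left _ _).trans hN)
  have hNN2 : N2 ≤ N := (le_max_right _ _).trans ((le_max_left _ _).trans hN)
  have hN1' : 1 ≤ N := (le_max_right _ _).trans hN
  have hNle := hN1 N hNN1
  obtain ⟨hTT0, hTT1, hlogT⟩ := hN2 N hNN2
  set T := ordinate N / 4 with hT
  have hgN : ordinate N = 4 * T := by rw [hT]; ring
  obtain ⟨hT4, hL10, hcnt⟩ := hT1 T hTT1
  have hT0' : 0 < T := by linarith
  set L := Real.log T with hL
  have hL0 : 0 < L := by linarith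
  set A := {n ∈ Icc 1 N | d' < gap n} with hA
  set A' := A.filter (fun n => T / 4 ≤ ordinate n) with hA'
  have hl4 : Real.log 4 ≤ 2 := by
    have : Real.log 4 = 2 * Real.log 2 := by
      rw [show (4:ℝ) = 2 ^ 2 by norm_num, Real.log_pow]; norm_num
    have := Real.log_two_lt_d9
    linarith
  have hlog4 : L - 2 ≤ Real.log (T / 4) := by
    rw [Real.log_div hT0'.ne' (by norm_num)]
    linarith
  -- covering
  have hcov : {t : ℝ | t ∈ Set.Icc (T / 2) (3 * T) ∧ ∀ ρ ∈ ntz, Real.pi * c / L < |ρ.im - t|} ⊆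
      ⋃ n ∈ A', Set.Icc (ordinate n) (ordinate (n + 1)) := by
    rintro t ⟨⟨ht1, ht2⟩, hvoid⟩
    set n := zeroCount t with hn
    have hn2 : zeroCount (T / 2) ≤ n := zeroCount_mono ht1
    have hn1 : 1 ≤ n := by omega
    have hnN : n < N := by
      have h3 : zeroCount (3 * T) < N := by
        by_contra hcon
        push Not at hcon
        have := (le_zeroCount_iff (zeroCount_unbounded N) hN1').mp hcon
        rw [hgN] at this
        linarith
      exact lt_of_le_of_lt (zeroCount_mono ht2) h3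
    have h1 : ordinate n ≤ t := (le_zeroCount_iff (zeroCount_unbounded n) hn1).mp le_rfl
    have h2 : t < ordinate (n + 1) := by
      by_contra hcon
      push Not at hcon
      have := (le_zeroCount_iff (zeroCount_unbounded (n + 1)) (by omega)).mpr hcon
      omega
    have h3 : T / 4 < ordinate n := by
      by_contra hcon
      push Not at hcon
      have := (le_zeroCount_iff (zeroCount_unbounded n) hn1).mpr hcon
      omega
    obtain ⟨ρ, hρ, hρ2⟩ := exists_zero_ordinate (zeroCount_unbounded n) hn1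
    obtain ⟨ρ', hρ', hρ2'⟩ := exists_zero_ordinate (zeroCount_unbounded (n + 1)) (by omega)
    have h4 := hvoid ρ hρ
    have h5 := hvoid ρ' hρ'
    rw [hρ2, abs_sub_comm, abs_of_nonneg (by linarith)] at h4
    rw [hρ2', abs_of_nonneg (by linarith)] at h5
    have h6 : 2 * (Real.pi * c / L) < ordinate (n + 1) - ordinate n := by linarith
    have h7 := gap_ge hn1
    have h8 : L - 2 ≤ Real.log (ordinate n) :=
      hlog4.trans (Real.log_le_log (by positivity) h3.le)
    have h9 : d' < gap n := by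
      have hpi := Real.pi_pos
      have e1 : 2 * (Real.pi * c / L) * (L - 2) < 2 * Real.pi * gap n := by
        refine lt_of_lt_of_le ?_ h7
        have e2 : 0 < L - 2 := by linarith
        calc 2 * (Real.pi * c / L) * (L - 2) < (ordinate (n + 1) - ordinate n) * (L - 2) := by
              gcongr
          _ ≤ _ := by
              have : 0 ≤ ordinate (n + 1) - ordinate n := by linarith
              gcongr
      have e3 : 2 * (Real.pi * c / L) * (L - 2) = 2 * Real.pi * (c - c * 2 / L) := by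
        have e6 : L * L⁻¹ = 1 := mul_inv_cancel₀ hL0.ne'
        rw [div_eq_mul_inv, div_eq_mul_inv]
        linear_combination (2 * Real.pi * c) * e6
      rw [e3] at e1
      have e4 : c - c * 2 / L < gap n := lt_of_mul_lt_mul_left e1 (by positivity)
      have e5 : c * 2 / L ≤ c - d' := by
        rw [div_le_iff₀ (by linarith)] at hlogT
        rw [div_le_iff₀ hL0]
        linarith
      linarith
    simp only [Set.mem_iUnion, Set.mem_Icc, exists_prop]
    refine ⟨n, ?_, h1, h2.le⟩
    rw [hA', hA, Finset.mem_filter, Finset.mem_filter, Finset.mem_Icc]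
    exact ⟨⟨⟨hn1, hnN.le⟩, h9⟩, h3.le⟩
  have hA1 : ∀ n ∈ A', 1 ≤ n ∧ 0 < gap n ∧
      ordinate (n + 1) - ordinate n ≤ 4 * Real.pi / L * gap n := by
    intro n hn
    rw [hA', hA, Finset.mem_filter, Finset.mem_filter, Finset.mem_Icc] at hn
    obtain ⟨⟨⟨h1, _⟩, h2⟩, h3⟩ := hn
    have h4 : 0 < gap n := lt_of_le_of_lt (le_max_right _ _) h2
    refine ⟨h1, h4, ?_⟩
    have h7 := gap_ge h1
    have h8 : L / 2 ≤ Real.log (ordinate n) := by
      have := Real.log_le_log (by positivity) h3
      linarith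
    have h9 := ordinate_mono (zeroCount_unbounded (n + 1)) h1 (show n ≤ n + 1 by omega)
    have h10 : (ordinate (n + 1) - ordinate n) * (L / 2) ≤ 2 * Real.pi * gap n := by
      refine le_trans ?_ h7
      have : 0 ≤ ordinate (n + 1) - ordinate n := by linarith
      gcongr
    rw [div_mul_eq_mul_div, le_div_iff₀ hL0]
    linarith
  have hmeas : c0 * T ≤ ∑ n ∈ A', (ordinate (n + 1) - ordinate n) := by
    refine (hV T hTT0).trans ?_
    have hfin : volume (⋃ n ∈ A', Set.Icc (ordinate n) (ordinate (n + 1))) ≠ ⊤ := by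
      refine ne_top_of_le_ne_top ?_ (measure_biUnion_finset_le A' _)
      refine ENNReal.sum_ne_top.mpr fun n _ => ?_
      rw [Real.volume_Icc]; exact ENNReal.ofReal_ne_top
    refine (measureReal_mono hcov hfin).trans ?_
    refine (measureReal_biUnion_finset_le A' _).trans ?_
    refine Finset.sum_le_sum fun n hn => ?_
    have h9 := ordinate_mono (zeroCount_unbounded (n + 1)) (hA1 n hn).1 (show n ≤ n + 1 by omega)
    rw [Real.volume_real_Icc, max_eq_left (by linarith)]
  have hgapsum : c0 * T * L ≤ 4 * Real.pi * ∑ n ∈ A', gap n := by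
    have h1 : ∑ n ∈ A', (ordinate (n + 1) - ordinate n) ≤ 4 * Real.pi / L * ∑ n ∈ A', gap n := by
      rw [Finset.mul_sum]
      exact Finset.sum_le_sum fun n hn => (hA1 n hn).2.2
    have h2 := hmeas.trans h1
    rw [div_mul_eq_mul_div, le_div_iff₀ hL0] at h2
    exact h2
  have hcs : (∑ n ∈ A', gap n) ^ 2 ≤ A'.card * (C * N) := by
    refine sq_sum_le_card_mul_sum_sq.trans ?_
    refine mul_le_mul_of_nonneg_left ?_ (Nat.cast_nonneg _)
    refine le_trans ?_ (hsq N)
    have hsub : A' ⊆ Icc 1 N := (Finset.filter_subset _ _).trans (Finset.filter_subset _ _)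
    calc ∑ n ∈ A', gap n ^ 2 = ∑ n ∈ A', (max (gap n) 0) ^ 2 := by
          refine Finset.sum_congr rfl fun n hn => ?_
          rw [max_eq_left (hA1 n hn).2.1.le]
      _ ≤ _ := Finset.sum_le_sum_of_subset_of_nonneg hsub fun _ _ _ => sq_nonneg _
  have hNpos : (0:ℝ) < N := by exact_mod_cast hN1'
  have hpi := Real.pi_pos
  have h1 : c0 * N ≤ 32 * Real.pi * ∑ n ∈ A', gap n := by
    have : c0 * N ≤ 8 * (c0 * T * L) := by
      calc c0 * N ≤ c0 * (8 * (T * L)) := by gcongr
        _ = _ := by ring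
    linarith
  have h2 : (c0 * N) ^ 2 ≤ (32 * Real.pi) ^ 2 * (A'.card * (C * N)) := by
    calc (c0 * N) ^ 2 ≤ (32 * Real.pi * ∑ n ∈ A', gap n) ^ 2 := by gcongr
      _ = (32 * Real.pi) ^ 2 * (∑ n ∈ A', gap n) ^ 2 := by ring
      _ ≤ _ := by gcongr
  have h3 : c0 ^ 2 / (C * (32 * Real.pi) ^ 2) * N ≤ A'.card := by
    rw [div_mul_eq_mul_div, div_le_iff₀ (by positivity)]
    have h4 : (c0 ^ 2 * N) * N ≤ (A'.card * (C * (32 * Real.pi) ^ 2)) * N := by
      calc (c0 ^ 2 * N) * N = (c0 * N) ^ 2 := by ring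
        _ ≤ _ := h2
        _ = _ := by ring
    exact le_of_mul_le_mul_right h4 hNpos
  refine h3.trans ?_
  have h5 : A'.card ≤ ({n ∈ Icc 1 N | d < gap n}).card := by
    apply Finset.card_le_card
    intro n hn
    rw [hA', hA, Finset.mem_filter, Finset.mem_filter] at hn
    rw [Finset.mem_filter]
    exact ⟨hn.1.1, lt_of_le_of_lt (le_max_left _ _) hn.1.2⟩
  exact Nat.cast_le.mpr h5

/-- **From crowded windows to small gaps.** -/
theorem count_of_crowd (hRH : RiemannHypothesis) {c d c0 T0 : ℝ} (hc : 0 < c) (hd : c < d)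
    (hc0 : 0 < c0) (hV : ∀ T : ℝ, T0 ≤ T → c0 * T ≤ volume.real {t : ℝ |
      t ∈ Set.Icc (T / 2) (3 * T) ∧ zeroCount (t - Real.pi * c / Real.log T) + 2 ≤
        zeroCount (t + Real.pi * c / Real.log T)}) :
    ∃ κ : ℝ, 0 < κ ∧ ∃ N0 : ℕ, ∀ N : ℕ, N0 ≤ N →
      κ * N ≤ ({n ∈ Icc 1 N | gap n < d}.card : ℝ) := by
  obtain ⟨T1, hT1⟩ := exists_bigT hRH
  obtain ⟨N1, hN1⟩ := exists_N_le hRH
  -- large height
  have hev : ∀ᶠ g : ℝ in atTop, T0 ≤ g / 4 ∧ T1 ≤ g / 4 ∧ c * 4 / (d - c) ≤ Real.log (g / 4) ∧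
      Real.pi * c ≤ g / 4 := by
    have e1 : Tendsto (fun g : ℝ => g / 4) atTop atTop :=
      tendsto_id.atTop_div_const (by norm_num)
    exact (e1.eventually_ge_atTop T0).and ((e1.eventually_ge_atTop T1).and
      (((Real.tendsto_log_atTop.comp e1).eventually_ge_atTop _).and (e1.eventually_ge_atTop _)))
  obtain ⟨N2, hN2⟩ := eventually_atTop.mp (tendsto_ordinate.eventually hev)
  have hpi := Real.pi_pos
  refine ⟨c0 / (16 * (Real.pi * c)), by positivity, max (max N1 N2) 1, fun N hN => ?_⟩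
  have hNN1 : N1 ≤ N := (le_max_left _ _).trans ((le_max_left _ _).trans hN)
  have hNN2 : N2 ≤ N := (le_max_right _ _).trans ((le_max_left _ _).trans hN)
  have hN1' : 1 ≤ N := (le_max_right _ _).trans hN
  have hNle := hN1 N hNN1
  obtain ⟨hTT0, hTT1, hlogT, hpic⟩ := hN2 N hNN2
  set T := ordinate N / 4 with hT
  have hgN : ordinate N = 4 * T := by rw [hT]; ring
  obtain ⟨hT4, hL10, hcnt⟩ := hT1 T hTT1
  have hT0' : 0 < T := by linarith
  set L := Real.log T with hL
  have hL0 : 0 < L := by linarith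
  set w := Real.pi * c / L with hw
  have hw0 : 0 < w := by positivity
  have hwT : w < T := by
    rw [hw, div_lt_iff₀ hL0]
    nlinarith
  have hl4 : Real.log 4 ≤ 2 := by
    have : Real.log 4 = 2 * Real.log 2 := by
      rw [show (4:ℝ) = 2 ^ 2 by norm_num, Real.log_pow]; norm_num
    have := Real.log_two_lt_d9
    linarith
  set A := {n ∈ Icc 1 N | gap n < d} with hA
  have hcov : {t : ℝ | t ∈ Set.Icc (T / 2) (3 * T) ∧ zeroCount (t - w) + 2 ≤ zeroCount (t + w)} ⊆
      ⋃ n ∈ A, Set.Icc (ordinate n - w) (ordinate n + w) := by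
    rintro t ⟨⟨ht1, ht2⟩, hcr⟩
    set n := zeroCount (t - w) + 1 with hn
    have hn1 : 1 ≤ n := by omega
    have h1 : t - w < ordinate n := by
      by_contra hcon
      push Not at hcon
      have := (le_zeroCount_iff (zeroCount_unbounded n) hn1).mpr hcon
      omega
    have h2 : ordinate (n + 1) ≤ t + w :=
      (le_zeroCount_iff (zeroCount_unbounded (n + 1)) (by omega)).mp (by omega)
    have h3 := ordinate_mono (zeroCount_unbounded (n + 1)) hn1 (show n ≤ n + 1 by omega)
    have hnN : n < N := by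
      have h4 : zeroCount (t + w) < N := by
        by_contra hcon
        push Not at hcon
        have := (le_zeroCount_iff (zeroCount_unbounded N) hN1').mp hcon
        rw [hgN] at this
        linarith
      omega
    have h5 := gap_le hn1
    have hpos := ordinate_pos (zeroCount_unbounded (n + 1)) (show 1 ≤ n + 1 by omega)
    have h6 : Real.log (ordinate (n + 1)) ≤ L + 2 := by
      have h7 : ordinate (n + 1) ≤ 4 * T := by linarith
      have h8 := Real.log_le_log hpos h7
      rw [Real.log_mul (by norm_num) hT0'.ne'] at h8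
      linarith
    have h9 : gap n < d := by
      have e1 : (ordinate (n + 1) - ordinate n) * (Real.log (ordinate (n + 1)) + 1) ≤
          2 * w * (L + 3) := by
        have e2 : 0 ≤ ordinate (n + 1) - ordinate n := by linarith
        calc _ ≤ (ordinate (n + 1) - ordinate n) * (L + 3) := by
              apply mul_le_mul_of_nonneg_left (by linarith) e2
          _ ≤ _ := by
              apply mul_le_mul_of_nonneg_right (by linarith) (by linarith)
      have e3 : gap n ≤ 2 * w * (L + 3) / (2 * Real.pi) := by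
        refine h5.trans ?_
        exact div_le_div_of_nonneg_right e1 (by positivity)
      have e4 : 2 * w * (L + 3) / (2 * Real.pi) = c + c * 3 / L := by
        rw [hw]
        field_simp
      have e5 : c * 4 / L ≤ d - c := by
        rw [div_le_iff₀ (by linarith)] at hlogT
        rw [div_le_iff₀ hL0]
        linarith
      have e6 : c * 3 / L < c * 4 / L := by
        apply div_lt_div_of_pos_right _ hL0
        linarith
      linarith
    simp only [Set.mem_iUnion, Set.mem_Icc, exists_prop]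
    refine ⟨n, ?_, by linarith, by linarith⟩
    rw [hA, Finset.mem_filter, Finset.mem_Icc]
    exact ⟨⟨hn1, hnN.le⟩, h9⟩
  have hmeas : c0 * T ≤ A.card * (2 * w) := by
    refine (hV T hTT0).trans ?_
    have hfin : volume (⋃ n ∈ A, Set.Icc (ordinate n - w) (ordinate n + w)) ≠ ⊤ := by
      refine ne_top_of_le_ne_top ?_ (measure_biUnion_finset_le A _)
      refine ENNReal.sum_ne_top.mpr fun n _ => ?_
      rw [Real.volume_Icc]; exact ENNReal.ofReal_ne_top
    refine (measureReal_mono hcov hfin).trans ?_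
    refine (measureReal_biUnion_finset_le A _).trans ?_
    rw [← nsmul_eq_mul, ← Finset.sum_const]
    refine Finset.sum_le_sum fun n hn => ?_
    rw [Real.volume_real_Icc, max_eq_left (by linarith)]
    linarith
  have h1 : c0 * (T * L) ≤ A.card * (2 * (Real.pi * c)) := by
    have hwL : w * L = Real.pi * c := by rw [hw]; exact div_mul_cancel₀ _ hL0.ne'
    have h2 : (A.card : ℝ) * (2 * w) * L = A.card * (2 * (Real.pi * c)) := by
      linear_combination (2 * (A.card : ℝ)) * hwL
    rw [← h2, ← mul_assoc]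
    exact mul_le_mul_of_nonneg_right hmeas hL0.le
  rw [div_mul_eq_mul_div, div_le_iff₀ (by positivity)]
  calc c0 * N ≤ c0 * (8 * (T * L)) := mul_le_mul_of_nonneg_left hNle hc0.le
    _ = 8 * (c0 * (T * L)) := by ring
    _ ≤ 8 * (A.card * (2 * (Real.pi * c))) := mul_le_mul_of_nonneg_left h1 (by norm_num)
    _ = _ := by ring

end Pool.Agent.ZetaGaps
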