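import Pool.Agent.ZetaGaps.RvM

/-!
# The Riemann-von Mangoldt formula under RH, part 2: the sum over zeros
-/

open Complex Filter Topology MeasureTheory intervalIntegral
open Pool.Agent.Hadamard (ntz mult)

namespace Pool.Agent.ZetaGaps

lemma re_eq_half (hRH : RiemannHypothesis) {ρ : ℂ} (hρ : ρ ∈ ntz) : ρ.re = 1 / 2 := by
  apply hRH ρ hρ.1
  · rintro ⟨n, hn⟩
    have h1 := hρ.2.1
    rw [hn] at h1
    simp at h1
    have : (0:ℝ) ≤ n := Nat.cast_nonneg n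
    linarith
  · rintro rfl
    have := hρ.2.2
    simp at this

lemma countable_ntz : ntz.Countable := by
  have h : ntz ⊆ ⋃ n : ℕ, {ρ : ℂ | ρ ∈ ntz ∧ |ρ.im| ≤ n} := by
    intro ρ hρ
    obtain ⟨n, hn⟩ := exists_nat_ge |ρ.im|
    exact Set.mem_iUnion.mpr ⟨n, hρ, hn⟩
  exact (Set.countable_iUnion fun n : ℕ => (finite_ntz_im (n:ℝ)).countable).mono h

lemma inv_re (hRH : RiemannHypothesis) (t : ℝ) {ρ : ℂ} (hρ : ρ ∈ ntz) :
    (1 / ((2:ℂ) + t * I - ρ)).re = K (t - ρ.im) := by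
  have h := re_eq_half hRH hρ
  rw [one_div, Complex.inv_re, Complex.normSq_apply]
  have hre : ((2:ℂ) + t * I - ρ).re = 3 / 2 := by simp [h]; norm_num
  have him : ((2:ℂ) + t * I - ρ).im = t - ρ.im := by simp
  rw [hre, him]
  unfold K
  ring_nf

lemma inv_im (hRH : RiemannHypothesis) (t : ℝ) {ρ : ℂ} (hρ : ρ ∈ ntz) :
    (1 / ((2:ℂ) + t * I - ρ)).im = -(2 / 3) * cK (t - ρ.im) := by
  have h := re_eq_half hRH hρ
  rw [one_div, Complex.inv_im, Complex.normSq_apply]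
  have hre : ((2:ℂ) + t * I - ρ).re = 3 / 2 := by simp [h]; norm_num
  have him : ((2:ℂ) + t * I - ρ).im = t - ρ.im := by simp
  rw [hre, him]
  unfold cK
  ring_nf

lemma hasSum_K (hRH : RiemannHypothesis) (t : ℝ) :
    HasSum (fun ρ : ntz => (mult ρ : ℝ) * K (t - (ρ:ℂ).im)) (PS t) := by
  have h := hasSum_PS t
  have heq : (fun ρ : ntz => (mult ρ : ℝ) * (1 / ((2:ℂ) + t * I - ρ)).re) =
      fun ρ : ntz => (mult ρ : ℝ) * K (t - (ρ:ℂ).im) := by
    funext ρ; rw [inv_re hRH t ρ.2]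
  rwa [heq] at h

lemma two_notMem (t : ℝ) : (2:ℂ) + t * I ∉ ntz := by
  intro h
  have := h.2.2
  rw [two_add_mul_I_re] at this
  norm_num at this

lemma hasSum_cK (hRH : RiemannHypothesis) (T : ℝ) :
    HasSum (fun ρ : ntz => (mult ρ : ℝ) * (cK (T - (ρ:ℂ).im) - cK (0 - (ρ:ℂ).im)))
      (-(3 / 2) * (logDeriv Hadamard.xiF (2 + T * I) - logDeriv Hadamard.xiF (2 + (0:ℝ) * I)).im) := by
  have h := Hadamard.hasSum_complex_zeros (two_notMem T) (two_notMem 0)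
  have h2 := ((Complex.hasSum_iff _ _).mp h).2
  have h3 := h2.mul_left (-(3 / 2 : ℝ))
  have heq : (fun ρ : ntz => (mult ρ : ℝ) * (cK (T - (ρ:ℂ).im) - cK (0 - (ρ:ℂ).im))) =
      fun ρ : ntz => -(3 / 2 : ℝ) *
        ((mult ρ : ℂ) * (1 / (2 + (T:ℂ) * I - ρ) - 1 / (2 + ((0:ℝ):ℂ) * I - ρ))).im := by
    funext ρ
    rw [← Complex.ofReal_natCast, Complex.im_ofReal_mul, Complex.sub_im, inv_im hRH T ρ.2,
      inv_im hRH 0 ρ.2]
    ring
  rw [heq]
  exact h3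

lemma im_logDeriv_xiF_bound : ∃ C : ℝ, 0 < C ∧ ∀ T : ℝ,
    |(logDeriv Hadamard.xiF (2 + T * I)).im| ≤ C := by
  obtain ⟨C1, hC1, h1⟩ := norm_logDeriv_zeta_two
  refine ⟨1 + 1 + (4 + Real.pi) / 2 + C1, by positivity, fun T => ?_⟩
  have hs : 1 ≤ ((2:ℂ) + T * I).re := by rw [two_add_mul_I_re]; norm_num
  have hs1 : (2:ℂ) + T * I ≠ 1 := by
    intro h
    have := congrArg Complex.re h
    rw [two_add_mul_I_re] at this
    norm_num at this
  rw [Hadamard.logDeriv_xiF hs hs1]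
  have a2 : |(1 / ((2:ℂ) + T * I - 1)).im| ≤ 1 := by
    refine (abs_im_le_norm _).trans ?_
    rw [norm_div, norm_one]
    rw [div_le_one_iff]
    left
    have hre : ((2:ℂ) + T * I - 1).re = 1 := by simp; norm_num
    have hge : 1 ≤ ‖(2:ℂ) + T * I - 1‖ := by
      calc (1:ℝ) = |((2:ℂ) + T * I - 1).re| := by rw [hre]; simp
        _ ≤ _ := abs_re_le_norm _
    exact ⟨by linarith, hge⟩
  have a3 : |(1 / ((2:ℂ) + T * I)).im| ≤ 1 := by
    refine (abs_im_le_norm _).trans ?_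
    rw [norm_div, norm_one]
    rw [div_le_one_iff]
    left
    have hge : 1 ≤ ‖(2:ℂ) + T * I‖ := by
      calc (1:ℝ) ≤ |((2:ℂ) + T * I).re| := by rw [two_add_mul_I_re]; norm_num
        _ ≤ _ := abs_re_le_norm _
    exact ⟨by linarith, hge⟩
  set z : ℂ := ((2:ℂ) + T * I) / 2 with hz
  have hzre : z.re = 1 := by rw [hz]; simp
  have hzn : 1 ≤ ‖z‖ := by
    calc (1:ℝ) = |z.re| := by rw [hzre]; simp
      _ ≤ _ := abs_re_le_norm _
  have a4 : ‖logDeriv Complex.Gamma z - Complex.log z‖ ≤ 4 := by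
    refine (Hadamard.norm_digamma_sub_log_le (by rw [hzre]; norm_num)).trans ?_
    have e1 : 2 / ‖z‖ ^ 2 ≤ 2 := div_le_self (by norm_num) (one_le_pow₀ hzn)
    have e2 : 2 / ‖z‖ ≤ 2 := div_le_self (by norm_num) hzn
    linarith
  have a5 : |(logDeriv Complex.Gamma z).im| ≤ 4 + Real.pi := by
    have e1 : (logDeriv Complex.Gamma z).im =
        (logDeriv Complex.Gamma z - Complex.log z).im + (Complex.log z).im := by
      rw [Complex.sub_im]; ring
    rw [e1]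
    refine (abs_add_le _ _).trans (add_le_add ((abs_im_le_norm _).trans a4) ?_)
    rw [Complex.log_im]
    exact Complex.abs_arg_le_pi z
  have a6 : |(logDeriv riemannZeta (2 + T * I)).im| ≤ C1 := (abs_im_le_norm _).trans (h1 T)
  have e0 : (1 / ((2:ℂ) + T * I) + 1 / ((2:ℂ) + T * I - 1) - (Real.log Real.pi : ℂ) / 2 +
      logDeriv Complex.Gamma z / 2 + logDeriv riemannZeta (2 + T * I)).im =
      (1 / ((2:ℂ) + T * I)).im + (1 / ((2:ℂ) + T * I - 1)).im +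
        (logDeriv Complex.Gamma z).im / 2 + (logDeriv riemannZeta (2 + T * I)).im := by
    simp only [add_im, sub_im]
    have e1 : ((Real.log Real.pi : ℂ) / 2).im = 0 := by
      rw [show ((Real.log Real.pi : ℂ) / 2) = ((Real.log Real.pi / 2 : ℝ) : ℂ) by push_cast; ring]
      exact Complex.ofReal_im _
    have e2 : (logDeriv Complex.Gamma z / 2).im = (logDeriv Complex.Gamma z).im / 2 := by
      have : logDeriv Complex.Gamma z / 2 =
          ((1 / 2 : ℝ) : ℂ) * logDeriv Complex.Gamma z := by push_cast; ring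
      rw [this, Complex.im_ofReal_mul]; ring
    rw [e1, e2]; ring
  rw [e0]
  rw [abs_le] at a2 a3 a5 a6 ⊢
  constructor <;> linarith [a2.1, a2.2, a3.1, a3.2, a5.1, a5.2, a6.1, a6.2]

lemma summable_hK (hRH : RiemannHypothesis) (t : ℝ) :
    Summable (fun ρ : ntz => (mult ρ : ℝ) * hK (t - (ρ:ℂ).im)) := by
  have h := ((hasSum_K hRH t).summable).mul_left (3 * Real.pi / 2)
  apply Summable.of_norm_bounded h
  intro ρ
  rw [norm_mul, Real.norm_natCast, Real.norm_eq_abs]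
  have := abs_hK_le (t - (ρ:ℂ).im)
  calc (mult ρ : ℝ) * |hK (t - (ρ:ℂ).im)| ≤ (mult ρ : ℝ) * (3 * Real.pi / 2 * K (t - (ρ:ℂ).im)) :=
        mul_le_mul_of_nonneg_left this (Nat.cast_nonneg _)
    _ = _ := by ring

lemma abs_tsum_hK_le (hRH : RiemannHypothesis) (t : ℝ) :
    |∑' ρ : ntz, (mult ρ : ℝ) * hK (t - (ρ:ℂ).im)| ≤ 3 * Real.pi / 2 * PS t := by
  have h := ((hasSum_K hRH t)).mul_left (3 * Real.pi / 2)
  rw [← Real.norm_eq_abs]
  apply tsum_of_norm_bounded h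
  intro ρ
  rw [norm_mul, Real.norm_natCast, Real.norm_eq_abs]
  have := abs_hK_le (t - (ρ:ℂ).im)
  calc (mult ρ : ℝ) * |hK (t - (ρ:ℂ).im)| ≤ (mult ρ : ℝ) * (3 * Real.pi / 2 * K (t - (ρ:ℂ).im)) :=
        mul_le_mul_of_nonneg_left this (Nat.cast_nonneg _)
    _ = _ := by ring

/-- The step part of the sum is `π N(T)`. -/
lemma hasSum_sg {T : ℝ} (hT : 0 ≤ T) :
    HasSum (fun ρ : ntz => (mult ρ : ℝ) *
      (Real.pi / 2 * (sg (T - (ρ:ℂ).im) - sg (0 - (ρ:ℂ).im)))) (Real.pi * zeroCount T) := by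
  classical
  -- each term is `π m(ρ)` when `0 < γ ≤ T` and `0` otherwise
  have hterm : ∀ ρ : ntz, (mult ρ : ℝ) *
      (Real.pi / 2 * (sg (T - (ρ:ℂ).im) - sg (0 - (ρ:ℂ).im))) =
      if (ρ:ℂ) ∈ zerosUpTo T then Real.pi * mult ρ else 0 := by
    intro ρ
    by_cases h : (ρ:ℂ) ∈ zerosUpTo T
    · rw [if_pos h]
      rw [mem_zerosUpTo] at h
      unfold sg
      rw [if_pos (by linarith [h.2.2]), if_neg (by linarith [h.2.1])]
      ring
    · rw [if_neg h]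
      rw [mem_zerosUpTo] at h
      push Not at h
      have h2 := h ρ.2
      unfold sg
      rcases le_or_gt (ρ:ℂ).im 0 with h3 | h3
      · rw [if_pos (by linarith), if_pos (by linarith)]; ring
      · have h4 := h2 h3
        rw [if_neg (by linarith), if_neg (by linarith)]; ring
  set F : Finset ntz := (finite_zerosUpTo T).toFinset.attach.image
    (fun x => (⟨x.1, mem_ntz_of_mem ((Set.Finite.mem_toFinset _).mp x.2)⟩ : ntz)) with hF
  have hmem : ∀ ρ : ntz, ρ ∈ F ↔ (ρ:ℂ) ∈ zerosUpTo T := by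
    intro ρ
    rw [hF, Finset.mem_image]
    constructor
    · rintro ⟨x, _, rfl⟩
      exact (Set.Finite.mem_toFinset _).mp x.2
    · intro h
      exact ⟨⟨ρ, (Set.Finite.mem_toFinset _).mpr h⟩, Finset.mem_attach _ _, rfl⟩
  have h1 : HasSum (fun ρ : ntz => (mult ρ : ℝ) *
      (Real.pi / 2 * (sg (T - (ρ:ℂ).im) - sg (0 - (ρ:ℂ).im))))
      (∑ ρ ∈ F, (mult ρ : ℝ) *
      (Real.pi / 2 * (sg (T - (ρ:ℂ).im) - sg (0 - (ρ:ℂ).im)))) := by
    apply hasSum_sum_of_ne_finset_zero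
    intro ρ hρ
    rw [hmem] at hρ
    rw [hterm, if_neg hρ]
  have h2 : (∑ ρ ∈ F, (mult ρ : ℝ) *
      (Real.pi / 2 * (sg (T - (ρ:ℂ).im) - sg (0 - (ρ:ℂ).im)))) = Real.pi * zeroCount T := by
    rw [zeroCount_eq]
    push_cast
    rw [Finset.mul_sum]
    have h3 : ∀ ρ ∈ F, (mult ρ : ℝ) *
        (Real.pi / 2 * (sg (T - (ρ:ℂ).im) - sg (0 - (ρ:ℂ).im))) = Real.pi * mult ρ := by
      intro ρ hρ
      rw [hterm, if_pos ((hmem ρ).mp hρ)]
    rw [Finset.sum_congr rfl h3, hF]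
    rw [Finset.sum_image]
    · exact Finset.sum_attach (finite_zerosUpTo T).toFinset (fun ρ => Real.pi * (mult ρ : ℝ))
    · intro a _ b _ hab
      apply Subtype.ext
      exact congrArg (fun x : ntz => (x : ℂ)) hab
  rwa [h2] at h1

/-- The sum of the primitives. -/
lemma hasSum_AK (hRH : RiemannHypothesis) {T : ℝ} (hT : 0 ≤ T) :
    HasSum (fun ρ : ntz => (mult ρ : ℝ) * (AK (T - (ρ:ℂ).im) - AK (0 - (ρ:ℂ).im)))
      (Real.pi * zeroCount T +
        (3 / 2) * (logDeriv Hadamard.xiF (2 + T * I) - logDeriv Hadamard.xiF (2 + (0:ℝ) * I)).im +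
        ((∑' ρ : ntz, (mult ρ : ℝ) * hK (T - (ρ:ℂ).im)) -
          ∑' ρ : ntz, (mult ρ : ℝ) * hK (0 - (ρ:ℂ).im))) := by
  have h := ((hasSum_sg hT).add ((hasSum_cK hRH T).neg)).add
    ((summable_hK hRH T).hasSum.sub (summable_hK hRH 0).hasSum)
  convert h using 1
  · funext ρ
    unfold hK
    ring
  · ring

lemma integral_K (T γ : ℝ) : ∫ t in (0:ℝ)..T, K (t - γ) = AK (T - γ) - AK (0 - γ) := by
  have h : ∀ t ∈ Set.uIcc 0 T, HasDerivAt (fun t => AK (t - γ)) (K (t - γ)) t := by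
    intro t _
    have := (hasDerivAt_AK (t - γ)).comp t ((hasDerivAt_id t).sub_const γ)
    simpa [Function.comp_def] using this
  rw [intervalIntegral.integral_eq_sub_of_hasDerivAt h]
  exact (K_continuous.comp (continuous_id.sub continuous_const)).intervalIntegrable _ _

/-- `∫_0^T PS = ` the sum of the primitives. -/
lemma hasSum_integral (hRH : RiemannHypothesis) {T : ℝ} (hT : 0 ≤ T) :
    HasSum (fun ρ : ntz => (mult ρ : ℝ) * (AK (T - (ρ:ℂ).im) - AK (0 - (ρ:ℂ).im)))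
      (∫ t in (0:ℝ)..T, PS t) := by
  have : Countable ntz := countable_ntz.to_subtype
  have hcont : ∀ ρ : ntz, Continuous (fun t : ℝ => (mult ρ : ℝ) * K (t - (ρ:ℂ).im)) := fun ρ =>
    continuous_const.mul (K_continuous.comp (continuous_id.sub continuous_const))
  have hint : ∀ ρ : ntz, Integrable (fun t : ℝ => (mult ρ : ℝ) * K (t - (ρ:ℂ).im))
      (volume.restrict (Set.Ioc 0 T)) := fun ρ =>
    ((hcont ρ).integrableOn_Icc (a := 0) (b := T)).mono_set Set.Ioc_subset_Icc_self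
  have hval : ∀ ρ : ntz, ∫ t in Set.Ioc 0 T, (mult ρ : ℝ) * K (t - (ρ:ℂ).im) =
      (mult ρ : ℝ) * (AK (T - (ρ:ℂ).im) - AK (0 - (ρ:ℂ).im)) := by
    intro ρ
    rw [← intervalIntegral.integral_of_le hT, intervalIntegral.integral_const_mul, integral_K]
  have hnorm : ∀ ρ : ntz, ∫ t in Set.Ioc 0 T, ‖(mult ρ : ℝ) * K (t - (ρ:ℂ).im)‖ =
      (mult ρ : ℝ) * (AK (T - (ρ:ℂ).im) - AK (0 - (ρ:ℂ).im)) := by
    intro ρ
    rw [← hval ρ]
    apply MeasureTheory.integral_congr_ae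
    filter_upwards with t
    rw [Real.norm_of_nonneg]
    exact mul_nonneg (Nat.cast_nonneg _) (K_pos _).le
  have hsum : Summable fun ρ : ntz =>
      ∫ t in Set.Ioc 0 T, ‖(mult ρ : ℝ) * K (t - (ρ:ℂ).im)‖ := by
    simp_rw [hnorm]
    exact (hasSum_AK hRH hT).summable
  have h := hasSum_integral_of_summable_integral_norm hint hsum
  simp_rw [hval] at h
  have h2 : ∫ t in Set.Ioc 0 T, (∑' ρ : ntz, (mult ρ : ℝ) * K (t - (ρ:ℂ).im)) =
      ∫ t in (0:ℝ)..T, PS t := by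
    rw [intervalIntegral.integral_of_le hT]
    apply MeasureTheory.integral_congr_ae
    filter_upwards with t
    exact (hasSum_K hRH t).tsum_eq
  rwa [h2] at h

/-- `π N(T)` up to `O(1 + PS T)`. -/
theorem zeroCount_integral (hRH : RiemannHypothesis) : ∃ C : ℝ, 0 < C ∧ ∀ T : ℝ, 0 ≤ T →
    |Real.pi * zeroCount T - ∫ t in (0:ℝ)..T, PS t| ≤ C + 3 * Real.pi / 2 * PS T := by
  obtain ⟨C, hC, h⟩ := im_logDeriv_xiF_bound
  have hPS0 : 0 ≤ PS 0 := tsum_nonneg fun ρ => term_nonneg 0 ρ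
  refine ⟨3 * C + 3 * Real.pi / 2 * PS 0, by positivity, fun T hT => ?_⟩
  have h1 := (hasSum_integral hRH hT).unique (hasSum_AK hRH hT)
  rw [h1]
  have h2 := abs_tsum_hK_le hRH T
  have h3 := abs_tsum_hK_le hRH 0
  have h4 := h T
  have h5 := h 0
  rw [Complex.sub_im]
  rw [abs_le] at h2 h3 h4 h5 ⊢
  constructor <;> linarith [h2.1, h2.2, h3.1, h3.2, h4.1, h4.2, h5.1, h5.2]

end Pool.Agent.ZetaGaps
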