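import Pool.Agent.ZetaGaps.Unbounded
import Mathlib.MeasureTheory.Measure.Lebesgue.Basic

/-!
# Gaps and voids
-/

open Complex Filter Topology MeasureTheory
open Pool.Agent.Hadamard (ntz mult)

namespace Pool.Agent.ZetaGaps

/-- The open interval `(t - r, t + r)` contains no ordinate of a nontrivial zero. -/
def Void (r t : ℝ) : Prop := ∀ ρ ∈ ntz, r ≤ |ρ.im - t|

lemma Void.mono {r r' t : ℝ} (h : r' ≤ r) (hv : Void r t) : Void r' t :=
  fun ρ hρ => h.trans (hv ρ hρ)

lemma void_of_between {n : ℕ} (hn : 1 ≤ n) {r t : ℝ} (h1 : ordinate n + r ≤ t)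
    (h2 : t + r ≤ ordinate (n + 1)) : Void r t := by
  intro ρ hρ
  rcases le_or_gt ρ.im (ordinate n) with h | h
  · rw [abs_sub_comm]
    exact le_trans (by linarith) (le_abs_self _)
  · have := no_zero_between (zeroCount_unbounded (n + 1)) hn hρ h
    exact le_trans (by linarith) (le_abs_self _)

/-- Counting large gaps by the measure of the void set. -/
lemma card_mul_le_void {T U r η : ℝ} (hr : 0 < r) (hη : 0 ≤ η) (A : Finset ℕ)
    (hA : ∀ n ∈ A, 1 ≤ n ∧ T ≤ ordinate n ∧ ordinate (n + 1) ≤ U ∧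
      2 * r + η ≤ ordinate (n + 1) - ordinate n) :
    ENNReal.ofReal (A.card * η) ≤ volume {t | t ∈ Set.Icc T U ∧ Void r t} := by
  have hsub : (⋃ n ∈ A, Set.Icc (ordinate n + r) (ordinate (n + 1) - r)) ⊆
      {t | t ∈ Set.Icc T U ∧ Void r t} := by
    intro t ht
    simp only [Set.mem_iUnion, Set.mem_Icc, exists_prop] at ht
    obtain ⟨n, hn, h1, h2⟩ := ht
    obtain ⟨h3, h4, h5, h6⟩ := hA n hn
    exact ⟨⟨by linarith, by linarith⟩, void_of_between h3 h1 (by linarith)⟩
  refine le_trans ?_ (measure_mono hsub)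
  have hlt : ∀ m ∈ A, ∀ n ∈ A, m < n →
      Disjoint (Set.Icc (ordinate m + r) (ordinate (m + 1) - r))
        (Set.Icc (ordinate n + r) (ordinate (n + 1) - r)) := by
    intro m hm n hn hmn
    rw [Set.disjoint_left]
    intro t ht1 ht2
    have h1 := ordinate_mono (zeroCount_unbounded n) (show 1 ≤ m + 1 by omega)
      (show m + 1 ≤ n by omega)
    linarith [ht1.2, ht2.1]
  rw [measure_biUnion_finset _ (fun n _ => measurableSet_Icc)]
  · have h1 : ∀ n ∈ A, ENNReal.ofReal η ≤
        volume (Set.Icc (ordinate n + r) (ordinate (n + 1) - r)) := by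
      intro n hn
      rw [Real.volume_Icc]
      exact ENNReal.ofReal_le_ofReal (by linarith [(hA n hn).2.2.2])
    calc ENNReal.ofReal (A.card * η) = A.card * ENNReal.ofReal η := by
          rw [ENNReal.ofReal_mul (Nat.cast_nonneg _), ENNReal.ofReal_natCast]
      _ = ∑ n ∈ A, ENNReal.ofReal η := by rw [Finset.sum_const, nsmul_eq_mul]
      _ ≤ _ := Finset.sum_le_sum h1
  · intro m hm n hn hmn
    rcases lt_or_gt_of_ne hmn with h | h
    · exact hlt m hm n hn h
    · exact (hlt n hn m hm h).symm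

/-- `b log b - a log a ≤ (b - a)(log b + 1)`. -/
lemma mul_log_sub_le {a b : ℝ} (ha : 0 < a) (hab : a ≤ b) :
    b * Real.log b - a * Real.log a ≤ (b - a) * (Real.log b + 1) := by
  have hb : 0 < b := lt_of_lt_of_le ha hab
  have h1 : Real.log b - Real.log a ≤ b / a - 1 := by
    rw [← Real.log_div hb.ne' ha.ne']
    exact Real.log_le_sub_one_of_pos (by positivity)
  have h2 : a * (Real.log b - Real.log a) ≤ b - a := by
    calc a * (Real.log b - Real.log a) ≤ a * (b / a - 1) := mul_le_mul_of_nonneg_left h1 ha.le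
      _ = b - a := by field_simp
  nlinarith

lemma gap_le {n : ℕ} (hn : 1 ≤ n) :
    gap n ≤ (ordinate (n + 1) - ordinate n) * (Real.log (ordinate (n + 1)) + 1) /
      (2 * Real.pi) := by
  unfold gap normOrdinate
  rw [← sub_div]
  apply div_le_div_of_nonneg_right _ (by positivity)
  exact mul_log_sub_le (ordinate_pos (zeroCount_unbounded n) hn)
    (ordinate_mono (zeroCount_unbounded _) hn (by omega))

/-- The measure estimate for voids (proved under RH elsewhere). -/
def VoidBound (ε C : ℝ) (k0 : ℕ) (T0 : ℝ) : Prop :=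
  ∀ T : ℝ, T0 ≤ T → ∀ k : ℕ, k0 ≤ k → (2:ℝ) ^ k ≤ T →
    volume {t | t ∈ Set.Icc T (2 * T) ∧ Void (Real.pi * (1 + ε) * k / Real.log T) t} ≤
      ENNReal.ofReal (T * (C / k) ^ k)

lemma VoidBound.four {ε C : ℝ} {k0 : ℕ} {T0 : ℝ} (h : VoidBound ε C k0 T0) (hε : 0 < ε)
    (hC : 0 ≤ C) {T : ℝ} (hT : T0 ≤ T) (hT1 : 1 < T) {k : ℕ} (hk : k0 ≤ k) (h2k : (2:ℝ) ^ k ≤ T) :
    volume {t | t ∈ Set.Icc T (4 * T) ∧ Void (Real.pi * (1 + ε) * k / Real.log T) t} ≤
      ENNReal.ofReal (3 * T * (C / k) ^ k) := by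
  have hlog : 0 < Real.log T := Real.log_pos hT1
  have h1 := h T hT k hk h2k
  have h2 := h (2 * T) (by linarith) k hk (by linarith)
  have hsub : {t | t ∈ Set.Icc T (4 * T) ∧ Void (Real.pi * (1 + ε) * k / Real.log T) t} ⊆
      {t | t ∈ Set.Icc T (2 * T) ∧ Void (Real.pi * (1 + ε) * k / Real.log T) t} ∪
      {t | t ∈ Set.Icc (2 * T) (2 * (2 * T)) ∧
        Void (Real.pi * (1 + ε) * k / Real.log (2 * T)) t} := by
    rintro t ⟨⟨ht1, ht2⟩, hv⟩
    rcases le_total t (2 * T) with h3 | h3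
    · exact Or.inl ⟨⟨ht1, h3⟩, hv⟩
    · refine Or.inr ⟨⟨h3, by linarith⟩, hv.mono ?_⟩
      apply div_le_div_of_nonneg_left _ hlog
        (Real.log_le_log (by linarith) (by linarith))
      have := Real.pi_pos
      positivity
  refine (measure_mono hsub).trans ((measure_union_le _ _).trans ((add_le_add h1 h2).trans ?_))
  rw [← ENNReal.ofReal_add (by positivity) (by positivity)]
  exact ENNReal.ofReal_le_ofReal (by linarith)

end Pool.Agent.ZetaGaps
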