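import Pool.Agent.ZetaGaps.Block

/-!
# From void bounds to the tail of the gap distribution
-/

open Complex Filter Topology MeasureTheory
open Pool.Agent.Hadamard (ntz mult)

namespace Pool.Agent.ZetaGaps

lemma nat_succ_le_two_pow (k : ℕ) : ((k:ℝ) + 1) ≤ 2 ^ k := by
  have : k + 1 ≤ 2 ^ k := k.lt_two_pow_self
  exact_mod_cast this

lemma exists_small {ε C : ℝ} (hε : 0 < ε) (hC : 0 ≤ C) :
    ∃ K : ℕ, 1 ≤ K ∧ ∀ k : ℕ, K ≤ k → 1 / ε * (2 ^ (k + 1) * (k + 1)) * (C / k) ^ k < 1 := by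
  obtain ⟨K1, hK1⟩ := pow_unbounded_of_one_lt (2 / ε) (show (1:ℝ) < 2 by norm_num)
  refine ⟨max (K1 + 1) (⌈8 * C⌉₊ + 1), le_trans (by omega) (le_max_right _ _), fun k hk => ?_⟩
  have h1 : K1 ≤ k := by have := (le_max_left _ _).trans hk; omega
  have h2 : ⌈8 * C⌉₊ + 1 ≤ k := (le_max_right _ _).trans hk
  have h3 : 8 * C ≤ k := (Nat.le_ceil _).trans (by exact_mod_cast (by omega : ⌈8 * C⌉₊ ≤ k))
  have hk0 : (0:ℝ) < k := by exact_mod_cast (by omega : 0 < k)
  have h4 : C / k ≤ 1 / 8 := by rw [div_le_div_iff₀ hk0 (by norm_num)]; linarith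
  have h5 : (C / k) ^ k ≤ (1 / 8) ^ k := pow_le_pow_left₀ (by positivity) h4 k
  have h6 := nat_succ_le_two_pow k
  have h7 : (2:ℝ) ^ K1 ≤ 2 ^ k := pow_le_pow_right₀ (by norm_num) h1
  calc 1 / ε * (2 ^ (k + 1) * (k + 1)) * (C / k) ^ k
      ≤ 1 / ε * (2 ^ (k + 1) * 2 ^ k) * (1 / 8) ^ k := by
        apply mul_le_mul _ h5 (by positivity) (by positivity)
        apply mul_le_mul_of_nonneg_left _ (by positivity)
        exact mul_le_mul_of_nonneg_left h6 (by positivity)
    _ = (2 / ε) * (1 / 2) ^ k := by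
        rw [pow_succ]
        have : (1 / 8 : ℝ) ^ k = (1 / 2) ^ k * ((1 / 2) ^ k * (1 / 2) ^ k) := by
          rw [← mul_pow, ← mul_pow]; norm_num
        rw [this]
        have h8 : (2:ℝ) ^ k * (1 / 2) ^ k = 1 := by rw [← mul_pow]; norm_num
        calc 1 / ε * (2 ^ k * 2 * 2 ^ k) * ((1 / 2) ^ k * ((1 / 2) ^ k * (1 / 2) ^ k))
            = (2 / ε) * (1 / 2) ^ k * ((2 ^ k * (1 / 2) ^ k) * (2 ^ k * (1 / 2) ^ k)) := by ring
          _ = _ := by rw [h8]; ring
    _ < 2 ^ k * (1 / 2) ^ k := by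
        apply mul_lt_mul_of_pos_right _ (by positivity)
        linarith
    _ = 1 := by rw [← mul_pow]; norm_num

/-- For `2^k > T` there are no gaps of normalised size `≥ (1 + 3ε) k` in the block at `T`. -/
lemma block_empty {ε C : ℝ} {k0 : ℕ} {T0 : ℝ} (hε : 0 < ε) (hC : 0 ≤ C)
    (h : VoidBound ε C k0 T0) :
    ∃ T2 : ℝ, ∀ T : ℝ, T2 ≤ T → ∀ k : ℕ, T < (2:ℝ) ^ k →
      ∀ n : ℕ, 1 ≤ n → T ≤ ordinate n → ordinate n < 2 * T → gap n ≤ (1 + 3 * ε) * k := by
  obtain ⟨k1, hk1, T1, hT1, hb⟩ := block_bound hε hC h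
  obtain ⟨K, hK, hs⟩ := exists_small hε hC
  refine ⟨max T1 (2 ^ (max k1 K)), fun T hT k hk n hn hn1 hn2 => ?_⟩
  by_contra hcon
  push Not at hcon
  have hT1' : T1 ≤ T := (le_max_left _ _).trans hT
  have hTK : (2:ℝ) ^ (max k1 K) ≤ T := (le_max_right _ _).trans hT
  have hTpos : 0 < T := by linarith
  set k' := Nat.log 2 ⌊T⌋₊ with hk'
  have hfl : ⌊T⌋₊ ≠ 0 := by
    have : 1 ≤ ⌊T⌋₊ := Nat.le_floor (by push_cast; linarith)
    omega
  have h1 : (2:ℝ) ^ k' ≤ T := by
    have := Nat.pow_log_le_self 2 hfl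
    calc (2:ℝ) ^ k' ≤ (⌊T⌋₊ : ℝ) := by exact_mod_cast this
      _ ≤ T := Nat.floor_le hTpos.le
  have h2 : T < (2:ℝ) ^ (k' + 1) := by
    have h3 := Nat.lt_pow_succ_log_self (b := 2) (by norm_num) ⌊T⌋₊
    have h4 := Nat.lt_floor_add_one T
    calc T < (⌊T⌋₊ : ℝ) + 1 := h4
      _ ≤ (2:ℝ) ^ (k' + 1) := by exact_mod_cast h3
  have h3 : k' < k := by
    have : (2:ℝ) ^ k' < 2 ^ k := h1.trans_lt hk
    exact (pow_lt_pow_iff_right₀ (by norm_num)).mp this
  have h4 : max k1 K < k' + 1 := by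
    have : (2:ℝ) ^ (max k1 K) < 2 ^ (k' + 1) := hTK.trans_lt h2
    exact (pow_lt_pow_iff_right₀ (by norm_num)).mp this
  have h5 : k1 ≤ k' := by have := le_max_left k1 K; omega
  have h6 : K ≤ k' := by have := le_max_right k1 K; omega
  have h7 := hb T hT1' k' h5 h1 {n} (by
    intro m hm
    rw [Finset.mem_singleton] at hm
    subst hm
    refine ⟨hn, hn1, hn2, lt_of_le_of_lt ?_ hcon⟩
    apply mul_le_mul_of_nonneg_left _ (by positivity)
    exact_mod_cast h3.le)
  have h8 := hs k' h6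
  rw [Finset.card_singleton, Nat.cast_one] at h7
  have hlogT : Real.log T ≤ k' + 1 := by
    have h9 := Real.log_le_log hTpos h2.le
    rw [Real.log_pow] at h9
    have h10 : Real.log 2 ≤ 1 := by
      have := Real.log_two_lt_d9; linarith
    push_cast at h9
    nlinarith [(Nat.cast_nonneg k' : (0:ℝ) ≤ k')]
  have hlog0 : 0 ≤ Real.log T := Real.log_nonneg (by linarith)
  have h9 : 1 / ε * (T * Real.log T) * (C / k') ^ k' ≤
      1 / ε * (2 ^ (k' + 1) * (k' + 1)) * (C / k') ^ k' := by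
    apply mul_le_mul_of_nonneg_right _ (by positivity)
    apply mul_le_mul_of_nonneg_left _ (by positivity)
    exact mul_le_mul h2.le hlogT hlog0 (by positivity)
  linarith

/-- The final elementary inequality. -/
lemma final_ineq {ε C M : ℝ} (hε : 0 < ε) (hε1 : ε < 1 / 4) (hC : 0 < C) (hM : 0 < M) :
    ∃ s0 : ℝ, 1 ≤ s0 ∧ ∀ s : ℝ, s0 ≤ s →
      M * (C / (⌊s / (1 + 3 * ε)⌋₊ : ℝ)) ^ ⌊s / (1 + 3 * ε)⌋₊ ≤
        Real.exp (-(1 - 4 * ε) * (s * Real.log s)) := by
  set c1 := Real.log (C / (1 - 3 * ε)) with hc1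
  have h13 : 0 < 1 - 3 * ε := by linarith
  set s0 : ℝ := max 3 (max ((1 + 3 * ε) / (9 * ε ^ 2)) (max (Real.exp (2 / ε * |c1|))
    (max (2 / ε * |Real.log M|) (C / (1 - 3 * ε))))) with hs0
  refine ⟨s0, le_trans (by norm_num) (le_max_left _ _), fun s hs => ?_⟩
  have hs3 : 3 ≤ s := (le_max_left _ _).trans hs
  have hsa : (1 + 3 * ε) / (9 * ε ^ 2) ≤ s :=
    ((le_max_left _ _).trans (le_max_right _ _)).trans hs
  have hsb : Real.exp (2 / ε * |c1|) ≤ s :=
    ((le_max_left _ _).trans ((le_max_right _ _).trans (le_max_right _ _))).trans hs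
  have hsc : 2 / ε * |Real.log M| ≤ s :=
    ((le_max_left _ _).trans ((le_max_right _ _).trans ((le_max_right _ _).trans
      (le_max_right _ _)))).trans hs
  have hsd : C / (1 - 3 * ε) ≤ s :=
    ((le_max_right _ _).trans ((le_max_right _ _).trans ((le_max_right _ _).trans
      (le_max_right _ _)))).trans hs
  have hspos : 0 < s := by linarith
  set k := ⌊s / (1 + 3 * ε)⌋₊ with hk
  have hk1 : (1 - 3 * ε) * s ≤ k := by
    have h1 := Nat.lt_floor_add_one (s / (1 + 3 * ε))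
    rw [← hk] at h1
    have h2 : (1 - 3 * ε) * s + 1 ≤ s / (1 + 3 * ε) := by
      rw [le_div_iff₀ (by positivity)]
      rw [div_le_iff₀ (by positivity)] at hsa
      nlinarith
    linarith
  have hkpos : (0:ℝ) < k := lt_of_lt_of_le (by positivity) hk1
  have hlogs : 1 ≤ Real.log s := by
    rw [Real.le_log_iff_exp_le hspos]
    have := Real.exp_one_lt_d9
    linarith
  have hb : 2 / ε * |c1| ≤ Real.log s := by
    rw [Real.le_log_iff_exp_le hspos]; exact hsb
  have hCs : 0 ≤ Real.log ((1 - 3 * ε) * s / C) := by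
    apply Real.log_nonneg
    rw [one_le_div hC]
    rw [div_le_iff₀ h13] at hsd
    linarith
  have hlog1 : Real.log ((1 - 3 * ε) * s / C) = Real.log s - c1 := by
    rw [hc1, Real.log_div (by positivity) hC.ne', Real.log_div hC.ne' h13.ne',
      Real.log_mul h13.ne' hspos.ne']
    ring
  have hlogk : Real.log s - c1 ≤ Real.log (k / C) := by
    rw [← hlog1]
    apply Real.log_le_log (by positivity)
    exact div_le_div_of_nonneg_right hk1 hC.le
  have hkk : (1 - 3 * ε) * s * (Real.log s - c1) ≤ k * Real.log (k / C) :=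
    mul_le_mul hk1 hlogk (by rw [← hlog1]; exact hCs) hkpos.le
  -- rewrite the left side as an exponential
  have hpow : (C / (k:ℝ)) ^ k = Real.exp (-(k * Real.log (k / C))) := by
    have h1 : Real.log (C / k) = - Real.log (k / C) := by
      rw [← Real.log_inv, inv_div]
    have h2 : (0:ℝ) < C / k := by positivity
    rw [← Real.exp_log (show 0 < (C / (k:ℝ)) ^ k by positivity), Real.log_pow, h1]
    congr 1; ring
  rw [hpow, ← Real.exp_log hM, ← Real.exp_add, Real.exp_le_exp]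
  -- main inequality
  have h1 : (1 - 3 * ε) * s * (Real.log s - c1) ≥
      (1 - 3 * ε) * (s * Real.log s) - s * |c1| := by
    have h2 : c1 ≤ |c1| := le_abs_self _
    have h3 : 0 ≤ |c1| := abs_nonneg _
    have h4 : (1 - 3 * ε) * s * c1 ≤ s * |c1| := by
      calc (1 - 3 * ε) * s * c1 ≤ (1 - 3 * ε) * s * |c1| :=
            mul_le_mul_of_nonneg_left h2 (by positivity)
        _ ≤ 1 * s * |c1| := by
            apply mul_le_mul_of_nonneg_right _ h3
            apply mul_le_mul_of_nonneg_right _ hspos.le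
            linarith
        _ = s * |c1| := by ring
    nlinarith
  have h2 : s * |c1| ≤ ε / 2 * (s * Real.log s) := by
    have h3 : |c1| ≤ ε / 2 * Real.log s := by
      have h4 : |c1| = ε / 2 * (2 / ε * |c1|) := by field_simp
      rw [h4]
      exact mul_le_mul_of_nonneg_left hb (by positivity)
    calc s * |c1| ≤ s * (ε / 2 * Real.log s) := mul_le_mul_of_nonneg_left h3 hspos.le
      _ = _ := by ring
  have h3 : Real.log M ≤ ε / 2 * (s * Real.log s) := by
    have h4 : |Real.log M| = ε / 2 * (2 / ε * |Real.log M|) := by field_simp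
    calc Real.log M ≤ |Real.log M| := le_abs_self _
      _ = ε / 2 * (2 / ε * |Real.log M|) := h4
      _ ≤ ε / 2 * s := mul_le_mul_of_nonneg_left hsc (by positivity)
      _ ≤ ε / 2 * (s * Real.log s) := by
          apply mul_le_mul_of_nonneg_left _ (by positivity)
          nlinarith
  nlinarith

/-- The lower bound `N(T) ≥ c T log T`. -/
def CountLower (c T0 : ℝ) : Prop :=
  ∀ T : ℝ, T0 ≤ T → c * (T * Real.log T) ≤ zeroCount T

/-- The number of `n ≤ N` with `δ_n > s`. -/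
noncomputable def largeGapCount (N : ℕ) (s : ℝ) : ℕ :=
  {n ∈ Finset.Icc 1 N | s < gap n}.card

/-- `N ≫ γ_N log γ_N`. -/
lemma ordinate_mul_log_le {c T0 : ℝ} (hc : 0 < c) (h : CountLower c T0) {N : ℕ} (hN : 1 ≤ N)
    (h4 : 4 ≤ ordinate N) (hT : 2 * T0 ≤ ordinate N) :
    ordinate N * Real.log (ordinate N) ≤ 4 / c * N := by
  set g := ordinate N with hg
  have h1 := h (g / 2) (by linarith)
  have h2 : zeroCount (g / 2) < N := by
    by_contra hcon
    push Not at hcon
    have := (le_zeroCount_iff (zeroCount_unbounded N) hN (T := g / 2)).mp hcon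
    linarith
  have h3 : (zeroCount (g / 2) : ℝ) ≤ N := by exact_mod_cast h2.le
  have h5 : Real.log g / 2 ≤ Real.log (g / 2) := by
    rw [Real.log_div (by linarith) (by norm_num)]
    have h6 : Real.log 4 ≤ Real.log g := Real.log_le_log (by norm_num) h4
    have h7 : Real.log 4 = 2 * Real.log 2 := by
      rw [show (4:ℝ) = 2 ^ 2 by norm_num, Real.log_pow]; norm_num
    linarith
  have h6 : c * (g / 2 * (Real.log g / 2)) ≤ N := by
    refine le_trans ?_ (h1.trans h3)
    apply mul_le_mul_of_nonneg_left _ hc.le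
    exact mul_le_mul_of_nonneg_left h5 (by linarith)
  rw [div_mul_eq_mul_div, le_div_iff₀ hc]
  linarith

theorem tail_of_voidBound {ε C : ℝ} {k0 : ℕ} {T0 : ℝ} (hε : 0 < ε) (hε1 : ε < 1 / 4)
    (hC : 0 < C) (hV : VoidBound ε C k0 T0) {c T0' : ℝ} (hc : 0 < c) (hL : CountLower c T0') :
    ∃ s0 : ℝ, 1 ≤ s0 ∧ ∀ s : ℝ, s0 ≤ s → ∀ N : ℕ,
      (largeGapCount N s : ℝ) ≤ N * Real.exp (-(1 - 4 * ε) * (s * Real.log s)) := by
  obtain ⟨k1, hk1, T1, hT1, hblock⟩ := block_bound hε hC.le hV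
  obtain ⟨T2, hempty⟩ := block_empty hε hC.le hV
  obtain ⟨s1, hs1, hfinal⟩ := final_ineq hε hε1 hC (M := 8 / (ε * c)) (by positivity)
  set T3 : ℝ := max (max T1 T2) (max 4 (2 * T0')) with hT3
  have hT13 : T1 ≤ T3 := (le_max_left _ _).trans (le_max_left _ _)
  have hT23 : T2 ≤ T3 := (le_max_right _ _).trans (le_max_left _ _)
  have hT43 : 4 ≤ T3 := (le_max_left _ _).trans (le_max_right _ _)
  have hT03 : 2 * T0' ≤ T3 := (le_max_right _ _).trans (le_max_right _ _)
  have hT3pos : 0 < T3 := by linarith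
  -- bounded gaps at small height
  obtain ⟨D, hD⟩ : ∃ D : ℝ, ∀ n : ℕ, 1 ≤ n → ordinate n < T3 → gap n ≤ D := by
    have hfin : (gap '' {n : ℕ | n ≤ zeroCount T3}).Finite := (Set.finite_le_nat _).image _
    obtain ⟨D, hD⟩ := hfin.bddAbove
    refine ⟨D, fun n hn hlt => hD ⟨n, ?_, rfl⟩⟩
    exact (le_zeroCount_iff (zeroCount_unbounded n) hn).mpr hlt.le
  refine ⟨max s1 (max D ((1 + 3 * ε) * (k1 + 1))), le_trans hs1 (le_max_left _ _),
    fun s hs N => ?_⟩
  have hss1 : s1 ≤ s := (le_max_left _ _).trans hs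
  have hsD : D ≤ s := ((le_max_left _ _).trans (le_max_right _ _)).trans hs
  have hsk : (1 + 3 * ε) * (k1 + 1) ≤ s := ((le_max_right _ _).trans (le_max_right _ _)).trans hs
  have hspos : 0 < s := by linarith
  set k := ⌊s / (1 + 3 * ε)⌋₊ with hk
  have hkle : (1 + 3 * ε) * k ≤ s := by
    have := Nat.floor_le (show 0 ≤ s / (1 + 3 * ε) by positivity)
    rw [← hk, le_div_iff₀ (by positivity)] at this
    linarith
  have hk1k : k1 ≤ k := by
    apply Nat.le_floor
    rw [le_div_iff₀ (by positivity)]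
    nlinarith
  have hkpos : (0:ℝ) < k := by exact_mod_cast (by omega : 0 < k)
  set B := {n ∈ Finset.Icc 1 N | s < gap n} with hB
  have hmemB : ∀ n, n ∈ B ↔ (1 ≤ n ∧ n ≤ N) ∧ s < gap n := by
    intro n; rw [hB, Finset.mem_filter, Finset.mem_Icc]
  have hBT3 : ∀ n ∈ B, T3 ≤ ordinate n := by
    intro n hn
    by_contra hcon
    push Not at hcon
    rw [hmemB] at hn
    have := hD n hn.1.1 hcon
    linarith [hn.2]
  change (B.card : ℝ) ≤ _
  rcases B.eq_empty_or_nonempty with hemp | ⟨n0, hn0⟩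
  · rw [hemp, Finset.card_empty, Nat.cast_zero]; positivity
  have hn0' := (hmemB n0).mp hn0
  have hN1 : 1 ≤ N := by omega
  set g := ordinate N with hg
  have hgmono : ∀ n ∈ B, ordinate n ≤ g := by
    intro n hn
    have := (hmemB n).mp hn
    exact ordinate_mono (zeroCount_unbounded N) this.1.1 this.1.2
  have hgT3 : T3 ≤ g := (hBT3 n0 hn0).trans (hgmono n0 hn0)
  have hgpos : 0 < g := by linarith
  -- the number of dyadic blocks
  obtain ⟨J0, hJ0⟩ : ∃ J : ℕ, g < T3 * 2 ^ J := by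
    obtain ⟨J, hJ⟩ := pow_unbounded_of_one_lt (g / T3) (show (1:ℝ) < 2 by norm_num)
    refine ⟨J, ?_⟩
    rw [div_lt_iff₀ hT3pos] at hJ
    linarith
  classical
  have hexJ : ∃ J : ℕ, g < T3 * 2 ^ J := ⟨J0, hJ0⟩
  set J := Nat.find hexJ with hJ
  have hJspec : g < T3 * 2 ^ J := Nat.find_spec hexJ
  have hJmin : ∀ j < J, T3 * 2 ^ j ≤ g := fun j hj => not_lt.mp (Nat.find_min hexJ hj)
  set Bj : ℕ → Finset ℕ := fun j =>
    B.filter (fun n => T3 * 2 ^ j ≤ ordinate n ∧ ordinate n < 2 * (T3 * 2 ^ j)) with hBj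
  have hcover : B ⊆ (Finset.range J).biUnion Bj := by
    intro n hn
    have h1 := hBT3 n hn
    have h2 := hgmono n hn
    have hex : ∃ j : ℕ, ordinate n < T3 * 2 ^ j := ⟨J, lt_of_le_of_lt h2 hJspec⟩
    set i := Nat.find hex with hi
    have hi1 : ordinate n < T3 * 2 ^ i := Nat.find_spec hex
    have hi0 : i ≠ 0 := by
      intro h0
      rw [h0] at hi1
      simp at hi1
      linarith
    obtain ⟨j, hj⟩ := Nat.exists_eq_succ_of_ne_zero hi0
    have hj1 : T3 * 2 ^ j ≤ ordinate n := not_lt.mp (Nat.find_min hex (by omega))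
    have hiJ : i ≤ J := Nat.find_min' hex (lt_of_le_of_lt h2 hJspec)
    rw [Finset.mem_biUnion]
    refine ⟨j, Finset.mem_range.mpr (by omega), ?_⟩
    rw [hBj, Finset.mem_filter]
    refine ⟨hn, hj1, ?_⟩
    rw [hj, Nat.succ_eq_add_one, pow_succ] at hi1
    linarith
  have hlogg : 0 ≤ Real.log g := Real.log_nonneg (by linarith)
  -- each block
  have hBjcard : ∀ j ∈ Finset.range J, ((Bj j).card : ℝ) ≤
      1 / ε * (T3 * 2 ^ j * Real.log g) * (C / k) ^ k := by
    intro j hj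
    rw [Finset.mem_range] at hj
    have hTj := hJmin j hj
    have hTge : T3 ≤ T3 * 2 ^ j := by
      have : (1:ℝ) ≤ 2 ^ j := one_le_pow₀ (by norm_num)
      nlinarith
    rcases le_or_gt ((2:ℝ) ^ k) (T3 * 2 ^ j) with h2k | h2k
    · have h1 := hblock (T3 * 2 ^ j) (hT13.trans hTge) k hk1k h2k (Bj j) (by
        intro n hn
        rw [hBj, Finset.mem_filter, hmemB] at hn
        exact ⟨hn.1.1.1, hn.2.1, hn.2.2, lt_of_le_of_lt hkle hn.1.2⟩)
      refine h1.trans ?_
      apply mul_le_mul_of_nonneg_right _ (by positivity)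
      apply mul_le_mul_of_nonneg_left _ (by positivity)
      apply mul_le_mul_of_nonneg_left _ (by positivity)
      exact Real.log_le_log (by positivity) hTj
    · have h1 : Bj j = ∅ := by
        rw [Finset.eq_empty_iff_forall_notMem]
        intro n hn
        rw [hBj, Finset.mem_filter, hmemB] at hn
        have h2 := hempty (T3 * 2 ^ j) (hT23.trans hTge) k h2k n hn.1.1.1 hn.2.1 hn.2.2
        linarith [hn.1.2]
      rw [h1, Finset.card_empty, Nat.cast_zero]
      positivity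
  have hcard : (B.card : ℝ) ≤ ∑ j ∈ Finset.range J, ((Bj j).card : ℝ) := by
    calc (B.card : ℝ) ≤ (((Finset.range J).biUnion Bj).card : ℝ) := by
          exact_mod_cast Finset.card_le_card hcover
      _ ≤ ((∑ j ∈ Finset.range J, (Bj j).card : ℕ) : ℝ) := by
          exact_mod_cast Finset.card_biUnion_le
      _ = _ := by push_cast; rfl
  have hgeom : ∑ j ∈ Finset.range J, (T3 * 2 ^ j) ≤ 2 * g := by
    rw [← Finset.mul_sum, geom_sum_eq (by norm_num)]
    rcases Nat.eq_zero_or_pos J with h0 | h0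
    · rw [h0]; simp; linarith
    · have h1 := hJmin (J - 1) (by omega)
      have h2 : (2:ℝ) ^ J = 2 * 2 ^ (J - 1) := by
        rw [← pow_succ']; congr 1; omega
      rw [h2]
      nlinarith
  have hsum : (B.card : ℝ) ≤ 1 / ε * (2 * g * Real.log g) * (C / k) ^ k := by
    refine hcard.trans ((Finset.sum_le_sum hBjcard).trans ?_)
    have : ∑ j ∈ Finset.range J, 1 / ε * (T3 * 2 ^ j * Real.log g) * (C / k) ^ k =
        (1 / ε * Real.log g * (C / k) ^ k) * ∑ j ∈ Finset.range J, (T3 * 2 ^ j) := by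
      rw [Finset.mul_sum]
      exact Finset.sum_congr rfl fun j _ => by ring
    rw [this]
    calc (1 / ε * Real.log g * (C / k) ^ k) * ∑ j ∈ Finset.range J, (T3 * 2 ^ j)
        ≤ (1 / ε * Real.log g * (C / k) ^ k) * (2 * g) :=
          mul_le_mul_of_nonneg_left hgeom (by positivity)
      _ = _ := by ring
  have hNg := ordinate_mul_log_le hc hL hN1 (by linarith : 4 ≤ ordinate N) (by linarith)
  rw [← hg] at hNg
  calc (B.card : ℝ) ≤ 1 / ε * (2 * g * Real.log g) * (C / k) ^ k := hsum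
    _ = 2 / ε * (g * Real.log g) * (C / k) ^ k := by ring
    _ ≤ 2 / ε * (4 / c * N) * (C / k) ^ k := by
        apply mul_le_mul_of_nonneg_right _ (by positivity)
        exact mul_le_mul_of_nonneg_left hNg (by positivity)
    _ = N * (8 / (ε * c) * (C / k) ^ k) := by ring
    _ ≤ _ := mul_le_mul_of_nonneg_left (hfinal s hss1) (Nat.cast_nonneg _)

end Pool.Agent.ZetaGaps
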