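import Pool.Agent.ZetaGaps.Near

/-!
# The measure of bad centres
-/

open Complex Filter Topology MeasureTheory
open Pool.Agent.Hadamard (ntz mult)

namespace Pool.Agent.ZetaGaps

/-- `∫_T^{2T} (N(t+r) - N(t-r)) dt ≤ 2 r N(3T)`. -/
lemma integral_window_le {T r : ℝ} (hr : 0 < r) (hrT : r ≤ T) :
    ∫ t in T..(2 * T), ((zeroCount (t + r) : ℝ) - zeroCount (t - r)) ≤
      2 * r * zeroCount (3 * T) := by
  set f : ℝ → ℝ := fun t => (zeroCount t : ℝ) with hf
  have hmono : Monotone f := fun a b h => by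
    simp only [hf]; exact_mod_cast zeroCount_mono h
  have hint : ∀ a b : ℝ, IntervalIntegrable f volume a b := fun a b => hmono.intervalIntegrable
  have hint1 : ∀ a b d : ℝ, IntervalIntegrable (fun t => f (t + d)) volume a b := by
    intro a b d
    have : Monotone (fun t => f (t + d)) := fun x y h => hmono (by linarith)
    exact this.intervalIntegrable
  have hint2 : ∀ a b d : ℝ, IntervalIntegrable (fun t => f (t - d)) volume a b := by
    intro a b d
    have : Monotone (fun t => f (t - d)) := fun x y h => hmono (by linarith)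
    exact this.intervalIntegrable
  have e1 : ∫ t in T..(2 * T), (f (t + r) - f (t - r)) =
      (∫ t in T..(2 * T), f (t + r)) - ∫ t in T..(2 * T), f (t - r) :=
    intervalIntegral.integral_sub (hint1 _ _ _) (hint2 _ _ _)
  rw [e1, intervalIntegral.integral_comp_add_right, intervalIntegral.integral_comp_sub_right]
  -- `∫_{T+r}^{2T+r} - ∫_{T-r}^{2T-r} = ∫_{2T-r}^{2T+r} - ∫_{T-r}^{T+r}`
  have e2 : (∫ t in (T + r)..(2 * T + r), f t) - ∫ t in (T - r)..(2 * T - r), f t =
      (∫ t in (2 * T - r)..(2 * T + r), f t) - ∫ t in (T - r)..(T + r), f t := by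
    have h1 := intervalIntegral.integral_add_adjacent_intervals (hint (T - r) (T + r))
      (hint (T + r) (2 * T + r))
    have h2 := intervalIntegral.integral_add_adjacent_intervals (hint (T - r) (2 * T - r))
      (hint (2 * T - r) (2 * T + r))
    linarith
  rw [e2]
  have h3 : 0 ≤ ∫ t in (T - r)..(T + r), f t := by
    apply intervalIntegral.integral_nonneg (by linarith)
    intro t _
    simp only [hf]; positivity
  have h4 : ∫ t in (2 * T - r)..(2 * T + r), f t ≤ ∫ t in (2 * T - r)..(2 * T + r), f (3 * T) := by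
    apply intervalIntegral.integral_mono_on (by linarith) (hint _ _) (by simp)
    intro t ht
    exact hmono (by linarith [ht.2])
  rw [intervalIntegral.integral_const, smul_eq_mul] at h4
  have e3 : (2 * T + r - (2 * T - r)) * f (3 * T) = 2 * r * zeroCount (3 * T) := by
    simp only [hf]; ring
  linarith

/-- Few centres have many zeros in their window. -/
lemma volume_many_le {T r : ℝ} (hr : 0 < r) (hrT : r ≤ T) {K0 : ℕ} (hK : 1 ≤ K0) :
    volume {t | t ∈ Set.Icc T (2 * T) ∧ zeroCount (t - r) + K0 < zeroCount (t + r)} ≤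
      ENNReal.ofReal (2 * r * zeroCount (3 * T) / K0) := by
  have hKpos : (0:ℝ) < K0 := by exact_mod_cast hK
  set g : ℝ → ℝ := fun t => (zeroCount (t + r) : ℝ) - zeroCount (t - r) with hg
  have hg0 : ∀ t, 0 ≤ g t := by
    intro t
    have : zeroCount (t - r) ≤ zeroCount (t + r) := zeroCount_mono (by linarith)
    have : (zeroCount (t - r) : ℝ) ≤ zeroCount (t + r) := by exact_mod_cast this
    simp only [hg]; linarith
  have hm1 : Measurable (fun t : ℝ => (zeroCount (t + r) : ℝ)) := by
    have : Monotone (fun t : ℝ => (zeroCount (t + r) : ℝ)) := fun a b h => by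
      simp only; exact_mod_cast zeroCount_mono (by linarith)
    exact this.measurable
  have hm2 : Measurable (fun t : ℝ => (zeroCount (t - r) : ℝ)) := by
    have : Monotone (fun t : ℝ => (zeroCount (t - r) : ℝ)) := fun a b h => by
      simp only; exact_mod_cast zeroCount_mono (by linarith)
    exact this.measurable
  have hmg : Measurable g := hm1.sub hm2
  have hsub : {t | t ∈ Set.Icc T (2 * T) ∧ zeroCount (t - r) + K0 < zeroCount (t + r)} ⊆
      {t | (K0:ENNReal) ≤ ENNReal.ofReal (g t)} ∩ Set.Icc T (2 * T) := by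
    rintro t ⟨ht, h⟩
    refine ⟨?_, ht⟩
    simp only [Set.mem_ofPred_eq]
    rw [← ENNReal.ofReal_natCast]
    apply ENNReal.ofReal_le_ofReal
    have : (zeroCount (t - r) : ℝ) + K0 < zeroCount (t + r) := by exact_mod_cast h
    simp only [hg]; linarith
  have hint : IntegrableOn g (Set.Icc T (2 * T)) := by
    have hmono1 : Monotone (fun t : ℝ => (zeroCount (t + r) : ℝ)) := fun a b h => by
      simp only; exact_mod_cast zeroCount_mono (by linarith)
    have hmono2 : Monotone (fun t : ℝ => (zeroCount (t - r) : ℝ)) := fun a b h => by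
      simp only; exact_mod_cast zeroCount_mono (by linarith)
    have i1 := (hmono1.intervalIntegrable (μ := volume) (a := T) (b := 2 * T))
    have i2 := (hmono2.intervalIntegrable (μ := volume) (a := T) (b := 2 * T))
    have i3 := i1.sub i2
    rw [intervalIntegrable_iff_integrableOn_Icc_of_le (by linarith)] at i3
    exact i3
  have h1 : ∫⁻ t in Set.Icc T (2 * T), ENNReal.ofReal (g t) ≤
      ENNReal.ofReal (2 * r * zeroCount (3 * T)) := by
    rw [← ofReal_integral_eq_lintegral_ofReal hint (Filter.Eventually.of_forall hg0)]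
    apply ENNReal.ofReal_le_ofReal
    rw [integral_Icc_eq_integral_Ioc, ← intervalIntegral.integral_of_le (by linarith)]
    exact integral_window_le hr hrT
  have h2 := mul_meas_ge_le_lintegral₀ (μ := volume.restrict (Set.Icc T (2 * T)))
    (f := fun t => ENNReal.ofReal (g t)) (hmg.ennreal_ofReal.aemeasurable) (K0 : ENNReal)
  rw [Measure.restrict_apply' measurableSet_Icc] at h2
  have h3 : (K0 : ENNReal) * volume ({t | (K0:ENNReal) ≤ ENNReal.ofReal (g t)} ∩
      Set.Icc T (2 * T)) ≤ ENNReal.ofReal (2 * r * zeroCount (3 * T)) := h2.trans h1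
  calc volume {t | t ∈ Set.Icc T (2 * T) ∧ zeroCount (t - r) + K0 < zeroCount (t + r)}
      ≤ volume ({t | (K0:ENNReal) ≤ ENNReal.ofReal (g t)} ∩ Set.Icc T (2 * T)) :=
        measure_mono hsub
    _ ≤ ENNReal.ofReal (2 * r * zeroCount (3 * T)) / K0 := by
        rw [ENNReal.le_div_iff_mul_le (Or.inl (by simp; omega)) (Or.inl (by simp)), mul_comm]
        exact h3
    _ = ENNReal.ofReal (2 * r * zeroCount (3 * T) / K0) := by
        rw [ENNReal.ofReal_div_of_pos hKpos, ENNReal.ofReal_natCast]

/-- Few centres are close to a far gap. -/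
lemma volume_far_le {c η T r : ℝ} (hr : 0 < r) (A : Finset ℕ)
    (hA : ∀ i : ℕ, 1 ≤ i → ¬ NearL c η i → T - r < ordinate i → ordinate i < 2 * T + r → i ∈ A) :
    volume {t | t ∈ Set.Icc T (2 * T) ∧
      ¬ ∀ i : ℕ, 1 ≤ i → |ordinate i - t| < r → NearL c η i} ≤
      ENNReal.ofReal (A.card * (2 * r)) := by
  have hsub : {t | t ∈ Set.Icc T (2 * T) ∧
      ¬ ∀ i : ℕ, 1 ≤ i → |ordinate i - t| < r → NearL c η i} ⊆
      ⋃ i ∈ A, Set.Icc (ordinate i - r) (ordinate i + r) := by
    rintro t ⟨ht, h⟩
    push Not at h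
    obtain ⟨i, hi, h1, h2⟩ := h
    rw [abs_lt] at h1
    simp only [Set.mem_iUnion, exists_prop]
    refine ⟨i, hA i hi h2 (by linarith [ht.1, h1.1]) (by linarith [ht.2, h1.2]), ?_, ?_⟩
    · linarith [h1.2]
    · linarith [h1.1]
  refine (measure_mono hsub).trans ((measure_biUnion_finset_le _ _).trans ?_)
  have h1 : ∀ i ∈ A, volume (Set.Icc (ordinate i - r) (ordinate i + r)) ≤
      ENNReal.ofReal (2 * r) := by
    intro i _
    rw [Real.volume_Icc]
    apply ENNReal.ofReal_le_ofReal; linarith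
  refine (Finset.sum_le_sum h1).trans ?_
  rw [Finset.sum_const, nsmul_eq_mul, ENNReal.ofReal_mul (Nat.cast_nonneg _),
    ENNReal.ofReal_natCast]

/-- The measure of the set of bad centres. -/
lemma volume_bad_le {c η T r : ℝ} (hr : 0 < r) (hrT : r ≤ T) {K0 : ℕ} (hK : 1 ≤ K0)
    (A : Finset ℕ)
    (hA : ∀ i : ℕ, 1 ≤ i → ¬ NearL c η i → T - r < ordinate i → ordinate i < 2 * T + r → i ∈ A) :
    volume {t | t ∈ Set.Icc T (2 * T) ∧ ¬ Good c η r K0 t} ≤
      ENNReal.ofReal (A.card * (2 * r) + 2 * r * zeroCount (3 * T) / K0) := by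
  have hsub : {t | t ∈ Set.Icc T (2 * T) ∧ ¬ Good c η r K0 t} ⊆
      {t | t ∈ Set.Icc T (2 * T) ∧ ¬ ∀ i : ℕ, 1 ≤ i → |ordinate i - t| < r → NearL c η i} ∪
      {t | t ∈ Set.Icc T (2 * T) ∧ zeroCount (t - r) + K0 < zeroCount (t + r)} := by
    rintro t ⟨ht, h⟩
    by_cases h1 : ∀ i : ℕ, 1 ≤ i → |ordinate i - t| < r → NearL c η i
    · right
      refine ⟨ht, ?_⟩
      by_contra h2
      exact h ⟨h1, not_lt.mp h2⟩
    · left; exact ⟨ht, h1⟩
  refine (measure_mono hsub).trans ((measure_union_le _ _).trans ?_)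
  rw [ENNReal.ofReal_add (by positivity) (by positivity)]
  exact add_le_add (volume_far_le hr A hA) (volume_many_le hr hrT hK)

end Pool.Agent.ZetaGaps
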