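import Pool.Agent.ZetaGaps.Void

/-!
# Dyadic blocks
-/

open Complex Filter Topology MeasureTheory
open Pool.Agent.Hadamard (ntz mult)

namespace Pool.Agent.ZetaGaps

lemma pow_le_quarter {C : ℝ} (hC : 0 ≤ C) {k : ℕ} (hk1 : 1 ≤ k) (hk : 4 * C ≤ k) :
    (C / k) ^ k ≤ 1 / 4 := by
  have hk0 : (0:ℝ) < k := by exact_mod_cast hk1
  have h1 : C / k ≤ 1 / 4 := by rw [div_le_div_iff₀ hk0 (by norm_num)]; linarith
  have h2 : 0 ≤ C / k := by positivity
  calc (C / k) ^ k ≤ (1 / 4 : ℝ) ^ k := pow_le_pow_left₀ h2 h1 k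
    _ ≤ (1 / 4 : ℝ) ^ 1 := pow_le_pow_of_le_one (by norm_num) (by norm_num) hk1
    _ = 1 / 4 := by norm_num

/-- The count of large normalised gaps in a dyadic block, for `2^k ≤ T`. -/
lemma block_bound {ε C : ℝ} {k0 : ℕ} {T0 : ℝ} (hε : 0 < ε) (hC : 0 ≤ C)
    (h : VoidBound ε C k0 T0) :
    ∃ k1 : ℕ, 1 ≤ k1 ∧ ∃ T1 : ℝ, 3 ≤ T1 ∧ ∀ T : ℝ, T1 ≤ T → ∀ k : ℕ, k1 ≤ k → (2:ℝ) ^ k ≤ T →
      ∀ A : Finset ℕ, (∀ n ∈ A, 1 ≤ n ∧ T ≤ ordinate n ∧ ordinate n < 2 * T ∧
        (1 + 3 * ε) * k < gap n) →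
      (A.card : ℝ) ≤ 1 / ε * (T * Real.log T) * (C / k) ^ k := by
  have hlog2 : 0 < Real.log 2 := Real.log_pos (by norm_num)
  have hpi := Real.pi_pos
  set T1 : ℝ := max T0 (max 3 (max (2 * (Real.pi * (1 + ε) / Real.log 2))
    (Real.exp ((1 + 2 * ε) * (Real.log 4 + 1) / ε)))) with hT1
  refine ⟨max k0 (⌈4 * C⌉₊ + 1), le_trans (by omega) (le_max_right _ _), T1,
    (le_max_left _ _).trans (le_max_right _ _), fun T hT k hk h2k A hA => ?_⟩
  have hk0 : k0 ≤ k := (le_max_left _ _).trans hk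
  have hk2 : ⌈4 * C⌉₊ + 1 ≤ k := (le_max_right _ _).trans hk
  have hk1 : 1 ≤ k := by omega
  have hk4 : 4 * C ≤ k := (Nat.le_ceil _).trans (by exact_mod_cast (by omega : ⌈4 * C⌉₊ ≤ k))
  have hkpos : (0:ℝ) < k := by exact_mod_cast hk1
  have hTT0 : T0 ≤ T := (le_max_left _ _).trans hT
  have hT3 : 3 ≤ T := ((le_max_left _ _).trans (le_max_right _ _)).trans hT
  have hTr : 2 * (Real.pi * (1 + ε) / Real.log 2) ≤ T :=
    ((le_max_left _ _).trans ((le_max_right _ _).trans (le_max_right _ _))).trans hT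
  have hTe : Real.exp ((1 + 2 * ε) * (Real.log 4 + 1) / ε) ≤ T :=
    ((le_max_right _ _).trans ((le_max_right _ _).trans (le_max_right _ _))).trans hT
  have hTpos : 0 < T := by linarith
  have hL : 0 < Real.log T := Real.log_pos (by linarith)
  have hLe : (1 + 2 * ε) * (Real.log 4 + 1) ≤ ε * Real.log T := by
    have h1 := Real.log_le_log (Real.exp_pos _) hTe
    rw [Real.log_exp, div_le_iff₀ hε] at h1
    linarith
  set r := Real.pi * (1 + ε) * k / Real.log T with hr
  have hrpos : 0 < r := by positivity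
  have hkl : k * Real.log 2 ≤ Real.log T := by
    have h1 := Real.log_le_log (by positivity) h2k
    rwa [Real.log_pow] at h1
  have hr2 : 2 * r ≤ T := by
    refine le_trans ?_ hTr
    have : r ≤ Real.pi * (1 + ε) / Real.log 2 := by
      rw [hr, div_le_div_iff₀ hL hlog2]
      calc Real.pi * (1 + ε) * k * Real.log 2 = Real.pi * (1 + ε) * (k * Real.log 2) := by ring
        _ ≤ Real.pi * (1 + ε) * Real.log T := mul_le_mul_of_nonneg_left hkl (by positivity)
    linarith
  have hvol := h.four hε hC hTT0 (by linarith) hk0 h2k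
  rw [← hr] at hvol
  have hq := pow_le_quarter hC hk1 hk4
  have hq0 : 0 ≤ (C / k) ^ k := by positivity
  -- the next ordinate is below `4T`
  have hnext : ∀ n ∈ A, ordinate (n + 1) ≤ 4 * T := by
    intro n hn
    obtain ⟨h1, h2, h3, h4⟩ := hA n hn
    by_contra hcon
    push Not at hcon
    have hsub : Set.Icc (ordinate n + r) (4 * T - r) ⊆ {t | t ∈ Set.Icc T (4 * T) ∧ Void r t} := by
      intro t ht
      exact ⟨⟨by linarith [ht.1], by linarith [ht.2]⟩, void_of_between h1 ht.1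
        (by linarith [ht.2])⟩
    have h5 := (measure_mono hsub).trans hvol
    rw [Real.volume_Icc] at h5
    rw [ENNReal.ofReal_le_ofReal_iff (by positivity)] at h5
    have h6 : 3 * T * (C / k) ^ k ≤ 3 * T * (1 / 4) :=
      mul_le_mul_of_nonneg_left hq (by positivity)
    linarith
  -- geometric size of the gaps
  set η := 2 * Real.pi * ε * k / Real.log T with hη
  have hηpos : 0 < η := by positivity
  have hgeo : ∀ n ∈ A, 1 ≤ n ∧ T ≤ ordinate n ∧ ordinate (n + 1) ≤ 4 * T ∧
      2 * r + η ≤ ordinate (n + 1) - ordinate n := by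
    intro n hn
    obtain ⟨h1, h2, h3, h4⟩ := hA n hn
    refine ⟨h1, h2, hnext n hn, ?_⟩
    have h5 := gap_le h1
    have hmono := ordinate_mono (zeroCount_unbounded (n + 1)) h1 (by omega)
    have h6 : Real.log (ordinate (n + 1)) ≤ Real.log T + Real.log 4 := by
      rw [← Real.log_mul hTpos.ne' (by norm_num)]
      apply Real.log_le_log (by linarith)
      linarith [hnext n hn]
    have hL4 : 0 < Real.log 4 := Real.log_pos (by norm_num)
    set g := ordinate (n + 1) - ordinate n with hg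
    have hg0 : 0 ≤ g := by linarith
    have h7 : (1 + 3 * ε) * k < g * (Real.log T + Real.log 4 + 1) / (2 * Real.pi) := by
      refine h4.trans_le (h5.trans ?_)
      apply div_le_div_of_nonneg_right _ (by positivity)
      exact mul_le_mul_of_nonneg_left (by linarith) hg0
    rw [lt_div_iff₀ (by positivity)] at h7
    have h8 : 2 * r + η = (1 + 2 * ε) * k * (2 * Real.pi) / Real.log T := by
      rw [hr, hη]; ring
    rw [h8, div_le_iff₀ hL]
    have h9 : (1 + 2 * ε) * (Real.log T + Real.log 4 + 1) ≤ (1 + 3 * ε) * Real.log T := by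
      linarith
    -- g * (L + l4 + 1) > (1+3ε) k 2π, multiply
    have h10 : 0 < Real.log T + Real.log 4 + 1 := by linarith
    have h11 : (1 + 2 * ε) * k * (2 * Real.pi) * (Real.log T + Real.log 4 + 1) ≤
        g * Real.log T * (Real.log T + Real.log 4 + 1) := by
      calc (1 + 2 * ε) * k * (2 * Real.pi) * (Real.log T + Real.log 4 + 1)
          = ((1 + 2 * ε) * (Real.log T + Real.log 4 + 1)) * (k * (2 * Real.pi)) := by ring
        _ ≤ ((1 + 3 * ε) * Real.log T) * (k * (2 * Real.pi)) :=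
            mul_le_mul_of_nonneg_right h9 (by positivity)
        _ = ((1 + 3 * ε) * k * (2 * Real.pi)) * Real.log T := by ring
        _ ≤ (g * (Real.log T + Real.log 4 + 1)) * Real.log T :=
            mul_le_mul_of_nonneg_right h7.le hL.le
        _ = _ := by ring
    exact le_of_mul_le_mul_right h11 h10
  have h5 := (card_mul_le_void hrpos hηpos.le A hgeo).trans hvol
  rw [ENNReal.ofReal_le_ofReal_iff (by positivity)] at h5
  -- conclude
  have h6 : (A.card : ℝ) ≤ 3 * T * (C / k) ^ k / η := by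
    rw [le_div_iff₀ hηpos]; exact h5
  refine h6.trans ?_
  rw [hη, div_div_eq_mul_div]
  have h7 : 3 * T * (C / k) ^ k * Real.log T / (2 * Real.pi * ε * k) =
      (1 / ε * (T * Real.log T) * (C / k) ^ k) * (3 / (2 * Real.pi * k)) := by
    field_simp
  rw [h7]
  apply mul_le_of_le_one_right (by positivity)
  rw [div_le_one (by positivity)]
  have : (1:ℝ) ≤ k := by exact_mod_cast hk1
  nlinarith [Real.pi_gt_three]

end Pool.Agent.ZetaGaps
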