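import Mathlib.MeasureTheory.Integral.Bochner.Basic
import Mathlib.MeasureTheory.Integral.Bochner.Set
import Mathlib.MeasureTheory.Measure.Typeclasses.Probability
import Mathlib.Analysis.SpecialFunctions.Log.Basic

/-!
# Kolmogorov distance and means (abstract part)
-/

open MeasureTheory Finset

namespace Pool.Agent.ZetaGaps

/-- Number of grid points `j h < x`, `j < M`. -/
lemma grid_upper {x h : ℝ} (hx : 0 ≤ x) (hh : 0 < h) (M : ℕ) :
    h * (((range M).filter (fun j : ℕ => (j:ℝ) * h < x)).card : ℝ) ≤ x + h := by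
  have hsub : ((range M).filter (fun j : ℕ => (j:ℝ) * h < x)) ⊆ range (⌈x / h⌉₊) := by
    intro j hj
    rw [mem_filter] at hj
    rw [Finset.mem_range, Nat.lt_ceil, lt_div_iff₀ hh]
    exact hj.2
  have h1 := Finset.card_le_card hsub
  rw [card_range] at h1
  have h2 : ((⌈x / h⌉₊ : ℕ) : ℝ) < x / h + 1 := Nat.ceil_lt_add_one (by positivity)
  have h3 : (((range M).filter (fun j : ℕ => (j:ℝ) * h < x)).card : ℝ) ≤ x / h + 1 :=
    le_trans (by exact_mod_cast h1) h2.le
  calc h * (((range M).filter (fun j : ℕ => (j:ℝ) * h < x)).card : ℝ) ≤ h * (x / h + 1) :=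
        mul_le_mul_of_nonneg_left h3 hh.le
    _ = x + h := by field_simp

lemma grid_lower {x h : ℝ} (hh : 0 < h) (M : ℕ) :
    min x (M * h) ≤ h * (((range M).filter (fun j : ℕ => (j:ℝ) * h < x)).card : ℝ) := by
  rcases le_or_gt x 0 with hx | hx
  · exact (min_le_left _ _).trans (hx.trans (by positivity))
  have hsub : range (min M ⌈x / h⌉₊) ⊆ ((range M).filter (fun j : ℕ => (j:ℝ) * h < x)) := by
    intro j hj
    rw [Finset.mem_range, lt_min_iff] at hj
    rw [mem_filter, Finset.mem_range]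
    refine ⟨hj.1, ?_⟩
    have := Nat.lt_ceil.mp hj.2
    rwa [lt_div_iff₀ hh] at this
  have h1 := Finset.card_le_card hsub
  rw [card_range] at h1
  have h2 : ((min M ⌈x / h⌉₊ : ℕ) : ℝ) ≤ (((range M).filter (fun j : ℕ => (j:ℝ) * h < x)).card : ℝ) := by
    exact_mod_cast h1
  have h3 : min x (M * h) ≤ h * ((min M ⌈x / h⌉₊ : ℕ) : ℝ) := by
    rcases le_total M ⌈x / h⌉₊ with hM | hM
    · rw [min_eq_left hM]
      exact (min_le_right _ _).trans (by linarith [mul_comm (M:ℝ) h])
    · rw [min_eq_right hM]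
      refine (min_le_left _ _).trans ?_
      have := Nat.le_ceil (x / h)
      calc x = h * (x / h) := by field_simp
        _ ≤ h * (⌈x / h⌉₊ : ℝ) := mul_le_mul_of_nonneg_left this hh.le
  exact h3.trans (mul_le_mul_of_nonneg_left h2 hh.le)

/-- If the Kolmogorov distance is at most `κ` then the truncated mean is at most `1 + κ S`. -/
lemma kolm_core {N : ℕ} (hN : 1 ≤ N) (d : ℕ → ℝ)
    (μ : Measure ℝ) [IsProbabilityMeasure μ] (hμ0 : μ (Set.Iio 0) = 0)
    (hint : Integrable (fun x : ℝ => x) μ) (hmean : ∫ x, x ∂μ = 1) {κ S : ℝ} (hS : 0 < S)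
    (hκ : ∀ a b : ℝ, 0 ≤ a → a < b →
      |(({n ∈ Icc 1 N | a < d n ∧ d n ≤ b}).card : ℝ) / N - (μ (Set.Ioc a b)).toReal| ≤ κ) :
    (∑ n ∈ Icc 1 N, min (d n) S) ≤ N * (1 + κ * S) := by
  have hNpos : (0:ℝ) < N := by exact_mod_cast hN
  -- tails
  have htail : ∀ x : ℝ, 0 ≤ x → (({n ∈ Icc 1 N | x < d n}).card : ℝ) / N ≤
      (μ (Set.Ioi x)).toReal + κ := by
    intro x hx
    obtain ⟨b, hb⟩ : ∃ b : ℝ, x < b ∧ ∀ n ∈ Icc 1 N, d n ≤ b := by
      obtain ⟨b, hb⟩ := ((Icc 1 N).image d).bddAbove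
      refine ⟨max b (x + 1), lt_of_lt_of_le (by linarith) (le_max_right _ _), fun n hn => ?_⟩
      exact (hb (by exact_mod_cast mem_image_of_mem d hn)).trans (le_max_left _ _)
    have h1 := hκ x b hx hb.1
    have h2 : ({n ∈ Icc 1 N | x < d n ∧ d n ≤ b}) = ({n ∈ Icc 1 N | x < d n}) := by
      apply filter_congr
      intro n hn
      simp [hb.2 n hn]
    rw [h2] at h1
    have h3 : (μ (Set.Ioc x b)).toReal ≤ (μ (Set.Ioi x)).toReal :=
      ENNReal.toReal_mono (measure_ne_top _ _) (measure_mono Set.Ioc_subset_Ioi_self)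
    have h4 := (abs_le.mp h1).2
    linarith
  apply le_of_forall_pos_le_add
  intro e he
  obtain ⟨M, hM⟩ := exists_nat_gt (N * S / e)
  have hMpos : (0:ℝ) < M := lt_of_le_of_lt (by positivity) hM
  set h := S / M with hh
  have hhpos : 0 < h := by positivity
  have hMh : M * h = S := by rw [hh]; field_simp
  have hNh : N * h ≤ e := by
    rw [hh]
    rw [div_lt_iff₀ he] at hM
    rw [← mul_div_assoc, div_le_iff₀ hMpos]
    linarith
  -- the empirical side
  have h1 : (∑ n ∈ Icc 1 N, min (d n) S) ≤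
      ∑ n ∈ Icc 1 N, h * (((range M).filter (fun j : ℕ => (j:ℝ) * h < d n)).card : ℝ) := by
    apply sum_le_sum
    intro n _
    have := grid_lower (x := d n) hhpos M
    rwa [hMh] at this
  have h2 : ∑ n ∈ Icc 1 N, h * (((range M).filter (fun j : ℕ => (j:ℝ) * h < d n)).card : ℝ) =
      ∑ j ∈ range M, h * (({n ∈ Icc 1 N | (j:ℝ) * h < d n}).card : ℝ) := by
    simp_rw [card_filter]
    push_cast
    simp_rw [mul_sum]
    exact sum_comm
  have h3 : ∑ j ∈ range M, h * (({n ∈ Icc 1 N | (j:ℝ) * h < d n}).card : ℝ) ≤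
      ∑ j ∈ range M, h * (N * ((μ (Set.Ioi ((j:ℝ) * h))).toReal + κ)) := by
    apply sum_le_sum
    intro j _
    apply mul_le_mul_of_nonneg_left _ hhpos.le
    have := htail ((j:ℝ) * h) (by positivity)
    rw [div_le_iff₀ hNpos] at this
    linarith
  -- the `μ` side
  have h4 : ∑ j ∈ range M, h * (μ (Set.Ioi ((j:ℝ) * h))).toReal ≤ 1 + h := by
    have h5 : ∀ j : ℕ, (μ (Set.Ioi ((j:ℝ) * h))).toReal =
        ∫ x, (Set.Ioi ((j:ℝ) * h)).indicator (fun _ => (1:ℝ)) x ∂μ := by
      intro j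
      rw [integral_indicator measurableSet_Ioi]
      simp [Measure.real]
    have hi : ∀ j ∈ range M, Integrable (fun x => h *
        (Set.Ioi ((j:ℝ) * h)).indicator (fun _ => (1:ℝ)) x) μ := by
      intro j _
      exact ((integrable_const (1:ℝ)).indicator measurableSet_Ioi).const_mul h
    calc ∑ j ∈ range M, h * (μ (Set.Ioi ((j:ℝ) * h))).toReal
        = ∑ j ∈ range M, ∫ x, h * (Set.Ioi ((j:ℝ) * h)).indicator (fun _ => (1:ℝ)) x ∂μ := by
          apply sum_congr rfl
          intro j _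
          rw [integral_const_mul, h5]
      _ = ∫ x, ∑ j ∈ range M, h * (Set.Ioi ((j:ℝ) * h)).indicator (fun _ => (1:ℝ)) x ∂μ := by
          rw [integral_finsetSum _ hi]
      _ ≤ ∫ x, (x + h) ∂μ := by
          apply integral_mono_ae (integrable_finsetSum _ hi)
            (hint.add (integrable_const h))
          have hae : ∀ᵐ x ∂μ, 0 ≤ x := by
            rw [ae_iff]
            have : {x : ℝ | ¬ 0 ≤ x} = Set.Iio 0 := by ext x; simp
            rw [this]; exact hμ0
          filter_upwards [hae] with x hx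
          have h6 := grid_upper hx hhpos M
          rw [card_filter] at h6
          push_cast at h6
          rw [mul_sum] at h6
          refine le_trans (le_of_eq ?_) h6
          apply sum_congr rfl
          intro j _
          rw [Set.indicator_apply]
          simp only [Set.mem_Ioi]
      _ = 1 + h := by
          rw [integral_add hint (integrable_const h), hmean]
          simp
  have h7 : ∑ j ∈ range M, h * (N * ((μ (Set.Ioi ((j:ℝ) * h))).toReal + κ)) =
      N * (∑ j ∈ range M, h * (μ (Set.Ioi ((j:ℝ) * h))).toReal) + N * (κ * S) := by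
    rw [mul_sum]
    have : ∀ j ∈ range M, h * (N * ((μ (Set.Ioi ((j:ℝ) * h))).toReal + κ)) =
        N * (h * (μ (Set.Ioi ((j:ℝ) * h))).toReal) + N * κ * h := fun j _ => by ring
    rw [sum_congr rfl this, sum_add_distrib, sum_const, card_range, nsmul_eq_mul]
    rw [← hMh]; ring
  have h8 : N * (∑ j ∈ range M, h * (μ (Set.Ioi ((j:ℝ) * h))).toReal) ≤ N * (1 + h) :=
    mul_le_mul_of_nonneg_left h4 hNpos.le
  calc (∑ n ∈ Icc 1 N, min (d n) S) ≤ _ := h1
    _ = _ := h2
    _ ≤ _ := h3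
    _ = _ := h7
    _ ≤ N * (1 + h) + N * (κ * S) := by linarith
    _ ≤ N * (1 + κ * S) + e := by nlinarith

/-- The excess over `S` is controlled by the tails at `S + j`. -/
lemma excess_le {N : ℕ} (d : ℕ → ℝ) (S : ℝ) {J : ℕ} (hJ : ∀ n ∈ Icc 1 N, d n ≤ S + J) :
    (∑ n ∈ Icc 1 N, (d n - min (d n) S)) ≤
      ∑ j ∈ range J, (({n ∈ Icc 1 N | S + j < d n}).card : ℝ) := by
  have h2 : ∑ j ∈ range J, (({n ∈ Icc 1 N | S + j < d n}).card : ℝ) =
      ∑ n ∈ Icc 1 N, (((range J).filter (fun j : ℕ => S + (j:ℝ) < d n)).card : ℝ) := by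
    simp_rw [card_filter]
    push_cast
    exact sum_comm
  rw [h2]
  apply sum_le_sum
  intro n hn
  have h3 := grid_lower (x := d n - S) (h := 1) one_pos J
  have h4 : ((range J).filter (fun j : ℕ => (j:ℝ) * 1 < d n - S)) = ((range J).filter (fun j : ℕ => S + (j:ℝ) < d n)) := by
    apply filter_congr
    intro j _
    constructor <;> intro h <;> linarith
  rw [h4, one_mul, mul_one] at h3
  have h5 := hJ n hn
  rcases le_total (d n) S with h6 | h6
  · rw [min_eq_left h6, sub_self]; positivity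
  · rw [min_eq_right h6]
    rwa [min_eq_left (by linarith)] at h3

end Pool.Agent.ZetaGaps
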