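import Pool.Agent.ZetaGaps.Combine
import Pool.Agent.ZetaGaps.Kolm

/-!
# A lower bound for the rate of convergence
-/

open MeasureTheory Finset

namespace Pool.Agent.ZetaGaps

/-- Mean of the normalised gaps. -/
def MeanLower (c : ℝ) (N1 : ℕ) : Prop :=
  ∀ N : ℕ, N1 ≤ N → (N : ℝ) * (1 + c / Real.log N) ≤ ∑ n ∈ Icc 1 N, gap n

/-- Uniform tail bound. -/
def TailUpper (s0 : ℝ) : Prop :=
  ∀ s : ℝ, s0 ≤ s → ∀ N : ℕ, (largeGapCount N s : ℝ) ≤ N * Real.exp (-(1 / 2) * (s * Real.log s))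

lemma mul_log_add_ge {S j : ℝ} (hS : Real.exp 2 ≤ S) (hj : 0 ≤ j) :
    S * Real.log S + 2 * j ≤ (S + j) * Real.log (S + j) := by
  have hpos : 0 < S := lt_of_lt_of_le (Real.exp_pos _) hS
  have h1 : 2 ≤ Real.log S := by rwa [Real.le_log_iff_exp_le hpos]
  have h2 : Real.log S ≤ Real.log (S + j) := Real.log_le_log hpos (by linarith)
  nlinarith

lemma excess_bound {s0 S : ℝ} (hT : TailUpper s0) (hS : s0 ≤ S) (hS2 : Real.exp 2 ≤ S) (N : ℕ) :
    (∑ n ∈ Icc 1 N, (gap n - min (gap n) S)) ≤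
      2 * N * Real.exp (-(1 / 2) * (S * Real.log S)) := by
  obtain ⟨J, hJ⟩ : ∃ J : ℕ, ∀ n ∈ Icc 1 N, gap n ≤ S + J := by
    obtain ⟨b, hb⟩ := ((Icc 1 N).image gap).bddAbove
    obtain ⟨J, hJ⟩ := exists_nat_ge (b - S)
    refine ⟨J, fun n hn => ?_⟩
    have := hb (by exact_mod_cast mem_image_of_mem gap hn)
    linarith
  refine (excess_le gap S hJ).trans ?_
  have h1 : ∀ j ∈ range J, (({n ∈ Icc 1 N | S + j < gap n}).card : ℝ) ≤
      N * Real.exp (-(1 / 2) * (S * Real.log S)) * (Real.exp (-1)) ^ j := by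
    intro j _
    have hj0 : (0:ℝ) ≤ j := Nat.cast_nonneg _
    have h2 := hT (S + j) (by linarith) N
    refine h2.trans ?_
    rw [mul_assoc]
    apply mul_le_mul_of_nonneg_left _ (Nat.cast_nonneg _)
    rw [← Real.exp_nat_mul, ← Real.exp_add, Real.exp_le_exp]
    have := mul_log_add_ge hS2 hj0
    linarith
  refine (sum_le_sum h1).trans ?_
  rw [← mul_sum]
  have h3 : ∑ j ∈ range J, (Real.exp (-1)) ^ j ≤ 2 := by
    have he : Real.exp (-1) ≤ 1 / 2 := by
      rw [Real.exp_neg, ← one_div, div_le_div_iff₀ (Real.exp_pos _) (by norm_num)]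
      have := Real.exp_one_gt_d9
      linarith
    calc ∑ j ∈ range J, (Real.exp (-1)) ^ j ≤ ∑ j ∈ range J, (1 / 2 : ℝ) ^ j :=
          sum_le_sum fun j _ => pow_le_pow_left₀ (Real.exp_pos _).le he j
      _ ≤ 2 := by
          rw [geom_sum_eq (by norm_num)]
          have : (0:ℝ) < (1 / 2) ^ J := by positivity
          norm_num
          linarith
  calc N * Real.exp (-(1 / 2) * (S * Real.log S)) * ∑ j ∈ range J, (Real.exp (-1)) ^ j
      ≤ N * Real.exp (-(1 / 2) * (S * Real.log S)) * 2 :=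
        mul_le_mul_of_nonneg_left h3 (by positivity)
    _ = _ := by ring

/-- The rate theorem, from the tail bound and the mean bound. -/
theorem rate_core {s0 c1 : ℝ} {N1 : ℕ} (hT : TailUpper s0) (hc1 : 0 < c1)
    (hM : MeanLower c1 N1) :
    ∃ N0 : ℕ, ∀ N : ℕ, N0 ≤ N → ∀ (μ : Measure ℝ) [IsProbabilityMeasure μ],
      μ (Set.Iio 0) = 0 → Integrable (fun x : ℝ => x) μ → ∫ x, x ∂μ = 1 →
      ∃ a b : ℝ, 0 ≤ a ∧ a < b ∧
        c1 / 32 * (Real.log (Real.log (Real.log N)) / (Real.log N * Real.log (Real.log N))) <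
        |(({n ∈ Icc 1 N | a < gap n ∧ gap n ≤ b}).card : ℝ) / N - (μ (Set.Ioc a b)).toReal| := by
  -- `L = log log N`
  have hLtend : Filter.Tendsto (fun N : ℕ => Real.log (Real.log N)) Filter.atTop Filter.atTop :=
    Real.tendsto_log_atTop.comp (Real.tendsto_log_atTop.comp tendsto_natCast_atTop_atTop)
  have hlogtend : Filter.Tendsto (fun N : ℕ => Real.log N) Filter.atTop Filter.atTop :=
    Real.tendsto_log_atTop.comp tendsto_natCast_atTop_atTop
  -- `S(L) = 8 L / log L → ∞`
  have hStend : Filter.Tendsto (fun L : ℝ => 8 * L / Real.log L) Filter.atTop Filter.atTop := by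
    have h1 : Filter.Tendsto (fun L : ℝ => Real.exp (Real.log L) / Real.log L) Filter.atTop
        Filter.atTop := by
      have := (Real.tendsto_exp_div_pow_atTop 1).comp Real.tendsto_log_atTop
      simpa [Function.comp_def] using this
    have h2 := h1.const_mul_atTop (show (0:ℝ) < 8 by norm_num)
    refine h2.congr' ?_
    filter_upwards [Filter.eventually_gt_atTop 0] with L hL
    rw [Real.exp_log hL]; ring
  have hev : ∀ᶠ N : ℕ in Filter.atTop,
      N1 ≤ N ∧ 1 ≤ N ∧ 8 / c1 < Real.log N ∧ Real.exp 1 ≤ Real.log (Real.log N) ∧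
      max s0 (Real.exp 2) ≤ 8 * Real.log (Real.log N) / Real.log (Real.log (Real.log N)) := by
    filter_upwards [Filter.eventually_ge_atTop N1, Filter.eventually_ge_atTop 1,
      hlogtend.eventually_gt_atTop (8 / c1), hLtend.eventually_ge_atTop (Real.exp 1),
      (hStend.comp hLtend).eventually_ge_atTop (max s0 (Real.exp 2))] with N h1 h2 h3 h4 h5
    exact ⟨h1, h2, h3, h4, h5⟩
  obtain ⟨N0, hN0⟩ := Filter.eventually_atTop.mp hev
  refine ⟨N0, fun N hN μ _ hμ0 hint hmean => ?_⟩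
  obtain ⟨hNN1, hN1, hlogN, hLe, hSge⟩ := hN0 N hN
  set l := Real.log N with hl
  set L := Real.log l with hL
  set S := 8 * L / Real.log L with hS
  have hlpos : 0 < l := lt_trans (by positivity) hlogN
  have hLpos : 0 < L := lt_of_lt_of_le (Real.exp_pos _) hLe
  have hlogL1 : 1 ≤ Real.log L := by rwa [Real.le_log_iff_exp_le hLpos]
  have hSpos : 0 < S := by positivity
  have hSs0 : s0 ≤ S := (le_max_left _ _).trans hSge
  have hSe2 : Real.exp 2 ≤ S := (le_max_right _ _).trans hSge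
  have hNpos : (0:ℝ) < N := by exact_mod_cast hN1
  by_contra hcon
  push Not at hcon
  set κ := c1 / 32 * (Real.log L / (l * L)) with hκ
  have h1 := kolm_core hN1 gap μ hμ0 hint hmean (κ := κ) hSpos (fun a b ha hab => hcon a b ha hab)
  have h2 := excess_bound hT hSs0 hSe2 N
  have h3 := hM N hNN1
  rw [← hl] at h3
  have h4 : ∑ n ∈ Icc 1 N, gap n = (∑ n ∈ Icc 1 N, min (gap n) S) +
      ∑ n ∈ Icc 1 N, (gap n - min (gap n) S) := by
    rw [← sum_add_distrib]
    exact sum_congr rfl fun n _ => by ring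
  -- `S log S ≥ 4 L`
  have hSlog : 4 * L ≤ S * Real.log S := by
    have h5 : Real.log L / 2 ≤ Real.log S := by
      rw [hS, Real.log_div (by positivity) (by positivity), Real.log_mul (by norm_num) hLpos.ne']
      have h6 : Real.log (Real.log L) ≤ Real.log L / 2 := by
        -- `log y ≤ y / 2` for `y > 0`
        have h7 : Real.log (Real.log L / 2) ≤ Real.log L / 2 - 1 :=
          Real.log_le_sub_one_of_pos (by positivity)
        rw [Real.log_div (by positivity) (by norm_num)] at h7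
        have h8 : Real.log 2 ≤ 1 := by have := Real.log_two_lt_d9; linarith
        linarith
      have h9 : 0 ≤ Real.log 8 := Real.log_nonneg (by norm_num)
      linarith
    calc 4 * L = S * (Real.log L / 2) := by rw [hS]; field_simp; norm_num
      _ ≤ S * Real.log S := mul_le_mul_of_nonneg_left h5 hSpos.le
  have hexp : Real.exp (-(1 / 2) * (S * Real.log S)) ≤ 1 / l ^ 2 := by
    calc Real.exp (-(1 / 2) * (S * Real.log S)) ≤ Real.exp (-(2 * L)) := by
          rw [Real.exp_le_exp]; linarith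
      _ = 1 / l ^ 2 := by
          rw [Real.exp_neg, ← one_div]
          congr 1
          rw [two_mul, Real.exp_add, hL, Real.exp_log hlpos]; ring
  have hκS : κ * S = c1 / (4 * l) := by
    rw [hκ, hS]; field_simp; norm_num
  -- contradiction
  have h5 : N * (1 + c1 / l) ≤ N * (1 + κ * S) + 2 * N * (1 / l ^ 2) := by
    calc N * (1 + c1 / l) ≤ _ := h3
      _ = _ := h4
      _ ≤ N * (1 + κ * S) + 2 * N * Real.exp (-(1 / 2) * (S * Real.log S)) := add_le_add h1 h2
      _ ≤ _ := by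
          have := mul_le_mul_of_nonneg_left hexp (show 0 ≤ 2 * (N:ℝ) by positivity)
          linarith
  rw [hκS] at h5
  have h6 : c1 / l ≤ c1 / (4 * l) + 2 / l ^ 2 := by
    have : N * (1 + c1 / l) ≤ N * (1 + c1 / (4 * l) + 2 / l ^ 2) := by
      calc N * (1 + c1 / l) ≤ _ := h5
        _ = _ := by ring
    have := le_of_mul_le_mul_left this hNpos
    linarith
  have h7 : c1 * l ≤ c1 * l / 4 + 2 := by
    have h8 := mul_le_mul_of_nonneg_right h6 (show 0 ≤ l ^ 2 by positivity)
    have e1 : c1 / l * l ^ 2 = c1 * l := by field_simp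
    have e2 : (c1 / (4 * l) + 2 / l ^ 2) * l ^ 2 = c1 * l / 4 + 2 := by field_simp
    rw [e1, e2] at h8
    exact h8
  have h8 : 8 < c1 * l := by
    rw [div_lt_iff₀ hc1] at hlogN
    linarith
  linarith

end Pool.Agent.ZetaGaps
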