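import Pool.Agent.ZetaGaps.RvM3
import Pool.Agent.ZetaGaps.Rate

/-!
# Consequences of Riemann-von Mangoldt: `CountLower`, mean of the normalised gaps
-/

open Filter Topology Finset

namespace Pool.Agent.ZetaGaps

lemma tendsto_log_div : Tendsto (fun T : ℝ => Real.log T / T) atTop (𝓝 0) := by
  have := Real.isLittleO_log_id_atTop.tendsto_div_nhds_zero
  simpa using this

/-- `N(T) ≥ T log T / 16`. -/
theorem exists_countLower (hRH : RiemannHypothesis) : ∃ T0 : ℝ, CountLower (1 / 16) T0 := by
  obtain ⟨C, hC, h⟩ := riemann_vonMangoldt hRH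
  have h1 : ∀ᶠ T : ℝ in atTop, Real.log T / T < 1 / (16 * C) :=
    tendsto_log_div.eventually (gt_mem_nhds (by positivity))
  obtain ⟨T0, hT0⟩ := eventually_atTop.mp (h1.and ((eventually_ge_atTop 2).and
    (Real.tendsto_log_atTop.eventually_ge_atTop (8 * (Real.log (2 * Real.pi) + 1)))))
  refine ⟨T0, fun T hT => ?_⟩
  obtain ⟨h2, h3, h4⟩ := hT0 T hT
  have hTpos : 0 < T := by linarith
  have hl : 0 < Real.log T := Real.log_pos (by linarith)
  have h5 := (abs_le.mp (h T h3)).1
  have h6 : C * Real.log T ≤ T / 16 := by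
    rw [div_lt_div_iff₀ hTpos (by positivity)] at h2
    linarith
  -- `T/(2π) (L - c) ≥ T/(2π) * 7/8 L ≥ T L * (7/8)/(6.4)`
  have hpi := Real.pi_pos
  have h7 : 7 / 8 * Real.log T ≤ Real.log T - Real.log (2 * Real.pi) - 1 := by linarith
  have h8 : T / (2 * Real.pi) * (7 / 8 * Real.log T) ≤
      T / (2 * Real.pi) * (Real.log T - Real.log (2 * Real.pi) - 1) :=
    mul_le_mul_of_nonneg_left h7 (by positivity)
  have h9 : 1 / 8 * (T * Real.log T) ≤ T / (2 * Real.pi) * (7 / 8 * Real.log T) := by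
    have h10 : 1 / 8 ≤ 1 / (2 * Real.pi) * (7 / 8) := by
      rw [div_mul_div_comm, div_le_div_iff₀ (by norm_num) (by positivity)]
      have := Real.pi_lt_d2
      linarith
    calc 1 / 8 * (T * Real.log T) ≤ 1 / (2 * Real.pi) * (7 / 8) * (T * Real.log T) :=
          mul_le_mul_of_nonneg_right h10 (by positivity)
      _ = _ := by ring
  have h11 : T / 16 ≤ 1 / 16 * (T * Real.log T) := by
    have h12 : 0 < Real.log (2 * Real.pi) := Real.log_pos (by linarith [Real.pi_gt_three])
    have : 1 ≤ Real.log T := by linarith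
    nlinarith
  linarith

lemma sum_gap (N : ℕ) : ∑ n ∈ Icc 1 N, gap n = normOrdinate (N + 1) - normOrdinate 1 := by
  induction N with
  | zero => simp
  | succ N ih =>
    rw [sum_Icc_succ_top (by omega), ih]
    unfold gap
    ring

/-- The mean of the first `N` normalised gaps exceeds `1` by at least `c / log N`. -/
theorem exists_meanLower (hRH : RiemannHypothesis) : ∃ N1 : ℕ, MeanLower (1 / 4) N1 := by
  obtain ⟨C, hC, h⟩ := riemann_vonMangoldt hRH
  obtain ⟨T0, hT0⟩ := exists_countLower hRH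
  have hpi := Real.pi_pos
  have hpi3 := Real.pi_gt_three
  set a := normOrdinate 1 with ha
  -- large `T`
  have h1 : ∀ᶠ T : ℝ in atTop, Real.log T / T < 1 / (16 * C) ∧ 3 ≤ T ∧
      (a ≤ T / 100) ∧ 1 ≤ Real.log T ∧ C * Real.log T ≤ T / 100 := by
    have e1 : ∀ᶠ T : ℝ in atTop, Real.log T / T < 1 / (16 * C) :=
      tendsto_log_div.eventually (gt_mem_nhds (by positivity))
    have e2 : ∀ᶠ T : ℝ in atTop, Real.log T / T < 1 / (100 * C) :=
      tendsto_log_div.eventually (gt_mem_nhds (by positivity))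
    filter_upwards [e1, eventually_ge_atTop 3, eventually_ge_atTop (100 * a),
      Real.tendsto_log_atTop.eventually_ge_atTop 1, e2] with T t1 t2 t3 t4 t5
    refine ⟨t1, t2, by linarith, t4, ?_⟩
    rw [div_lt_div_iff₀ (by linarith) (by positivity)] at t5
    linarith
  have h2 := tendsto_ordinate.eventually (h1.and (eventually_ge_atTop (max 4 (2 * T0))))
  obtain ⟨N1, hN1⟩ := eventually_atTop.mp (h2.and (eventually_ge_atTop 64))
  refine ⟨N1, fun N hN => ?_⟩
  obtain ⟨⟨⟨h3, h4, h5, h6, h7⟩, hgT⟩, hN64⟩ := hN1 N hN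
  have hN3 : 3 ≤ N := by omega
  set g := ordinate N with hg
  have hNpos : 1 ≤ N := by omega
  have hN3' : (3:ℝ) ≤ N := by exact_mod_cast hN3
  have hlogN : 1 ≤ Real.log N := by
    rw [Real.le_log_iff_exp_le (by linarith)]
    have := Real.exp_one_lt_d9
    linarith
  have hex := zeroCount_unbounded N
  -- `N ≤ N(g)`
  have h8 : (N:ℝ) ≤ zeroCount g := by exact_mod_cast le_zeroCount_ordinate hex hNpos
  have h9 := (abs_le.mp (h g (by linarith))).2
  -- `log (2π) + 1 ≥ 2.8`
  have h10 : (14 / 5 : ℝ) ≤ Real.log (2 * Real.pi) + 1 := by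
    have e1 : Real.exp (9 / 5) ≤ 2 * Real.pi := by
      have e2 : Real.exp (9 / 5) = (Real.exp 1) ^ (9 / 5 : ℝ) := by
        rw [← Real.exp_mul]; norm_num
      have e3 : Real.exp (9 / 5) ^ 5 ≤ (2 * Real.pi) ^ 5 := by
        rw [← Real.exp_nat_mul]
        have e4 : ((5:ℕ):ℝ) * (9 / 5) = ((9:ℕ):ℝ) * 1 := by norm_num
        rw [e4, Real.exp_nat_mul]
        calc (Real.exp 1) ^ 9 ≤ (2.7182818286:ℝ) ^ 9 :=
              pow_le_pow_left₀ (Real.exp_pos _).le Real.exp_one_lt_d9.le 9
          _ ≤ (2 * 3.14:ℝ) ^ 5 := by norm_num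
          _ ≤ (2 * Real.pi) ^ 5 := by
              apply pow_le_pow_left₀ (by norm_num)
              have := Real.pi_gt_d2
              linarith
      exact le_of_pow_le_pow_left₀ (by norm_num) (by positivity) e3
    have e5 : 9 / 5 ≤ Real.log (2 * Real.pi) := by
      rwa [Real.le_log_iff_exp_le (by positivity)]
    linarith
  -- upper bound `N ≤ g log g / (2π) - (2.8/(2π)) g + g/100`
  have h11 : (N:ℝ) ≤ g * Real.log g / (2 * Real.pi) - g / (2 * Real.pi) * (14 / 5) + g / 100 := by
    have e1 : g / (2 * Real.pi) * (Real.log g - Real.log (2 * Real.pi) - 1) =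
        g * Real.log g / (2 * Real.pi) - g / (2 * Real.pi) * (Real.log (2 * Real.pi) + 1) := by
      ring
    have e2 : g / (2 * Real.pi) * (14 / 5) ≤ g / (2 * Real.pi) * (Real.log (2 * Real.pi) + 1) :=
      mul_le_mul_of_nonneg_left h10 (by positivity)
    linarith
  have hsum := sum_gap N
  have hmono : normOrdinate N ≤ normOrdinate (N + 1) := by
    unfold normOrdinate
    apply div_le_div_of_nonneg_right _ (by positivity)
    have e1 := ordinate_mono (zeroCount_unbounded (N + 1)) hNpos (show N ≤ N + 1 by omega)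
    have e2 : Real.log (ordinate N) ≤ Real.log (ordinate (N + 1)) :=
      Real.log_le_log (by linarith) e1
    exact mul_le_mul e1 e2 (by linarith) (by linarith)
  have hnorm : normOrdinate N = g * Real.log g / (2 * Real.pi) := rfl
  rw [hsum]
  -- it suffices: `N + N/(4 log N) ≤ normOrdinate N - a`
  have h12 : g / (2 * Real.pi) * (14 / 5) ≥ g * (43 / 100) := by
    have e1 : (43 / 100 : ℝ) ≤ 1 / (2 * Real.pi) * (14 / 5) := by
      rw [div_mul_div_comm, div_le_div_iff₀ (by norm_num) (by positivity)]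
      have := Real.pi_lt_d2
      linarith
    calc g * (43 / 100) ≤ g * (1 / (2 * Real.pi) * (14 / 5)) :=
          mul_le_mul_of_nonneg_left e1 (by linarith)
      _ = _ := by ring
  have h13 : (N:ℝ) + g * (41 / 100) ≤ normOrdinate N - a := by
    rw [hnorm]
    linarith
  -- `N/(4 log N) ≤ 41/100 g`, since `N ≤ g log g / (2π)` and `log g ≤ 2 log N`
  have h14 : (N:ℝ) ≤ g * Real.log g / (2 * Real.pi) := by
    have : 0 ≤ g := by linarith
    nlinarith
  have h15 : Real.log g ≤ 2 * Real.log N := by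
    -- `g ≤ N ^ 2`
    have e1 := ordinate_mul_log_le (by norm_num) hT0 hNpos ((le_max_left _ _).trans hgT)
      ((le_max_right _ _).trans hgT)
    rw [← hg] at e1
    have e2 : g ≤ 64 * N := by nlinarith
    have e3 : (64:ℝ) ≤ N := by exact_mod_cast hN64
    have e4 : g ≤ (N:ℝ) ^ 2 := by nlinarith
    calc Real.log g ≤ Real.log ((N:ℝ) ^ 2) := Real.log_le_log (by linarith) e4
      _ = 2 * Real.log N := by rw [Real.log_pow]; push_cast; ring
  have h16 : (N:ℝ) * (1 / 4 / Real.log N) ≤ g * (41 / 100) := by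
    have hlN : 0 < Real.log N := by linarith
    rw [mul_div_assoc', div_le_iff₀ hlN]
    have e1 : (N:ℝ) ≤ g * (2 * Real.log N) / (2 * Real.pi) := by
      refine h14.trans ?_
      apply div_le_div_of_nonneg_right _ (by positivity)
      exact mul_le_mul_of_nonneg_left h15 (by linarith)
    have e2 : g * (2 * Real.log N) / (2 * Real.pi) = g * Real.log N / Real.pi := by
      field_simp
    rw [e2] at e1
    have e3 : g * Real.log N / Real.pi ≤ g * Real.log N / 3 :=
      div_le_div_of_nonneg_left (by positivity) (by norm_num) hpi3.le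
    have e4 : 0 ≤ g * Real.log N := mul_nonneg (by linarith) hlN.le
    linarith
  calc (N:ℝ) * (1 + 1 / 4 / Real.log N) = N + N * (1 / 4 / Real.log N) := by ring
    _ ≤ N + g * (41 / 100) := by linarith
    _ ≤ normOrdinate N - a := h13
    _ ≤ normOrdinate (N + 1) - a := by linarith

end Pool.Agent.ZetaGaps
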