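import Pool.Agent.ZGap.ClusterTail
import Pool.Agent.ZetaGaps.Mean

/-!
# (not a hand-in) runs of small gaps are super-exponentially rare, under RH

For every `ε > 0` there are `c > 0` and `m₀` such that for all `m ≥ m₀` and all `N`
`#{n ≤ N : δ_n + δ_{n+1} + ... + δ_{n+m-1} ≤ c m} ≤ N exp(-(1-ε) m log m)`.
-/

open Pool.Agent.ZetaGaps

theorem Pool.Agent.ZetaGaps.clusterTail_runs (hRH : RiemannHypothesis)
    (ε : ℝ) (hε : 0 < ε) :
    ∃ c : ℝ, 0 < c ∧ ∃ m₀ : ℕ, ∀ m : ℕ, m₀ ≤ m → ∀ N : ℕ,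
      ((({n ∈ Finset.Icc 1 N | ∑ i ∈ Finset.range m, gap (n + i) ≤ c * m} : Finset ℕ).card : ℕ) :
        ℝ) ≤ N * Real.exp (-(1 - ε) * (m * Real.log m)) := by
  set ε' : ℝ := min ε (1 / 2) / 4 with hε'
  have h1 : 0 < ε' := by positivity
  have h2 : ε' < 1 / 4 := by
    have := min_le_right ε (1 / 2)
    rw [hε']; linarith
  have h3 : 4 * ε' ≤ ε := by
    have := min_le_left ε (1 / 2)
    rw [hε']; linarith
  obtain ⟨C, hC, k0, T0, hV⟩ := Pool.Agent.ZGap.exists_cluBound hRH h1 (by linarith)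
  obtain ⟨T0', hL⟩ := exists_countLower hRH
  obtain ⟨c, hc, m0, h⟩ := Pool.Agent.ZGap.cluster_tail h1 h2 hC hV (by norm_num) hL
  refine ⟨c, hc, m0, fun m hm N => ?_⟩
  have e1 : ∀ n : ℕ, ∑ i ∈ Finset.range m, gap (n + i) = normOrdinate (n + m) - normOrdinate n := by
    intro n
    have := Finset.sum_range_sub (fun i => normOrdinate (n + i)) m
    simpa [gap, add_assoc] using this
  have h5 := h m hm N
  unfold Pool.Agent.ZGap.clusterCount at h5
  simp_rw [e1]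
  refine h5.trans ?_
  apply mul_le_mul_of_nonneg_left _ (Nat.cast_nonneg _)
  rw [Real.exp_le_exp]
  have h4 : 0 ≤ (m : ℝ) * Real.log m :=
    mul_nonneg (Nat.cast_nonneg _) (Real.log_natCast_nonneg m)
  nlinarith
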