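import Pool.Agent.ZetaGaps.Combine

/-!
# Windows with few zeros and `j`-th neighbour spacings
-/

open Complex Filter Topology MeasureTheory
open Pool.Agent.Hadamard (ntz mult)

namespace Pool.Agent.ZetaGaps

/-- The open interval `(t - r, t + r)` contains at most `j` ordinates (with multiplicity). -/
def Few (j : ℕ) (r t : ℝ) : Prop :=
  ∀ F : Finset ℂ, (∀ ρ ∈ F, ρ ∈ ntz ∧ |ρ.im - t| < r) → ∑ ρ ∈ F, mult ρ ≤ j

/-- `γ̃_{n+j} - γ̃_n`. -/
noncomputable def jgap (j n : ℕ) : ℝ := normOrdinate (n + j) - normOrdinate n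

/-- Zeros strictly between `γ_n` and `γ_{n+j}` number at most `j - 1`. -/
lemma sum_mult_between {n j : ℕ} (hn : 1 ≤ n) (hj : 1 ≤ j) (F : Finset ℂ)
    (hF : ∀ ρ ∈ F, ρ ∈ ntz ∧ ordinate n < ρ.im ∧ ρ.im < ordinate (n + j)) :
    ∑ ρ ∈ F, mult ρ ≤ j - 1 := by
  classical
  rcases F.eq_empty_or_nonempty with h0 | hne
  · rw [h0]; simp
  obtain ⟨ρ0, h0, hmax⟩ := F.exists_max_image (fun ρ => ρ.im) hne
  have hex := zeroCount_unbounded (n + j)
  have h1 : zeroCount ρ0.im < n + j := by
    by_contra hcon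
    push Not at hcon
    have := (le_zeroCount_iff hex (by omega)).mp hcon
    linarith [(hF ρ0 h0).2.2]
  have h2 := le_zeroCount_ordinate (zeroCount_unbounded n) hn
  have h3 := zeroCount_sub (S := ordinate n) (T := ρ0.im) (hF ρ0 h0).2.1.le
  have h4 : F ⊆ (finite_zerosUpTo ρ0.im).toFinset.filter (fun ρ => ordinate n < ρ.im) := by
    intro ρ hρ
    rw [Finset.mem_filter, Set.Finite.mem_toFinset, mem_zerosUpTo]
    have := hF ρ hρ
    exact ⟨⟨this.1, (ordinate_pos (zeroCount_unbounded n) hn).trans this.2.1, hmax ρ hρ⟩,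
      this.2.1⟩
  have h5 : ∑ ρ ∈ F, mult ρ ≤
      ∑ ρ ∈ (finite_zerosUpTo ρ0.im).toFinset.filter (fun ρ => ordinate n < ρ.im), mult ρ :=
    Finset.sum_le_sum_of_subset h4
  omega

lemma few_of_between {n j : ℕ} (hn : 1 ≤ n) (hj : 1 ≤ j) {r t : ℝ} (h1 : ordinate n + r ≤ t)
    (h2 : t + r ≤ ordinate (n + j)) : Few (j - 1) r t := by
  intro F hF
  apply sum_mult_between hn hj
  intro ρ hρ
  obtain ⟨h3, h4⟩ := hF ρ hρ
  rw [abs_lt] at h4
  exact ⟨h3, by linarith [h4.1], by linarith [h4.2]⟩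

/-- Counting large `j`-gaps by the measure of the set of centres of sparse windows. -/
lemma card_mul_le_few {T U r η : ℝ} (hr : 0 < r) (hη : 0 ≤ η) {j : ℕ} (hj : 1 ≤ j)
    (A : Finset ℕ)
    (hA : ∀ n ∈ A, 1 ≤ n ∧ T ≤ ordinate n ∧ ordinate (n + j) ≤ U ∧
      2 * r + η ≤ ordinate (n + j) - ordinate n) :
    ENNReal.ofReal (A.card * η) ≤ j * volume {t | t ∈ Set.Icc T U ∧ Few (j - 1) r t} := by
  classical
  -- split `A` in residue classes mod `j`
  set B : ℕ → Finset ℕ := fun a => A.filter (fun n => n % j = a) with hB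
  have hclass : ∀ a ∈ Finset.range j, ENNReal.ofReal ((B a).card * η) ≤
      volume {t | t ∈ Set.Icc T U ∧ Few (j - 1) r t} := by
    intro a _
    have hmem : ∀ n ∈ B a, n ∈ A ∧ n % j = a := fun n hn => Finset.mem_filter.mp hn
    have hsub : (⋃ n ∈ B a, Set.Icc (ordinate n + r) (ordinate (n + j) - r)) ⊆
        {t | t ∈ Set.Icc T U ∧ Few (j - 1) r t} := by
      intro t ht
      simp only [Set.mem_iUnion, Set.mem_Icc, exists_prop] at ht
      obtain ⟨n, hn, h1, h2⟩ := ht
      obtain ⟨h3, h4, h5, h6⟩ := hA n (hmem n hn).1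
      exact ⟨⟨by linarith, by linarith⟩, few_of_between h3 hj h1 (by linarith)⟩
    refine le_trans ?_ (measure_mono hsub)
    have hlt : ∀ m ∈ B a, ∀ n ∈ B a, m < n →
        Disjoint (Set.Icc (ordinate m + r) (ordinate (m + j) - r))
          (Set.Icc (ordinate n + r) (ordinate (n + j) - r)) := by
      intro m hm n hn hmn
      rw [Set.disjoint_left]
      intro t ht1 ht2
      have hmj : m + j ≤ n := by
        have e1 := (hmem m hm).2
        have e2 := (hmem n hn).2
        have e3 : m ≡ n [MOD j] := e1.trans e2.symm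
        have e4 : j ∣ n - m := (Nat.modEq_iff_dvd' hmn.le).mp e3
        have e5 := Nat.le_of_dvd (by omega) e4
        omega
      have h1 := ordinate_mono (zeroCount_unbounded n) (show 1 ≤ m + j by omega) hmj
      linarith [ht1.2, ht2.1]
    rw [measure_biUnion_finset _ (fun n _ => measurableSet_Icc)]
    · have h1 : ∀ n ∈ B a, ENNReal.ofReal η ≤
          volume (Set.Icc (ordinate n + r) (ordinate (n + j) - r)) := by
        intro n hn
        rw [Real.volume_Icc]
        exact ENNReal.ofReal_le_ofReal (by linarith [(hA n (hmem n hn).1).2.2.2])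
      calc ENNReal.ofReal ((B a).card * η) = (B a).card * ENNReal.ofReal η := by
            rw [ENNReal.ofReal_mul (Nat.cast_nonneg _), ENNReal.ofReal_natCast]
        _ = ∑ n ∈ B a, ENNReal.ofReal η := by rw [Finset.sum_const, nsmul_eq_mul]
        _ ≤ _ := Finset.sum_le_sum h1
    · intro m hm n hn hmn
      rcases lt_or_gt_of_ne hmn with h | h
      · exact hlt m hm n hn h
      · exact (hlt n hn m hm h).symm
  have hcard : A.card = ∑ a ∈ Finset.range j, (B a).card := by
    rw [hB]
    exact Finset.card_eq_sum_card_fiberwise (fun n _ => by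
      simp only [Finset.coe_range, Set.mem_Iio]
      exact Nat.mod_lt _ (by omega))
  calc ENNReal.ofReal (A.card * η) = ENNReal.ofReal (∑ a ∈ Finset.range j, ((B a).card * η)) := by
        rw [hcard]; push_cast; rw [Finset.sum_mul]
    _ = ∑ a ∈ Finset.range j, ENNReal.ofReal ((B a).card * η) := by
        rw [ENNReal.ofReal_sum_of_nonneg]
        intro a _; positivity
    _ ≤ ∑ a ∈ Finset.range j, volume {t | t ∈ Set.Icc T U ∧ Few (j - 1) r t} :=
        Finset.sum_le_sum hclass
    _ = j * volume {t | t ∈ Set.Icc T U ∧ Few (j - 1) r t} := by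
        rw [Finset.sum_const, Finset.card_range, nsmul_eq_mul]

/-- The measure estimate for windows with few zeros (proved under RH elsewhere). -/
def FewBound (ε C A T0 : ℝ) : Prop :=
  ∀ T : ℝ, T0 ≤ T → ∀ j k : ℕ, A * (j + 1) ≤ k → (2:ℝ) ^ k ≤ T →
    volume {t | t ∈ Set.Icc T (3 * T) ∧ Few j (Real.pi * (1 + ε) * k / Real.log T) t} ≤
      ENNReal.ofReal (T * (C / k) ^ k)

lemma jgap_le {n j : ℕ} (hn : 1 ≤ n) :
    jgap j n ≤ (ordinate (n + j) - ordinate n) * (Real.log (ordinate (n + j)) + 1) /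
      (2 * Real.pi) := by
  unfold jgap normOrdinate
  rw [← sub_div]
  apply div_le_div_of_nonneg_right _ (by positivity)
  exact mul_log_sub_le (ordinate_pos (zeroCount_unbounded n) hn)
    (ordinate_mono (zeroCount_unbounded _) hn (by omega))

/-- The count of large normalised `j`-gaps in a dyadic block, for `2^k ≤ T`. -/
lemma few_block_bound {ε C A T0 : ℝ} (hε : 0 < ε) (hC : 0 ≤ C) (hA1 : 1 ≤ A)
    (h : FewBound ε C A T0) :
    ∃ k1 : ℕ, 1 ≤ k1 ∧ ∃ T1 : ℝ, 3 ≤ T1 ∧ ∀ T : ℝ, T1 ≤ T → ∀ j k : ℕ, 1 ≤ j → k1 ≤ k →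
      A * j ≤ k → (2:ℝ) ^ k ≤ T →
      ∀ S : Finset ℕ, (∀ n ∈ S, 1 ≤ n ∧ T ≤ ordinate n ∧ ordinate n < 2 * T ∧
        (1 + 3 * ε) * k < jgap j n) →
      (S.card : ℝ) ≤ 1 / ε * (T * Real.log T) * (C / k) ^ k := by
  have hlog2 : 0 < Real.log 2 := Real.log_pos (by norm_num)
  have hpi := Real.pi_pos
  set T1 : ℝ := max T0 (max 3 (max (4 * (Real.pi * (1 + ε) / Real.log 2))
    (Real.exp ((1 + 2 * ε) * (Real.log 4 + 1) / ε)))) with hT1
  refine ⟨⌈4 * C⌉₊ + 1, by omega, T1,
    (le_max_left _ _).trans (le_max_right _ _), fun T hT j k hj hk2 hAj h2k S hS => ?_⟩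
  have hk1 : 1 ≤ k := by omega
  have hk4 : 4 * C ≤ k := (Nat.le_ceil _).trans (by exact_mod_cast (by omega : ⌈4 * C⌉₊ ≤ k))
  have hkpos : (0:ℝ) < k := by exact_mod_cast hk1
  have hTT0 : T0 ≤ T := (le_max_left _ _).trans hT
  have hT3 : 3 ≤ T := ((le_max_left _ _).trans (le_max_right _ _)).trans hT
  have hTr : 4 * (Real.pi * (1 + ε) / Real.log 2) ≤ T :=
    ((le_max_left _ _).trans ((le_max_right _ _).trans (le_max_right _ _))).trans hT
  have hTe : Real.exp ((1 + 2 * ε) * (Real.log 4 + 1) / ε) ≤ T :=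
    ((le_max_right _ _).trans ((le_max_right _ _).trans (le_max_right _ _))).trans hT
  have hTpos : 0 < T := by linarith
  have hL : 0 < Real.log T := Real.log_pos (by linarith)
  have hLe : (1 + 2 * ε) * (Real.log 4 + 1) ≤ ε * Real.log T := by
    have h1 := Real.log_le_log (Real.exp_pos _) hTe
    rw [Real.log_exp, div_le_iff₀ hε] at h1
    linarith
  have hjk : (j:ℝ) ≤ k := by
    have : (j:ℝ) ≤ A * j := by
      have : (0:ℝ) ≤ j := Nat.cast_nonneg j
      nlinarith
    linarith
  set r := Real.pi * (1 + ε) * k / Real.log T with hr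
  have hrpos : 0 < r := by positivity
  have hkl : k * Real.log 2 ≤ Real.log T := by
    have h1 := Real.log_le_log (by positivity) h2k
    rwa [Real.log_pow] at h1
  have hr2 : 4 * r ≤ T := by
    refine le_trans ?_ hTr
    have : r ≤ Real.pi * (1 + ε) / Real.log 2 := by
      rw [hr, div_le_div_iff₀ hL hlog2]
      calc Real.pi * (1 + ε) * k * Real.log 2 = Real.pi * (1 + ε) * (k * Real.log 2) := by ring
        _ ≤ Real.pi * (1 + ε) * Real.log T := mul_le_mul_of_nonneg_left hkl (by positivity)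
    linarith
  have hvol := h T hTT0 (j - 1) k (by
    have : ((j - 1 : ℕ) : ℝ) + 1 = j := by
      rw [Nat.cast_sub hj]; push_cast; ring
    rw [this]; exact hAj) h2k
  rw [← hr] at hvol
  have hq := pow_le_quarter hC hk1 hk4
  have hq0 : 0 ≤ (C / k) ^ k := by positivity
  -- the next ordinate is below `3T`
  have hnext : ∀ n ∈ S, ordinate (n + j) ≤ 3 * T := by
    intro n hn
    obtain ⟨h1, h2, h3, h4⟩ := hS n hn
    by_contra hcon
    push Not at hcon
    have hsub : Set.Icc (ordinate n + r) (3 * T - r) ⊆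
        {t | t ∈ Set.Icc T (3 * T) ∧ Few (j - 1) r t} := by
      intro t ht
      exact ⟨⟨by linarith [ht.1], by linarith [ht.2]⟩, few_of_between h1 hj ht.1
        (by linarith [ht.2])⟩
    have h5 := (measure_mono hsub).trans hvol
    rw [Real.volume_Icc] at h5
    rw [ENNReal.ofReal_le_ofReal_iff (by positivity)] at h5
    have h6 : T * (C / k) ^ k ≤ T * (1 / 4) :=
      mul_le_mul_of_nonneg_left hq (by positivity)
    linarith
  -- geometric size of the gaps
  set η := 2 * Real.pi * ε * k / Real.log T with hη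
  have hηpos : 0 < η := by positivity
  have hgeo : ∀ n ∈ S, 1 ≤ n ∧ T ≤ ordinate n ∧ ordinate (n + j) ≤ 3 * T ∧
      2 * r + η ≤ ordinate (n + j) - ordinate n := by
    intro n hn
    obtain ⟨h1, h2, h3, h4⟩ := hS n hn
    refine ⟨h1, h2, hnext n hn, ?_⟩
    have h5 := jgap_le (j := j) h1
    have hmono := ordinate_mono (zeroCount_unbounded (n + j)) h1 (by omega)
    have h6 : Real.log (ordinate (n + j)) ≤ Real.log T + Real.log 4 := by
      rw [← Real.log_mul hTpos.ne' (by norm_num)]
      apply Real.log_le_log (by linarith)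
      linarith [hnext n hn]
    have hL4 : 0 < Real.log 4 := Real.log_pos (by norm_num)
    set g := ordinate (n + j) - ordinate n with hg
    have hg0 : 0 ≤ g := by linarith
    have h7 : (1 + 3 * ε) * k < g * (Real.log T + Real.log 4 + 1) / (2 * Real.pi) := by
      refine h4.trans_le (h5.trans ?_)
      apply div_le_div_of_nonneg_right _ (by positivity)
      exact mul_le_mul_of_nonneg_left (by linarith) hg0
    rw [lt_div_iff₀ (by positivity)] at h7
    have h8 : 2 * r + η = (1 + 2 * ε) * k * (2 * Real.pi) / Real.log T := by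
      rw [hr, hη]; ring
    rw [h8, div_le_iff₀ hL]
    have h9 : (1 + 2 * ε) * (Real.log T + Real.log 4 + 1) ≤ (1 + 3 * ε) * Real.log T := by
      linarith
    have h10 : 0 < Real.log T + Real.log 4 + 1 := by linarith
    have h11 : (1 + 2 * ε) * k * (2 * Real.pi) * (Real.log T + Real.log 4 + 1) ≤
        g * Real.log T * (Real.log T + Real.log 4 + 1) := by
      calc (1 + 2 * ε) * k * (2 * Real.pi) * (Real.log T + Real.log 4 + 1)
          = ((1 + 2 * ε) * (Real.log T + Real.log 4 + 1)) * (k * (2 * Real.pi)) := by ring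
        _ ≤ ((1 + 3 * ε) * Real.log T) * (k * (2 * Real.pi)) :=
            mul_le_mul_of_nonneg_right h9 (by positivity)
        _ = ((1 + 3 * ε) * k * (2 * Real.pi)) * Real.log T := by ring
        _ ≤ (g * (Real.log T + Real.log 4 + 1)) * Real.log T :=
            mul_le_mul_of_nonneg_right h7.le hL.le
        _ = _ := by ring
    exact le_of_mul_le_mul_right h11 h10
  have h5 := card_mul_le_few hrpos hηpos.le hj S hgeo
  have h5' : ENNReal.ofReal (S.card * η) ≤ ENNReal.ofReal (j * (T * (C / k) ^ k)) := by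
    refine h5.trans ?_
    rw [ENNReal.ofReal_mul (Nat.cast_nonneg _), ENNReal.ofReal_natCast]
    gcongr
  rw [ENNReal.ofReal_le_ofReal_iff (by positivity)] at h5'
  -- conclude
  have h6 : (S.card : ℝ) ≤ k * (T * (C / k) ^ k) / η := by
    rw [le_div_iff₀ hηpos]
    exact h5'.trans (mul_le_mul_of_nonneg_right hjk (by positivity))
  refine h6.trans ?_
  rw [hη, div_div_eq_mul_div]
  have h7 : k * (T * (C / k) ^ k) * Real.log T / (2 * Real.pi * ε * k) =
      (1 / ε * (T * Real.log T) * (C / k) ^ k) * (1 / (2 * Real.pi)) := by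
    field_simp
  rw [h7]
  apply mul_le_of_le_one_right (by positivity)
  rw [div_le_one (by positivity)]
  nlinarith [Real.pi_gt_three]

end Pool.Agent.ZetaGaps
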