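import Pool.Agent.ZetaGaps.Few
import Pool.Agent.ZetaGaps.Mean

/-!
# The tail bound for `j`-th neighbour spacings
-/

open Complex Filter Topology MeasureTheory
open Pool.Agent.Hadamard (ntz mult)

namespace Pool.Agent.ZetaGaps

lemma mul_log_ge_neg_one {x : ℝ} (hx : 0 < x) : -1 ≤ x * Real.log x := by
  have h := Real.one_sub_inv_le_log_of_pos hx
  have h2 : x * (1 - x⁻¹) ≤ x * Real.log x := mul_le_mul_of_nonneg_left h hx.le
  have h3 : x * (1 - x⁻¹) = x - 1 := by field_simp
  linarith

lemma normOrdinate_ge {n : ℕ} (hn : 1 ≤ n) : -1 ≤ normOrdinate n := by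
  unfold normOrdinate
  have h := mul_log_ge_neg_one (ordinate_pos (zeroCount_unbounded n) hn)
  rw [le_div_iff₀ (by positivity)]
  have := Real.pi_gt_three
  linarith

/-- `γ̃_m ≤ D m`. -/
lemma exists_normOrdinate_le (hRH : RiemannHypothesis) :
    ∃ D : ℝ, 0 < D ∧ ∀ m : ℕ, 1 ≤ m → normOrdinate m ≤ D * m := by
  obtain ⟨T0, hT0⟩ := exists_countLower hRH
  set X := max 4 (2 * T0) with hX
  have hX4 : 4 ≤ X := le_max_left _ _
  have hlX : 0 < Real.log X := Real.log_pos (by linarith)
  have hpi := Real.pi_pos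
  refine ⟨64 + X * Real.log X, by positivity, fun m hm => ?_⟩
  have hm1 : (1:ℝ) ≤ m := by exact_mod_cast hm
  have hpos := ordinate_pos (zeroCount_unbounded m) hm
  rcases le_or_gt X (ordinate m) with h | h
  · have h1 := ordinate_mul_log_le (by norm_num) hT0 hm (hX4.trans h)
      ((le_max_right _ _).trans h)
    unfold normOrdinate
    rw [div_le_iff₀ (by positivity)]
    have h2 : 0 ≤ X * Real.log X := by positivity
    have h3 : (4 / (1 / 16) : ℝ) * m = 64 * m := by norm_num
    rw [h3] at h1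
    have h4 : 64 * (m:ℝ) ≤ (64 + X * Real.log X) * m :=
      mul_le_mul_of_nonneg_right (by linarith) (by linarith)
    have h5 : (1:ℝ) ≤ 2 * Real.pi := by linarith [Real.pi_gt_three]
    have h6 : 0 ≤ (64 + X * Real.log X) * m := by positivity
    calc ordinate m * Real.log (ordinate m) ≤ (64 + X * Real.log X) * m * 1 := by linarith
      _ ≤ (64 + X * Real.log X) * m * (2 * Real.pi) := mul_le_mul_of_nonneg_left h5 h6
  · unfold normOrdinate
    rw [div_le_iff₀ (by positivity)]
    have h1 : ordinate m * Real.log (ordinate m) ≤ X * Real.log X := by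
      rcases le_or_gt (Real.log (ordinate m)) 0 with h0 | h0
      · have : ordinate m * Real.log (ordinate m) ≤ 0 := mul_nonpos_of_nonneg_of_nonpos hpos.le h0
        have h2 : 0 ≤ X * Real.log X := by positivity
        linarith
      · exact mul_le_mul h.le (Real.log_le_log hpos h.le) h0.le (by linarith)
    have h2 : 0 ≤ X * Real.log X := by positivity
    have h5 : (1:ℝ) ≤ 2 * Real.pi := by linarith [Real.pi_gt_three]
    have h6 : X * Real.log X ≤ (64 + X * Real.log X) * m := by
      calc X * Real.log X ≤ (64 + X * Real.log X) * 1 := by linarith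
        _ ≤ (64 + X * Real.log X) * m := mul_le_mul_of_nonneg_left hm1 (by linarith)
    have h7 : 0 ≤ (64 + X * Real.log X) * m := by positivity
    calc ordinate m * Real.log (ordinate m) ≤ (64 + X * Real.log X) * m * 1 := by linarith
      _ ≤ (64 + X * Real.log X) * m * (2 * Real.pi) := mul_le_mul_of_nonneg_left h5 h7

/-- `γ̃_{n+j} - γ̃_n ≤ C (j + log (γ_n + 2))`. -/
lemma exists_jgap_le (hRH : RiemannHypothesis) :
    ∃ C : ℝ, 1 ≤ C ∧ ∀ n j : ℕ, 1 ≤ n → 1 ≤ j →
      jgap j n ≤ C * (j + Real.log (ordinate n + 2)) := by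
  obtain ⟨T0, hT0⟩ := exists_countLower hRH
  obtain ⟨C, hC, h⟩ := riemann_vonMangoldt hRH
  obtain ⟨C', hC', h'⟩ := zeroCount_add_le
  obtain ⟨D, hD, hDm⟩ := exists_normOrdinate_le hRH
  have hpi := Real.pi_pos
  have hpi3 := Real.pi_gt_three
  set L2 := Real.log (2 * Real.pi) with hL2
  have hL2pos : 0 < L2 := Real.log_pos (by linarith)
  -- threshold
  have hev : ∀ᶠ T : ℝ in atTop, Real.log T / T < 1 / C ∧ 4 ≤ T ∧ 2 * T0 ≤ T ∧
      2 * (L2 + 1) ≤ Real.log T ∧ 1 ≤ Real.log T := by
    filter_upwards [tendsto_log_div.eventually (gt_mem_nhds (show (0:ℝ) < 1 / C by positivity)),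
      eventually_ge_atTop 4, eventually_ge_atTop (2 * T0),
      Real.tendsto_log_atTop.eventually_ge_atTop (2 * (L2 + 1)),
      Real.tendsto_log_atTop.eventually_ge_atTop 1] with T t1 t2 t3 t4 t5
    exact ⟨t1, t2, t3, t4, t5⟩
  obtain ⟨T3, hT3⟩ := eventually_atTop.mp hev
  set n3 := zeroCount T3 with hn3
  set C'' := 2 * C + 3 + 5 * C' with hC''
  have hC''pos : 0 < C'' := by positivity
  set C5 := 2 + 2 * C'' * 6 + (D * (n3 + 1) + 1) with hC5
  have hbase : 0 ≤ D * (n3 + 1) + 1 := by positivity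
  refine ⟨C5, by rw [hC5]; linarith, fun n j hn hj => ?_⟩
  have hexn := zeroCount_unbounded n
  have hexm := zeroCount_unbounded (n + j)
  have hj1 : (1:ℝ) ≤ j := by exact_mod_cast hj
  set a := ordinate n with ha
  set b := ordinate (n + j) with hb
  have hapos : 0 < a := ordinate_pos hexn hn
  have hab : a ≤ b := ordinate_mono hexm hn (by omega)
  have hloga2 : 0 ≤ Real.log (a + 2) := Real.log_nonneg (by linarith)
  rcases le_or_gt T3 a with hT | hT
  · obtain ⟨t1, t2, t3, t4, t5⟩ := hT3 a hT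
    have hla : 0 < Real.log a := by linarith
    have hlb : Real.log a ≤ Real.log b := Real.log_le_log hapos hab
    have hlog2 : Real.log a ≤ Real.log (a + 2) := Real.log_le_log hapos (by linarith)
    -- counting
    have e1 : (n:ℝ) ≤ zeroCount a := by exact_mod_cast le_zeroCount_ordinate hexn hn
    have e2 := (abs_le.mp (h a (by linarith))).2
    have e3 := (abs_le.mp (h b (by linarith))).1
    have e4 : (zeroCount (b - 1) : ℝ) ≤ n + j := by
      have : zeroCount (b - 1) < n + j := by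
        by_contra hcon
        push Not at hcon
        have := (le_zeroCount_iff hexm (by omega)).mp hcon
        linarith
      exact_mod_cast this.le
    have e5 := h' (b - 1) 1 (by linarith) zero_le_one
    rw [show b - 1 + 1 = b by ring] at e5
    have e6 : Real.log (b - 1) ≤ Real.log b := Real.log_le_log (by linarith) (by linarith)
    -- `jgap`
    have e7 : jgap j n = (b * Real.log b - a * Real.log a) / (2 * Real.pi) := by
      unfold jgap normOrdinate
      rw [← hb, ← ha, sub_div]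
    set G := jgap j n with hG
    have e8 : (b - a) * Real.log a ≤ b * Real.log b - a * Real.log a := by
      have : b * Real.log a ≤ b * Real.log b := mul_le_mul_of_nonneg_left hlb (by linarith)
      linarith
    have e9 : (b - a) / (2 * Real.pi) * (2 * (L2 + 1)) ≤ G := by
      rw [e7, div_mul_eq_mul_div]
      apply div_le_div_of_nonneg_right _ (by positivity)
      calc (b - a) * (2 * (L2 + 1)) ≤ (b - a) * Real.log a :=
            mul_le_mul_of_nonneg_left t4 (by linarith)
        _ ≤ _ := e8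
    have e10 : b / (2 * Real.pi) * (Real.log b - L2 - 1) - a / (2 * Real.pi) * (Real.log a - L2 - 1)
        = G - (b - a) / (2 * Real.pi) * (L2 + 1) := by
      rw [e7]; ring
    -- `G / 2 ≤ j + C'' log b`
    have e11 : G / 2 ≤ j + C'' * Real.log b := by
      have f1 : C * Real.log a ≤ C * Real.log b := mul_le_mul_of_nonneg_left hlb hC.le
      have f2 : (4 + (1:ℝ) ^ 2) * (Real.log (b - 1) / 2 + C') ≤ 3 * Real.log b + 5 * C' * Real.log b := by
        have g1 : 1 ≤ Real.log b := by linarith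
        have g2 : C' * 1 ≤ C' * Real.log b := mul_le_mul_of_nonneg_left g1 hC'.le
        linarith
      rw [hC'']
      linarith
    -- `log b ≤ 6 (j + log (a+2))`
    have e12 : Real.log b ≤ 6 * (j + Real.log (a + 2)) := by
      have f1 := ordinate_mul_log_le (by norm_num) hT0 (show 1 ≤ n + j by omega)
        (by linarith : 4 ≤ b) (by linarith)
      rw [← hb] at f1
      have f2 : b ≤ 64 * ((n + j : ℕ) : ℝ) := by
        have g1 : 1 ≤ Real.log b := by linarith
        have g2 : b * 1 ≤ b * Real.log b := mul_le_mul_of_nonneg_left g1 (by linarith)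
        have g3 : (4 / (1 / 16) : ℝ) = 64 := by norm_num
        rw [g3] at f1
        linarith
      -- `n ≤ a^2`
      have f3 : (n:ℝ) ≤ a ^ 2 := by
        have g1 : C * Real.log a ≤ a := by
          rw [div_lt_div_iff₀ hapos hC] at t1
          linarith
        have g2 : a / (2 * Real.pi) * (Real.log a - L2 - 1) ≤ a / 2 * Real.log a := by
          have g3 : a / (2 * Real.pi) ≤ a / 2 := by
            apply div_le_div_of_nonneg_left hapos.le (by norm_num)
            linarith
          have g4 : Real.log a - L2 - 1 ≤ Real.log a := by linarith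
          exact mul_le_mul g3 g4 (by linarith) (by positivity)
        have g5 : Real.log a ≤ a - 1 := Real.log_le_sub_one_of_pos hapos
        have g6 : a / 2 * Real.log a ≤ a / 2 * (a - 1) :=
          mul_le_mul_of_nonneg_left g5 (by linarith)
        have g7 : a ≤ a ^ 2 / 4 := by
          have := mul_le_mul_of_nonneg_left t2 hapos.le
          rw [sq]; linarith
        have g8 : a / 2 * (a - 1) = a ^ 2 / 2 - a / 2 := by ring
        have g9 : 0 ≤ a ^ 2 := sq_nonneg a
        linarith
      have f4 : b ≤ 64 * ((a + 2) ^ 2 * (1 + j)) := by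
        push_cast at f2
        have g0 : a ^ 2 ≤ (a + 2) ^ 2 := pow_le_pow_left₀ hapos.le (by linarith) 2
        have g1 : (n:ℝ) ≤ (a + 2) ^ 2 := f3.trans g0
        have g2 : 1 ≤ (a + 2) ^ 2 := one_le_pow₀ (by linarith)
        have g3 : 1 * (j:ℝ) ≤ (a + 2) ^ 2 * j := mul_le_mul_of_nonneg_right g2 (by linarith)
        have g4 : (a + 2) ^ 2 * (1 + j) = (a + 2) ^ 2 + (a + 2) ^ 2 * j := by ring
        rw [g4]; linarith
      have f5 : Real.log b ≤ Real.log 64 + (2 * Real.log (a + 2) + Real.log (1 + j)) := by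
        calc Real.log b ≤ Real.log (64 * ((a + 2) ^ 2 * (1 + j))) :=
              Real.log_le_log (by linarith) f4
          _ = _ := by
              rw [Real.log_mul (by norm_num) (by positivity),
                Real.log_mul (by positivity) (by positivity), Real.log_pow]
              push_cast; ring
      have f6 : Real.log (1 + j) ≤ j := by
        have := Real.log_le_sub_one_of_pos (show (0:ℝ) < 1 + j by positivity)
        linarith
      have f7 : Real.log 64 ≤ 5 := by
        rw [show (64:ℝ) = 2 ^ 6 by norm_num, Real.log_pow]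
        have := Real.log_two_lt_d9
        push_cast; linarith
      linarith
    have e13 : C'' * Real.log b ≤ C'' * (6 * (j + Real.log (a + 2))) :=
      mul_le_mul_of_nonneg_left e12 hC''pos.le
    have e14 : 0 ≤ (D * (n3 + 1) + 1) * (j + Real.log (a + 2)) := by positivity
    have e15 : C5 * (j + Real.log (a + 2)) = 2 * (j + Real.log (a + 2)) +
        2 * (C'' * (6 * (j + Real.log (a + 2)))) +
        (D * (n3 + 1) + 1) * (j + Real.log (a + 2)) := by rw [hC5]; ring
    rw [e15]
    linarith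
  · -- small heights
    have f1 : n ≤ n3 := (le_zeroCount_iff hexn hn).mpr hT.le
    have f2 := hDm (n + j) (by omega)
    have f3 := normOrdinate_ge hn
    have f4 : (n:ℝ) ≤ n3 := by exact_mod_cast f1
    have f5 : jgap j n ≤ D * (n3 + j) + 1 := by
      unfold jgap
      push_cast at f2
      have : D * (n + j) ≤ D * (n3 + j) := mul_le_mul_of_nonneg_left (by linarith) hD.le
      linarith
    have f6 : D * (n3 + j) + 1 ≤ (D * (n3 + 1) + 1) * j := by
      have g1 : (0:ℝ) ≤ n3 := Nat.cast_nonneg _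
      have g2 : D * n3 * 1 ≤ D * n3 * j := mul_le_mul_of_nonneg_left hj1 (by positivity)
      have g3 : (D * (n3 + 1) + 1) * j = D * n3 * j + D * j + j := by ring
      rw [g3]; linarith
    have f7 : (D * (n3 + 1) + 1) * j ≤ C5 * (j + Real.log (a + 2)) := by
      have g1 : D * (n3 + 1) + 1 ≤ C5 := by rw [hC5]; linarith
      calc (D * (n3 + 1) + 1) * j ≤ C5 * j := mul_le_mul_of_nonneg_right g1 (by positivity)
        _ ≤ C5 * (j + Real.log (a + 2)) := by
            apply mul_le_mul_of_nonneg_left (by linarith)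
            linarith
    linarith

/-- For `2^k > T` there are no `j`-gaps of normalised size `> (1 + 3ε) k` in the block at `T`. -/
lemma few_block_empty (hRH : RiemannHypothesis) {ε C A T0 : ℝ} (hε : 0 < ε) (hC : 0 ≤ C)
    (hA1 : 1 ≤ A) (h : FewBound ε C A T0) :
    ∃ A2 T2 : ℝ, 1 ≤ A2 ∧ ∀ T : ℝ, T2 ≤ T → ∀ j k : ℕ, 1 ≤ j → A2 * j ≤ k → T < (2:ℝ) ^ k →
      ∀ n : ℕ, 1 ≤ n → T ≤ ordinate n → ordinate n < 2 * T → jgap j n ≤ (1 + 3 * ε) * k := by
  obtain ⟨k1, hk1, T1, hT1, hb⟩ := few_block_bound hε hC hA1 h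
  obtain ⟨K, hK, hs⟩ := exists_small hε hC
  obtain ⟨C5, hC5, hJ⟩ := exists_jgap_le hRH
  refine ⟨C5 * (A + 4), max T1 (2 ^ (max k1 K)), by nlinarith,
    fun T hT j k hj hA2 hk n hn hn1 hn2 => ?_⟩
  by_contra hcon
  push Not at hcon
  have hT1' : T1 ≤ T := (le_max_left _ _).trans hT
  have hTK : (2:ℝ) ^ (max k1 K) ≤ T := (le_max_right _ _).trans hT
  have hTpos : 0 < T := by linarith
  set k' := Nat.log 2 ⌊T⌋₊ with hk'
  have hfl : ⌊T⌋₊ ≠ 0 := by
    have : 1 ≤ ⌊T⌋₊ := Nat.le_floor (by push_cast; linarith)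
    omega
  have h1 : (2:ℝ) ^ k' ≤ T := by
    have := Nat.pow_log_le_self 2 hfl
    calc (2:ℝ) ^ k' ≤ (⌊T⌋₊ : ℝ) := by exact_mod_cast this
      _ ≤ T := Nat.floor_le hTpos.le
  have h2 : T < (2:ℝ) ^ (k' + 1) := by
    have h3 := Nat.lt_pow_succ_log_self (b := 2) (by norm_num) ⌊T⌋₊
    have h4 := Nat.lt_floor_add_one T
    calc T < (⌊T⌋₊ : ℝ) + 1 := h4
      _ ≤ (2:ℝ) ^ (k' + 1) := by exact_mod_cast h3
  have h3 : k' < k := by
    have : (2:ℝ) ^ k' < 2 ^ k := h1.trans_lt hk
    exact (pow_lt_pow_iff_right₀ (by norm_num)).mp this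
  have h4 : max k1 K < k' + 1 := by
    have : (2:ℝ) ^ (max k1 K) < 2 ^ (k' + 1) := hTK.trans_lt h2
    exact (pow_lt_pow_iff_right₀ (by norm_num)).mp this
  have h5 : k1 ≤ k' := by have := le_max_left k1 K; omega
  have h6 : K ≤ k' := by have := le_max_right k1 K; omega
  have hj1 : (1:ℝ) ≤ j := by exact_mod_cast hj
  have hlog2 : Real.log 2 ≤ 1 := by
    have := Real.log_two_lt_d9; linarith
  rcases le_or_gt (A * j) k' with hAj | hAj
  · have h7 := hb T hT1' j k' hj h5 hAj h1 {n} (by
      intro m hm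
      rw [Finset.mem_singleton] at hm
      subst hm
      refine ⟨hn, hn1, hn2, lt_of_le_of_lt ?_ hcon⟩
      apply mul_le_mul_of_nonneg_left _ (by positivity)
      exact_mod_cast h3.le)
    have h8 := hs k' h6
    rw [Finset.card_singleton, Nat.cast_one] at h7
    have hlogT : Real.log T ≤ k' + 1 := by
      have h9 := Real.log_le_log hTpos h2.le
      rw [Real.log_pow] at h9
      push_cast at h9
      have h10 : ((k':ℝ) + 1) * Real.log 2 ≤ ((k':ℝ) + 1) * 1 :=
        mul_le_mul_of_nonneg_left hlog2 (by positivity)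
      linarith
    have hlog0 : 0 ≤ Real.log T := Real.log_nonneg (by linarith)
    have h9 : 1 / ε * (T * Real.log T) * (C / k') ^ k' ≤
        1 / ε * (2 ^ (k' + 1) * (k' + 1)) * (C / k') ^ k' := by
      apply mul_le_mul_of_nonneg_right _ (by positivity)
      apply mul_le_mul_of_nonneg_left _ (by positivity)
      exact mul_le_mul h2.le hlogT hlog0 (by positivity)
    linarith
  · have h7 := hJ n j hn hj
    have h8 : Real.log (ordinate n + 2) ≤ k' + 3 := by
      have h9 : ordinate n + 2 ≤ 2 ^ (k' + 3) := by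
        have : (2:ℝ) ^ (k' + 3) = 4 * 2 ^ (k' + 1) := by rw [pow_add, pow_add]; ring
        rw [this]
        have : (1:ℝ) ≤ 2 ^ (k' + 1) := one_le_pow₀ (by norm_num)
        linarith
      have h10 := Real.log_le_log (by linarith) h9
      rw [Real.log_pow] at h10
      push_cast at h10
      have h13 : ((k':ℝ) + 3) * Real.log 2 ≤ ((k':ℝ) + 3) * 1 :=
        mul_le_mul_of_nonneg_left hlog2 (by positivity)
      linarith
    have h11 : C5 * (j + Real.log (ordinate n + 2)) ≤ C5 * ((A + 4) * j) := by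
      apply mul_le_mul_of_nonneg_left _ (by linarith)
      linarith
    have h12 : (0:ℝ) ≤ ε * k := by positivity
    have h14 : C5 * ((A + 4) * j) = C5 * (A + 4) * j := by ring
    linarith

/-- The number of `n ≤ N` with `γ̃_{n+j} - γ̃_n > s`. -/
noncomputable def largeJGapCount (j N : ℕ) (s : ℝ) : ℕ :=
  {n ∈ Finset.Icc 1 N | s < jgap j n}.card

theorem tail_of_fewBound (hRH : RiemannHypothesis) {ε C A T0 : ℝ} (hε : 0 < ε)
    (hε1 : ε < 1 / 4) (hC : 0 < C) (hA1 : 1 ≤ A) (hV : FewBound ε C A T0) {c T0' : ℝ}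
    (hc : 0 < c) (hL : CountLower c T0') :
    ∃ B : ℝ, 1 ≤ B ∧ ∀ j : ℕ, 1 ≤ j → ∀ s : ℝ, B * j ≤ s → ∀ N : ℕ,
      (largeJGapCount j N s : ℝ) ≤ N * Real.exp (-(1 - 4 * ε) * (s * Real.log s)) := by
  obtain ⟨k1, hk1, T1, hT1, hblock⟩ := few_block_bound hε hC.le hA1 hV
  obtain ⟨A2, T2, hA2, hempty⟩ := few_block_empty hRH hε hC.le hA1 hV
  obtain ⟨s1, hs1, hfinal⟩ := final_ineq hε hε1 hC (M := 8 / (ε * c)) (by positivity)
  obtain ⟨C5, hC5, hJ⟩ := exists_jgap_le hRH
  set T3 : ℝ := max (max T1 T2) (max 4 (2 * T0')) with hT3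
  have hT13 : T1 ≤ T3 := (le_max_left _ _).trans (le_max_left _ _)
  have hT23 : T2 ≤ T3 := (le_max_right _ _).trans (le_max_left _ _)
  have hT43 : 4 ≤ T3 := (le_max_left _ _).trans (le_max_right _ _)
  have hT03 : 2 * T0' ≤ T3 := (le_max_right _ _).trans (le_max_right _ _)
  have hT3pos : 0 < T3 := by linarith
  have hlT3 : 0 ≤ Real.log (T3 + 2) := Real.log_nonneg (by linarith)
  -- gaps at small height
  set D : ℝ := C5 * (1 + Real.log (T3 + 2)) with hDdef
  have hD : ∀ j n : ℕ, 1 ≤ j → 1 ≤ n → ordinate n < T3 → jgap j n ≤ D * j := by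
    intro j n hj hn hlt
    have hj1 : (1:ℝ) ≤ j := by exact_mod_cast hj
    have hpos := ordinate_pos (zeroCount_unbounded n) hn
    have h1 := hJ n j hn hj
    have h2 : Real.log (ordinate n + 2) ≤ Real.log (T3 + 2) :=
      Real.log_le_log (by linarith) (by linarith)
    have h3 : (j:ℝ) + Real.log (ordinate n + 2) ≤ (1 + Real.log (T3 + 2)) * j := by
      have := mul_le_mul_of_nonneg_left hj1 hlT3
      linarith
    calc jgap j n ≤ C5 * (j + Real.log (ordinate n + 2)) := h1
      _ ≤ C5 * ((1 + Real.log (T3 + 2)) * j) := mul_le_mul_of_nonneg_left h3 (by linarith)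
      _ = _ := by rw [hDdef]; ring
  have hD0 : 0 ≤ D := by positivity
  set B := s1 + D + (1 + 3 * ε) * (k1 + A + A2 + 1) with hBdef
  have hk1pos : (0:ℝ) ≤ k1 := Nat.cast_nonneg _
  have hBpos : 0 ≤ (1 + 3 * ε) * (k1 + A + A2 + 1) := by positivity
  refine ⟨B, by rw [hBdef]; linarith, fun j hj s hs N => ?_⟩
  have hj1 : (1:ℝ) ≤ j := by exact_mod_cast hj
  have hBj : s1 + D * j + (1 + 3 * ε) * ((k1 + A + A2) * j + 1) ≤ s := by
    refine le_trans ?_ hs
    rw [hBdef]
    have e1 : s1 * 1 ≤ s1 * j := mul_le_mul_of_nonneg_left hj1 (by linarith)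
    have e2 : (1 + 3 * ε) * ((k1 + A + A2) * j + 1) ≤ (1 + 3 * ε) * ((k1 + A + A2 + 1) * j) := by
      apply mul_le_mul_of_nonneg_left _ (by positivity)
      linarith
    have e3 : (s1 + D + (1 + 3 * ε) * (k1 + A + A2 + 1)) * j =
        s1 * j + D * j + (1 + 3 * ε) * ((k1 + A + A2 + 1) * j) := by ring
    rw [e3]; linarith
  have hpos1 : 0 ≤ (1 + 3 * ε) * ((k1 + A + A2) * j + 1) := by positivity
  have hpos2 : 0 ≤ D * j := by positivity
  have hss1 : s1 ≤ s := by linarith
  have hsD : D * j ≤ s := by linarith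
  have hspos : 0 < s := by linarith
  set k := ⌊s / (1 + 3 * ε)⌋₊ with hk
  have hkle : (1 + 3 * ε) * k ≤ s := by
    have := Nat.floor_le (show 0 ≤ s / (1 + 3 * ε) by positivity)
    rw [← hk, le_div_iff₀ (by positivity)] at this
    linarith
  have hkge : (k1 + A + A2) * j ≤ k := by
    have h1 := Nat.lt_floor_add_one (s / (1 + 3 * ε))
    rw [← hk, div_lt_iff₀ (by positivity)] at h1
    have h2 : (1 + 3 * ε) * ((k1 + A + A2) * j + 1) < (k + 1) * (1 + 3 * ε) := by linarith
    have h3 : ((k1 + A + A2) * j + 1) * (1 + 3 * ε) < (k + 1) * (1 + 3 * ε) := by linarith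
    have h4 := lt_of_mul_lt_mul_right h3 (by positivity)
    linarith
  have hexp : (k1 + A + A2) * j = k1 * j + A * j + A2 * j := by ring
  have hp1 : (k1:ℝ) * 1 ≤ k1 * j := mul_le_mul_of_nonneg_left hj1 hk1pos
  have hp2 : 0 ≤ A * j := by positivity
  have hp3 : 0 ≤ A2 * j := by positivity
  have hk1k : k1 ≤ k := by
    have : (k1:ℝ) ≤ k := by linarith
    exact_mod_cast this
  have hAk : A * j ≤ k := by linarith
  have hA2k : A2 * j ≤ k := by linarith
  have hkpos : (0:ℝ) < k := by exact_mod_cast (by omega : 0 < k)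
  set E := {n ∈ Finset.Icc 1 N | s < jgap j n} with hE
  have hmemE : ∀ n, n ∈ E ↔ (1 ≤ n ∧ n ≤ N) ∧ s < jgap j n := by
    intro n; rw [hE, Finset.mem_filter, Finset.mem_Icc]
  have hET3 : ∀ n ∈ E, T3 ≤ ordinate n := by
    intro n hn
    by_contra hcon
    push Not at hcon
    rw [hmemE] at hn
    have := hD j n hj hn.1.1 hcon
    linarith [hn.2]
  change (E.card : ℝ) ≤ _
  rcases E.eq_empty_or_nonempty with hemp | ⟨n0, hn0⟩
  · rw [hemp, Finset.card_empty, Nat.cast_zero]; positivity
  have hn0' := (hmemE n0).mp hn0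
  have hN1 : 1 ≤ N := by omega
  set g := ordinate N with hg
  have hgmono : ∀ n ∈ E, ordinate n ≤ g := by
    intro n hn
    have := (hmemE n).mp hn
    exact ordinate_mono (zeroCount_unbounded N) this.1.1 this.1.2
  have hgT3 : T3 ≤ g := (hET3 n0 hn0).trans (hgmono n0 hn0)
  have hgpos : 0 < g := by linarith
  -- the number of dyadic blocks
  obtain ⟨J0, hJ0⟩ : ∃ J : ℕ, g < T3 * 2 ^ J := by
    obtain ⟨J, hJ⟩ := pow_unbounded_of_one_lt (g / T3) (show (1:ℝ) < 2 by norm_num)
    refine ⟨J, ?_⟩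
    rw [div_lt_iff₀ hT3pos] at hJ
    linarith
  classical
  have hexJ : ∃ J : ℕ, g < T3 * 2 ^ J := ⟨J0, hJ0⟩
  set J := Nat.find hexJ with hJdef
  have hJspec : g < T3 * 2 ^ J := Nat.find_spec hexJ
  have hJmin : ∀ i < J, T3 * 2 ^ i ≤ g := fun i hi => not_lt.mp (Nat.find_min hexJ hi)
  set Ei : ℕ → Finset ℕ := fun i =>
    E.filter (fun n => T3 * 2 ^ i ≤ ordinate n ∧ ordinate n < 2 * (T3 * 2 ^ i)) with hEi
  have hcover : E ⊆ (Finset.range J).biUnion Ei := by
    intro n hn
    have h1 := hET3 n hn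
    have h2 := hgmono n hn
    have hex : ∃ i : ℕ, ordinate n < T3 * 2 ^ i := ⟨J, lt_of_le_of_lt h2 hJspec⟩
    set i := Nat.find hex with hi
    have hi1 : ordinate n < T3 * 2 ^ i := Nat.find_spec hex
    have hi0 : i ≠ 0 := by
      intro h0
      rw [h0] at hi1
      simp at hi1
      linarith
    obtain ⟨i', hi'⟩ := Nat.exists_eq_succ_of_ne_zero hi0
    have hj1 : T3 * 2 ^ i' ≤ ordinate n := not_lt.mp (Nat.find_min hex (by omega))
    have hiJ : i ≤ J := Nat.find_min' hex (lt_of_le_of_lt h2 hJspec)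
    rw [Finset.mem_biUnion]
    refine ⟨i', Finset.mem_range.mpr (by omega), ?_⟩
    rw [hEi, Finset.mem_filter]
    refine ⟨hn, hj1, ?_⟩
    rw [hi', Nat.succ_eq_add_one, pow_succ] at hi1
    linarith
  have hlogg : 0 ≤ Real.log g := Real.log_nonneg (by linarith)
  -- each block
  have hEicard : ∀ i ∈ Finset.range J, ((Ei i).card : ℝ) ≤
      1 / ε * (T3 * 2 ^ i * Real.log g) * (C / k) ^ k := by
    intro i hi
    rw [Finset.mem_range] at hi
    have hTi := hJmin i hi
    have hTge : T3 ≤ T3 * 2 ^ i := by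
      have : (1:ℝ) ≤ 2 ^ i := one_le_pow₀ (by norm_num)
      nlinarith
    rcases le_or_gt ((2:ℝ) ^ k) (T3 * 2 ^ i) with h2k | h2k
    · have h1 := hblock (T3 * 2 ^ i) (hT13.trans hTge) j k hj hk1k hAk h2k (Ei i) (by
        intro n hn
        rw [hEi, Finset.mem_filter, hmemE] at hn
        exact ⟨hn.1.1.1, hn.2.1, hn.2.2, lt_of_le_of_lt hkle hn.1.2⟩)
      refine h1.trans ?_
      apply mul_le_mul_of_nonneg_right _ (by positivity)
      apply mul_le_mul_of_nonneg_left _ (by positivity)
      apply mul_le_mul_of_nonneg_left _ (by positivity)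
      exact Real.log_le_log (by positivity) hTi
    · have h1 : Ei i = ∅ := by
        rw [Finset.eq_empty_iff_forall_notMem]
        intro n hn
        rw [hEi, Finset.mem_filter, hmemE] at hn
        have h2 := hempty (T3 * 2 ^ i) (hT23.trans hTge) j k hj hA2k h2k n hn.1.1.1 hn.2.1 hn.2.2
        linarith [hn.1.2]
      rw [h1, Finset.card_empty, Nat.cast_zero]
      positivity
  have hcard : (E.card : ℝ) ≤ ∑ i ∈ Finset.range J, ((Ei i).card : ℝ) := by
    calc (E.card : ℝ) ≤ (((Finset.range J).biUnion Ei).card : ℝ) := by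
          exact_mod_cast Finset.card_le_card hcover
      _ ≤ ((∑ i ∈ Finset.range J, (Ei i).card : ℕ) : ℝ) := by
          exact_mod_cast Finset.card_biUnion_le
      _ = _ := by push_cast; rfl
  have hgeom : ∑ i ∈ Finset.range J, (T3 * 2 ^ i) ≤ 2 * g := by
    rw [← Finset.mul_sum, geom_sum_eq (by norm_num)]
    rcases Nat.eq_zero_or_pos J with h0 | h0
    · rw [h0]; simp; linarith
    · have h1 := hJmin (J - 1) (by omega)
      have h2 : (2:ℝ) ^ J = 2 * 2 ^ (J - 1) := by
        rw [← pow_succ']; congr 1; omega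
      rw [h2]
      nlinarith
  have hsum : (E.card : ℝ) ≤ 1 / ε * (2 * g * Real.log g) * (C / k) ^ k := by
    refine hcard.trans ((Finset.sum_le_sum hEicard).trans ?_)
    have : ∑ i ∈ Finset.range J, 1 / ε * (T3 * 2 ^ i * Real.log g) * (C / k) ^ k =
        (1 / ε * Real.log g * (C / k) ^ k) * ∑ i ∈ Finset.range J, (T3 * 2 ^ i) := by
      rw [Finset.mul_sum]
      exact Finset.sum_congr rfl fun i _ => by ring
    rw [this]
    calc (1 / ε * Real.log g * (C / k) ^ k) * ∑ i ∈ Finset.range J, (T3 * 2 ^ i)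
        ≤ (1 / ε * Real.log g * (C / k) ^ k) * (2 * g) :=
          mul_le_mul_of_nonneg_left hgeom (by positivity)
      _ = _ := by ring
  have hNg := ordinate_mul_log_le hc hL hN1 (by linarith : 4 ≤ ordinate N) (by linarith)
  rw [← hg] at hNg
  calc (E.card : ℝ) ≤ 1 / ε * (2 * g * Real.log g) * (C / k) ^ k := hsum
    _ = 2 / ε * (g * Real.log g) * (C / k) ^ k := by ring
    _ ≤ 2 / ε * (4 / c * N) * (C / k) ^ k := by
        apply mul_le_mul_of_nonneg_right _ (by positivity)
        exact mul_le_mul_of_nonneg_left hNg (by positivity)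
    _ = N * (8 / (ε * c) * (C / k) ^ k) := by ring
    _ ≤ _ := mul_le_mul_of_nonneg_left (hfinal s hss1) (Nat.cast_nonneg _)

end Pool.Agent.ZetaGaps
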