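import Pool.Agent.ZetaGaps.FewCombine
import Pool.Agent.ZGap.FewMeasure

/-!
# The tail bound for `j`-th neighbour spacings under RH
-/

open MeasureTheory
open Pool.Agent.Hadamard (ntz mult)

namespace Pool.Agent.ZetaGaps

theorem exists_fewBound (hRH : RiemannHypothesis) {ε : ℝ} (hε : 0 < ε) :
    ∃ C A T0 : ℝ, 0 < C ∧ 1 ≤ A ∧ FewBound ε C A T0 := by
  obtain ⟨C, A, T0, hC, hT0, hA, h⟩ := Pool.Agent.ZGap.exists_few_measure hRH hε
  refine ⟨C, A, T0, hC, hA, fun T hT j k hAj h2k => ?_⟩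
  have h1 := h T hT j k hAj h2k
  have hsub : {t | t ∈ Set.Icc T (3 * T) ∧ Few j (Real.pi * (1 + ε) * k / Real.log T) t} ⊆
      {t : ℝ | t ∈ Set.Icc T (3 * T) ∧ ∀ F : Finset ntz,
        (∀ ρ ∈ F, |(ρ : ℂ).im - t| < Real.pi * (1 + ε) * k / Real.log T) →
          ∑ ρ ∈ F, mult ρ ≤ j} := by
    rintro t ⟨ht, hF⟩
    refine ⟨ht, fun F hFr => ?_⟩
    have h2 := hF (F.map (Function.Embedding.subtype _)) (by
      intro ρ hρ
      rw [Finset.mem_map] at hρ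
      obtain ⟨x, hx, rfl⟩ := hρ
      exact ⟨x.2, hFr x hx⟩)
    rwa [Finset.sum_map] at h2
  have hfin : volume {t : ℝ | t ∈ Set.Icc T (3 * T) ∧ ∀ F : Finset ntz,
        (∀ ρ ∈ F, |(ρ : ℂ).im - t| < Real.pi * (1 + ε) * k / Real.log T) →
          ∑ ρ ∈ F, mult ρ ≤ j} ≠ ⊤ := by
    refine ne_top_of_le_ne_top ?_ (measure_mono (t := Set.Icc T (3 * T)) fun t ht => ht.1)
    rw [Real.volume_Icc]
    exact ENNReal.ofReal_ne_top
  refine (measure_mono hsub).trans ?_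
  rw [← ENNReal.ofReal_toReal hfin]
  exact ENNReal.ofReal_le_ofReal h1

/-- `#{n ≤ N : γ̃_{n+j} - γ̃_n > s} ≤ N exp(-(1-ε) s log s)` for `s ≥ B(ε) j`, all `N`. -/
theorem largeJGapTail (hRH : RiemannHypothesis) {ε : ℝ} (hε : 0 < ε) :
    ∃ B : ℝ, 1 ≤ B ∧ ∀ j : ℕ, 1 ≤ j → ∀ s : ℝ, B * j ≤ s → ∀ N : ℕ,
      (largeJGapCount j N s : ℝ) ≤ N * Real.exp (-(1 - ε) * (s * Real.log s)) := by
  set ε' : ℝ := min ε (1 / 2) / 4 with hε'
  have h1 : 0 < ε' := by positivity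
  have h2 : ε' < 1 / 4 := by
    have := min_le_right ε (1 / 2)
    rw [hε']; linarith
  have h3 : 4 * ε' ≤ ε := by
    have := min_le_left ε (1 / 2)
    rw [hε']; linarith
  obtain ⟨C, A, T0, hC, hA, hV⟩ := exists_fewBound hRH h1
  obtain ⟨T0', hL⟩ := exists_countLower hRH
  obtain ⟨B, hB, h⟩ := tail_of_fewBound hRH h1 h2 hC hA hV (by norm_num) hL
  refine ⟨B, hB, fun j hj s hs N => (h j hj s hs N).trans ?_⟩
  apply mul_le_mul_of_nonneg_left _ (Nat.cast_nonneg _)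
  rw [Real.exp_le_exp]
  have hj1 : (1:ℝ) ≤ j := by exact_mod_cast hj
  have hs1 : 1 ≤ s := by nlinarith
  have h4 : 0 ≤ s * Real.log s := mul_nonneg (by linarith) (Real.log_nonneg hs1)
  nlinarith

end Pool.Agent.ZetaGaps
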