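import Pool.Agent.ZetaGaps.Basic

/-!
# Local bounds for the number of zeros
-/

open Complex Filter Topology
open Pool.Agent.Hadamard (ntz mult)

namespace Pool.Agent.ZetaGaps

lemma two_add_mul_I_re (t : ℝ) : ((2:ℂ) + t * I).re = 2 := by simp

lemma two_add_mul_I_im (t : ℝ) : ((2:ℂ) + t * I).im = t := by simp

lemma norm_logDeriv_zeta_two : ∃ C : ℝ, 0 ≤ C ∧ ∀ t : ℝ,
    ‖logDeriv riemannZeta (2 + t * I)‖ ≤ C := by
  have hsum := (ArithmeticFunction.LSeriesSummable_vonMangoldt (s := (2:ℂ)) (by simp)).norm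
  refine ⟨∑' n, ‖LSeries.term (fun n => ((ArithmeticFunction.vonMangoldt n : ℝ) : ℂ)) 2 n‖,
    tsum_nonneg fun n => norm_nonneg _, fun t => ?_⟩
  have hs : 1 < ((2:ℂ) + t * I).re := by rw [two_add_mul_I_re]; norm_num
  have h1 := ArithmeticFunction.LSeries_vonMangoldt_eq_deriv_riemannZeta_div hs
  rw [logDeriv_apply, ← norm_neg, ← neg_div, ← h1]
  have heq : ∀ n, ‖LSeries.term (fun n => ((ArithmeticFunction.vonMangoldt n : ℝ) : ℂ))
      (2 + t * I) n‖ =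
      ‖LSeries.term (fun n => ((ArithmeticFunction.vonMangoldt n : ℝ) : ℂ)) 2 n‖ := by
    intro n
    rw [LSeries.norm_term_eq, LSeries.norm_term_eq, two_add_mul_I_re]
    simp
  have hsum' : Summable (fun n => ‖LSeries.term
      (fun n => ((ArithmeticFunction.vonMangoldt n : ℝ) : ℂ)) (2 + t * I) n‖) := by
    simp_rw [heq]; exact hsum
  calc ‖LSeries (fun n => ((ArithmeticFunction.vonMangoldt n : ℝ) : ℂ)) (2 + t * I)‖
      ≤ ∑' n, ‖LSeries.term (fun n => ((ArithmeticFunction.vonMangoldt n : ℝ) : ℂ))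
          (2 + t * I) n‖ := norm_tsum_le_tsum_norm hsum'
    _ = _ := by simp_rw [heq]

/-- The Poisson-type sum over the zeros at height `t`. -/
noncomputable def PS (t : ℝ) : ℝ :=
  ∑' ρ : ntz, (mult ρ : ℝ) * (1 / ((2:ℂ) + t * I - ρ)).re

lemma hasSum_PS (t : ℝ) : HasSum (fun ρ : ntz => (mult ρ : ℝ) * (1 / ((2:ℂ) + t * I - ρ)).re)
    (PS t) := by
  have hs : 1 ≤ ((2:ℂ) + t * I).re := by rw [two_add_mul_I_re]; norm_num
  have hs1 : (2:ℂ) + t * I ≠ 1 := by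
    intro h
    have := congrArg Complex.re h
    rw [two_add_mul_I_re] at this
    norm_num at this
  exact (Hadamard.hasSum_re_zeros hs hs1).summable.hasSum

lemma PS_bound : ∃ C : ℝ, 0 < C ∧ ∀ t : ℝ, 1 ≤ |t| → |PS t - Real.log |t| / 2| ≤ C := by
  obtain ⟨C1, hC1, h1⟩ := norm_logDeriv_zeta_two
  obtain ⟨C2, hC2, h2⟩ := Hadamard.re_digamma_half
  have hlogpi : 0 ≤ Real.log Real.pi := Real.log_nonneg (by linarith [Real.pi_gt_three])
  have hlog2 : 0 ≤ Real.log 2 := Real.log_nonneg (by norm_num)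
  refine ⟨C1 + C2 + 2 + Real.log Real.pi + Real.log 2, by positivity, fun t ht => ?_⟩
  have hs : 1 ≤ ((2:ℂ) + t * I).re := by rw [two_add_mul_I_re]; norm_num
  have hs1 : (2:ℂ) + t * I ≠ 1 := by
    intro h
    have := congrArg Complex.re h
    rw [two_add_mul_I_re] at this
    norm_num at this
  have h3 := (Hadamard.hasSum_re_zeros hs hs1).unique (hasSum_PS t)
  rw [← h3]
  have a1 : |(logDeriv riemannZeta (2 + t * I)).re| ≤ C1 := (abs_re_le_norm _).trans (h1 t)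
  have a2 : |(1 / ((2:ℂ) + t * I - 1)).re| ≤ 1 := by
    refine (abs_re_le_norm _).trans ?_
    rw [norm_div, norm_one]
    rw [div_le_one_iff]
    left
    have hre : ((2:ℂ) + t * I - 1).re = 1 := by simp; norm_num
    have hge : 1 ≤ ‖(2:ℂ) + t * I - 1‖ := by
      calc (1:ℝ) = |((2:ℂ) + t * I - 1).re| := by rw [hre]; simp
        _ ≤ _ := abs_re_le_norm _
    exact ⟨by linarith, hge⟩
  have a3 : |(1 / ((2:ℂ) + t * I)).re| ≤ 1 := by
    refine (abs_re_le_norm _).trans ?_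
    rw [norm_div, norm_one]
    rw [div_le_one_iff]
    left
    have hge : 1 ≤ ‖(2:ℂ) + t * I‖ := by
      calc (1:ℝ) ≤ |((2:ℂ) + t * I).re| := by rw [two_add_mul_I_re]; norm_num
        _ ≤ _ := abs_re_le_norm _
    exact ⟨by linarith, hge⟩
  have a4 := h2 2 t (by norm_num) (by norm_num) ht
  have a5 : C2 / |t| ≤ C2 := div_le_self hC2.le ht
  have a6 : Real.log (|t| / 2) = Real.log |t| - Real.log 2 :=
    Real.log_div (by positivity) (by norm_num)
  rw [a6] at a4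
  have a7 : (((2:ℝ) : ℂ) + t * I) / 2 = ((2:ℂ) + t * I) / 2 := by norm_num
  rw [a7] at a4
  rw [abs_le] at a1 a2 a3 a4 ⊢
  constructor
  · linarith [a1.1, a2.1, a3.1, a4.1]
  · linarith [a1.2, a2.2, a3.2, a4.2]

lemma term_nonneg (t : ℝ) (ρ : ntz) : 0 ≤ (mult ρ : ℝ) * (1 / ((2:ℂ) + t * I - ρ)).re := by
  apply mul_nonneg (Nat.cast_nonneg _)
  apply (Hadamard.re_one_div_pos _).le
  rw [two_add_mul_I_re]
  linarith [ρ.2.2.2]

/-- Lower bound for one term of the Poisson sum. -/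
lemma re_term_ge {t : ℝ} {ρ : ℂ} (hρ : ρ ∈ ntz) {H : ℝ} (h : |ρ.im - t| ≤ H) :
    1 / (4 + H ^ 2) ≤ (1 / ((2:ℂ) + t * I - ρ)).re := by
  rw [one_div, one_div, Complex.inv_re]
  have hre : ((2:ℂ) + t * I - ρ).re = 2 - ρ.re := by simp
  have him : ((2:ℂ) + t * I - ρ).im = t - ρ.im := by simp
  rw [Complex.normSq_apply, hre, him]
  have h1 := hρ.2.1
  have h2 := hρ.2.2
  have h3 : (t - ρ.im) * (t - ρ.im) ≤ H ^ 2 := by
    have : (t - ρ.im) * (t - ρ.im) = |ρ.im - t| ^ 2 := by rw [sq_abs]; ring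
    rw [this]
    exact pow_le_pow_left₀ (abs_nonneg _) h 2
  have hpos : 0 < (2 - ρ.re) * (2 - ρ.re) + (t - ρ.im) * (t - ρ.im) := by nlinarith [mul_self_nonneg (t - ρ.im)]
  rw [← one_div, div_le_div_iff₀ (by positivity) hpos]
  nlinarith [mul_self_nonneg (t - ρ.im)]

/-- Finite version: any finite set of zeros within `H` of height `t`. -/
lemma sum_mult_le_PS {t H : ℝ} (F : Finset ℂ) (hF : ∀ ρ ∈ F, ρ ∈ ntz ∧ |ρ.im - t| ≤ H) :
    (∑ ρ ∈ F, (mult ρ : ℝ)) ≤ (4 + H ^ 2) * PS t := by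
  classical
  set G : Finset ntz := F.attach.image (fun ρ => (⟨ρ.1, (hF ρ.1 ρ.2).1⟩ : ntz)) with hG
  have hinj : Function.Injective (fun ρ : {x // x ∈ F} => (⟨ρ.1, (hF ρ.1 ρ.2).1⟩ : ntz)) := by
    intro a b hab
    apply Subtype.ext
    exact congrArg (fun x : ntz => (x : ℂ)) hab
  have h1 : ∑ ρ ∈ G, (mult ρ : ℝ) * (1 / ((2:ℂ) + t * I - ρ)).re ≤ PS t :=
    sum_le_hasSum G (fun ρ _ => term_nonneg t ρ) (hasSum_PS t)
  rw [hG, Finset.sum_image (fun a _ b _ h => hinj h)] at h1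
  have h2 : ∑ ρ ∈ F.attach, (mult ρ.1 : ℝ) * (1 / (4 + H ^ 2)) ≤
      ∑ ρ ∈ F.attach, (mult ρ.1 : ℝ) * (1 / ((2:ℂ) + t * I - ρ.1)).re := by
    apply Finset.sum_le_sum
    intro ρ _
    apply mul_le_mul_of_nonneg_left _ (Nat.cast_nonneg _)
    exact re_term_ge (hF ρ.1 ρ.2).1 (hF ρ.1 ρ.2).2
  rw [← Finset.sum_mul] at h2
  rw [Finset.sum_attach F (fun ρ => (mult ρ : ℝ))] at h2
  have h3 := h2.trans h1
  have h4 : (0:ℝ) < 4 + H ^ 2 := by positivity
  rw [mul_one_div, div_le_iff₀ h4] at h3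
  linarith

/-- `N(T+h) - N(T) ≪ log T` for bounded `h`. -/
theorem zeroCount_add_le : ∃ C : ℝ, 0 < C ∧ ∀ T H : ℝ, 1 ≤ T → 0 ≤ H →
    (zeroCount (T + H) : ℝ) ≤ zeroCount T + (4 + H ^ 2) * (Real.log T / 2 + C) := by
  obtain ⟨C, hC, h⟩ := PS_bound
  refine ⟨C, hC, fun T H hT hH => ?_⟩
  rw [zeroCount_sub (show T ≤ T + H by linarith)]
  push_cast
  have h1 := sum_mult_le_PS (t := T) (H := H)
    ((finite_zerosUpTo (T + H)).toFinset.filter (fun ρ => T < ρ.im)) (by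
      intro ρ hρ
      rw [Finset.mem_filter, Set.Finite.mem_toFinset, mem_zerosUpTo] at hρ
      refine ⟨hρ.1.1, ?_⟩
      rw [abs_le]
      constructor <;> linarith [hρ.2, hρ.1.2.2])
  have h2 := h T (by rw [abs_of_pos (by linarith)]; exact hT)
  rw [abs_of_pos (show 0 < T by linarith), abs_le] at h2
  have h3 : (4 + H ^ 2) * PS T ≤ (4 + H ^ 2) * (Real.log T / 2 + C) :=
    mul_le_mul_of_nonneg_left (by linarith [h2.2]) (by positivity)
  linarith

end Pool.Agent.ZetaGaps
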