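import Pool.Agent.ZGap.ClusterMeasure

/-!
# Fourth moment of a local counting function of the zeros, under RH
-/

open Complex Filter Topology MeasureTheory Set
open Pool.Agent.Hadamard Pool.Agent.DirPoly Pool.Agent.ZGap

namespace Pool.Agent.ZetaGaps

lemma fejer_ge {D : ℝ} (hD : 0 < D) (x : ℝ) :
    D * (1 - Real.cos (D * x)) / (|D * x| + Real.pi) ^ 2 ≤ Gen.FF fejerData D x := by
  have hpi := Real.pi_pos
  by_cases hx : x = 0
  · subst hx
    simp only [mul_zero, Real.cos_zero, sub_self, mul_zero, zero_div]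
    exact fejer_nonneg hD 0
  · rw [fejer_closed hD hx]
    have h1 : (1 - Real.cos (D * x)) / (D * x ^ 2) = D * (1 - Real.cos (D * x)) / (D * x) ^ 2 := by
      field_simp
    rw [h1]
    have h2 : 0 ≤ D * (1 - Real.cos (D * x)) :=
      mul_nonneg hD.le (by linarith [Real.cos_le_one (D * x)])
    have h3 : 0 < (D * x) ^ 2 := by positivity
    apply div_le_div_of_nonneg_left h2 h3
    rw [← sq_abs (D * x)]
    have := abs_nonneg (D * x)
    gcongr
    linarith

lemma majorant_le {D : ℝ} (hD : 0 < D) (x : ℝ) :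
    D / (1 + (D * x) ^ 2) ≤
      4 * Real.pi ^ 2 * (Gen.FF fejerData D x + Gen.FF fejerData D (x + Real.pi / D)) := by
  have hpi := Real.pi_pos
  have hpi1 : 1 ≤ Real.pi := by linarith [Real.pi_gt_three]
  set y := D * x with hy
  have h1 := fejer_ge hD x
  have h2 := fejer_ge hD (x + Real.pi / D)
  have e2 : D * (x + Real.pi / D) = y + Real.pi := by rw [hy]; field_simp
  rw [e2, Real.cos_add_pi] at h2
  rw [← hy] at h1
  have h3 : D * (1 - Real.cos y) / (|y| + Real.pi) ^ 2 ≥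
      D * (1 - Real.cos y) / (|y| + 2 * Real.pi) ^ 2 := by
    have h2 : 0 ≤ D * (1 - Real.cos y) :=
      mul_nonneg hD.le (by linarith [Real.cos_le_one y])
    apply div_le_div_of_nonneg_left h2 (by positivity)
    have := abs_nonneg y
    gcongr
    linarith
  have h4 : D * (1 - -Real.cos y) / (|y + Real.pi| + Real.pi) ^ 2 ≥
      D * (1 + Real.cos y) / (|y| + 2 * Real.pi) ^ 2 := by
    rw [sub_neg_eq_add]
    have h2 : 0 ≤ D * (1 + Real.cos y) :=
      mul_nonneg hD.le (by linarith [Real.neg_one_le_cos y])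
    apply div_le_div_of_nonneg_left h2 (by positivity)
    have h5 : |y + Real.pi| ≤ |y| + Real.pi := by
      have := abs_add_le y Real.pi
      rwa [abs_of_pos hpi] at this
    have := abs_nonneg y
    gcongr ?_ ^ 2
    linarith
  have h5 : D * (1 - Real.cos y) / (|y| + 2 * Real.pi) ^ 2 +
      D * (1 + Real.cos y) / (|y| + 2 * Real.pi) ^ 2 = 2 * D / (|y| + 2 * Real.pi) ^ 2 := by
    rw [← add_div]; congr 1; ring
  have h6 : (|y| + 2 * Real.pi) ^ 2 ≤ 8 * Real.pi ^ 2 * (1 + y ^ 2) := by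
    have e1 : (|y| + 2 * Real.pi) ^ 2 ≤ 2 * (|y| ^ 2 + (2 * Real.pi) ^ 2) := by
      nlinarith [sq_nonneg (|y| - 2 * Real.pi)]
    rw [sq_abs] at e1
    have e2 : 1 ≤ Real.pi ^ 2 := by nlinarith
    have e3 : 0 ≤ y ^ 2 := sq_nonneg y
    nlinarith
  have h7 : D / (1 + y ^ 2) ≤ 4 * Real.pi ^ 2 * (2 * D / (|y| + 2 * Real.pi) ^ 2) := by
    have e0 : 0 < (|y| + 2 * Real.pi) ^ 2 := by
      have := abs_nonneg y
      positivity
    have e1 : 4 * Real.pi ^ 2 * (2 * D / (|y| + 2 * Real.pi) ^ 2) =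
        (8 * Real.pi ^ 2 * D) / (|y| + 2 * Real.pi) ^ 2 := by ring
    rw [e1, div_le_div_iff₀ (by positivity) e0]
    calc D * (|y| + 2 * Real.pi) ^ 2 ≤ D * (8 * Real.pi ^ 2 * (1 + y ^ 2)) := by gcongr
      _ = _ := by ring
  refine h7.trans ?_
  apply mul_le_mul_of_nonneg_left _ (by positivity)
  linarith

lemma prime_int_le {x : ℕ} {T B h : ℝ} (hT : 1 ≤ T) (hx : 2 ≤ x) (hxT : (x : ℝ) ^ 2 ≤ T)
    (hh0 : 0 ≤ h) (hh : h ≤ T) (b : ℕ → ℂ) (hb : ∀ n, ‖b n‖ ≤ B) :
    ∫ t in T..(2 * T), ‖primePoly b x (t + h)‖ ^ 4 ≤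
      24 * T * (2 * (6 * B ^ 2 * Real.log x ^ 2) ^ 2) := by
  have hT0 : 0 < T := by linarith
  have hc := primePoly_continuous b x
  have h3T : (0:ℝ) < 3 * T := by linarith
  have hmom := primePoly_moment (k := 2) h3T hx (by linarith) b hb
  have hint : Integrable (fun t : ℝ => ‖primePoly b x t‖ ^ 4 * fejerW (t / (3 * T))) := by
    have h2 : Integrable (fun t : ℝ => fejerW (t / (3 * T))) := fejerW_integrable.comp_div h3T.ne'
    have h3 : ∃ M : ℝ, ∀ t, ‖primePoly b x t‖ ≤ M := by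
      refine ⟨∑ p ∈ (Finset.Icc 1 x).filter Nat.Prime,
        ‖(Real.log p : ℂ) * b p * (p : ℂ) ^ (-(1 / 2) : ℂ)‖, fun t => ?_⟩
      refine (norm_sum_le _ _).trans (Finset.sum_le_sum fun p hp => ?_)
      rw [norm_mul, Complex.norm_natCast_cpow_of_pos (Finset.mem_filter.mp hp).2.pos]
      simp
    obtain ⟨M, hM⟩ := h3
    refine (h2.const_mul (M ^ 4)).mono' ?_ ?_
    · have h4 := fejerW_continuous
      exact Continuous.aestronglyMeasurable (by fun_prop)
    · refine Filter.Eventually.of_forall fun t => ?_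
      rw [norm_mul, norm_pow, norm_norm, Real.norm_of_nonneg (fejerW_nonneg _)]
      have := fejerW_nonneg (t / (3 * T))
      gcongr
      exact hM t
  have e1 : ∫ t in T..(2 * T), ‖primePoly b x (t + h)‖ ^ 4 =
      ∫ t in (T + h)..(2 * T + h), ‖primePoly b x t‖ ^ 4 := by
    rw [intervalIntegral.integral_comp_add_right (fun t => ‖primePoly b x t‖ ^ 4)]
  rw [e1, intervalIntegral.integral_of_le (by linarith)]
  calc ∫ t in Ioc (T + h) (2 * T + h), ‖primePoly b x t‖ ^ 4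
      ≤ ∫ t in Ioc (T + h) (2 * T + h), ‖primePoly b x t‖ ^ 4 * fejerW (t / (3 * T)) := by
        refine setIntegral_mono_on ?_ hint.integrableOn measurableSet_Ioc fun t ht => ?_
        · exact (Continuous.integrableOn_Icc (by fun_prop)).mono_set Ioc_subset_Icc_self
        · have h7 : 1 ≤ fejerW (t / (3 * T)) := by
            apply fejerW_ge_one
            have : 0 < t := by linarith [ht.1]
            rw [abs_of_pos (by positivity), div_le_one h3T]
            linarith [ht.2]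
          exact le_mul_of_one_le_right (by positivity) h7
    _ ≤ ∫ t : ℝ, ‖primePoly b x t‖ ^ 4 * fejerW (t / (3 * T)) := by
        refine setIntegral_le_integral hint (Filter.Eventually.of_forall fun t => ?_)
        exact mul_nonneg (by positivity) (fejerW_nonneg _)
    _ ≤ 5 / 2 * Real.pi * (3 * T) * ((Nat.factorial 2 : ℕ) *
          (6 * B ^ 2 * Real.log x ^ 2) ^ 2) := hmom
    _ ≤ _ := by
        have h8 : 5 / 2 * Real.pi * (3 * T) ≤ 24 * T := by
          have := Real.pi_lt_d2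
          nlinarith
        have h9 : ((Nat.factorial 2 : ℕ) : ℝ) = 2 := by norm_num [Nat.factorial]
        rw [h9]
        gcongr

/-- The local counting function has fourth moment `≪ T log⁴ T`. -/
theorem exists_local_moment (hRH : RiemannHypothesis) :
    ∃ C T0 : ℝ, 0 < C ∧ 8 ≤ T0 ∧ ∀ T : ℝ, T0 ≤ T → ∀ D : ℝ, 1 ≤ D → 2 * D ≤ Real.log T →
      ∃ H : ℝ → ℝ, Continuous H ∧ (∀ t, 0 ≤ H t) ∧
        (∀ t ∈ Icc T (2 * T),
          Summable (fun ρ : ntz => (mult ρ : ℝ) * (D / (1 + (D * (t - (ρ : ℂ).im)) ^ 2))) ∧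
          ∑' ρ : ntz, (mult ρ : ℝ) * (D / (1 + (D * (t - (ρ : ℂ).im)) ^ 2)) ≤ H t) ∧
        ∫ t in T..(2 * T), H t ^ 4 ≤ C * T * Real.log T ^ 4 := by
  obtain ⟨C1, hC1, hexp⟩ := Gen.exists_explicit hRH
  obtain ⟨C2, hC2, hpp⟩ := exists_vmPoly_sub_primePoly_le
  have hpi := Real.pi_pos
  set A0 : ℝ := 1 / 2 + 4 * C1 + 2 * C2 with hA0
  have hA0pos : 0 < A0 := by positivity
  refine ⟨(4 * Real.pi ^ 2) ^ 4 * (27 * ((2 * A0) ^ 4 + 2 * (24 * (2 * (6 * 2 ^ 2) ^ 2)))), 8,
    by positivity, le_rfl, fun T hT D hD hDT => ?_⟩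
  have hT0 : 0 < T := by linarith
  have hD0 : 0 < D := by linarith
  set ℓ := Real.log T with hℓ
  have hℓ2 : 2 ≤ ℓ := by linarith
  set x : ℕ := ⌊Real.exp D⌋₊ with hx
  have hxle : (x : ℝ) ≤ Real.exp D := Nat.floor_le (Real.exp_pos D).le
  have hDx : Real.exp D ≤ x + 1 := (Nat.lt_floor_add_one _).le
  have hx2 : 2 ≤ x := by
    apply Nat.le_floor
    have := Real.add_one_le_exp D
    push_cast; linarith
  have hxT : (x : ℝ) ^ 2 ≤ T := by
    calc (x : ℝ) ^ 2 ≤ Real.exp D ^ 2 := by gcongr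
      _ = Real.exp (2 * D) := by rw [← Real.exp_nat_mul]; norm_num
      _ ≤ Real.exp ℓ := Real.exp_le_exp.mpr hDT
      _ = T := Real.exp_log hT0
  have hlogx : Real.log x ≤ ℓ := by
    apply Real.log_le_log (by positivity)
    have : (1:ℝ) ≤ x := by exact_mod_cast (by omega : 1 ≤ x)
    nlinarith
  have hlogx0 : 0 ≤ Real.log x := Real.log_natCast_nonneg x
  set b := Gen.bb fejerData D with hb
  have hbb : ∀ n, ‖b n‖ ≤ 2 := fun n => Gen.norm_bb_le hD0 n
  set p : ℝ → ℝ := fun t => ‖primePoly b x t‖ with hp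
  have hpc : Continuous p := (primePoly_continuous b x).norm
  have hp0 : ∀ t, 0 ≤ p t := fun t => norm_nonneg _
  have hpiD : Real.pi / D ≤ T := by
    rw [div_le_iff₀ hD0]
    have := Real.pi_lt_d2
    nlinarith
  have hpiD0 : 0 ≤ Real.pi / D := by positivity
  -- bound for the fejer sum
  have hS : ∀ t ∈ Icc T (3 * T), ∃ S : ℝ,
      HasSum (fun ρ : ntz => (mult ρ : ℝ) * Gen.FF fejerData D (t - (ρ : ℂ).im)) S ∧
      S ≤ A0 * ℓ + p t := by
    intro t ht
    have ht1 : 1 ≤ t := by linarith [ht.1]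
    have ht0 : 0 < t := by linarith
    obtain ⟨S, hS, hSb⟩ := hexp fejerData D x t (by linarith) hDx ht1
    refine ⟨S, hS, ?_⟩
    have h2 := (abs_le.mp hSb).2
    have h4 : fejerData.f0 0 = 1 := by
      show (1 : ℝ) - 0 = 1
      norm_num
    rw [h4] at h2
    have h3 : -(vmPoly b x t).re ≤ ‖vmPoly b x t‖ := by
      have := Complex.re_le_norm (-(vmPoly b x t))
      rwa [norm_neg, Complex.neg_re] at this
    have h5 : ‖vmPoly b x t‖ ≤ p t + C2 * 2 * Real.log x := by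
      have e1 := hpp x 2 b t hx2 hbb
      have := norm_sub_norm_le (vmPoly b x t) (primePoly b x t)
      simp only [hp]
      linarith
    have h6 : Real.log (t / (2 * Real.pi)) ≤ ℓ := by
      apply Real.log_le_log (by positivity)
      rw [div_le_iff₀ (by positivity)]
      have := Real.pi_gt_three
      nlinarith [ht.2]
    have h7 : C1 * Real.exp D * (1 + Real.log t) / Real.sqrt t ≤ 4 * C1 * ℓ := by
      have e1 : Real.log t ≤ ℓ + 2 := by
        have : Real.log t ≤ Real.log (3 * T) := Real.log_le_log ht0 ht.2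
        rw [Real.log_mul (by norm_num) hT0.ne'] at this
        have h4 : Real.log 3 ≤ 2 := by
          have := Real.log_le_sub_one_of_pos (show (0:ℝ) < 3 by norm_num)
          linarith
        linarith
      have e2 : Real.exp D ≤ Real.sqrt t := by
        apply Real.le_sqrt_of_sq_le
        calc Real.exp D ^ 2 = Real.exp (2 * D) := by rw [← Real.exp_nat_mul]; norm_num
          _ ≤ Real.exp ℓ := Real.exp_le_exp.mpr hDT
          _ = T := Real.exp_log hT0
          _ ≤ t := ht.1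
      have e3 : 0 < Real.sqrt t := Real.sqrt_pos.mpr ht0
      rw [div_le_iff₀ e3]
      have e4 : 0 ≤ Real.log t := Real.log_nonneg ht1
      calc C1 * Real.exp D * (1 + Real.log t) ≤ C1 * Real.sqrt t * (4 * ℓ) := by
            gcongr
            linarith
        _ = _ := by ring
    have h8 : C2 * 2 * Real.log x ≤ 2 * C2 * ℓ := by
      calc C2 * 2 * Real.log x ≤ C2 * 2 * ℓ := by gcongr
        _ = _ := by ring
    have h9 : A0 * ℓ = 1 / 2 * ℓ + 4 * C1 * ℓ + 2 * C2 * ℓ := by rw [hA0]; ring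
    rw [h9]
    linarith
  refine ⟨fun t => 4 * Real.pi ^ 2 * (2 * A0 * ℓ + p t + p (t + Real.pi / D)), by fun_prop,
    fun t => ?_, fun t ht => ?_, ?_⟩
  · have := hp0 t
    have := hp0 (t + Real.pi / D)
    positivity
  · obtain ⟨S1, hS1, hS1b⟩ := hS t ⟨ht.1, by linarith [ht.2]⟩
    obtain ⟨S2, hS2, hS2b⟩ := hS (t + Real.pi / D) ⟨by linarith [ht.1], by linarith [ht.2]⟩
    have h1 := (hS1.add hS2).mul_left (4 * Real.pi ^ 2)
    have hle : ∀ ρ : ntz, (mult ρ : ℝ) * (D / (1 + (D * (t - (ρ : ℂ).im)) ^ 2)) ≤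
        4 * Real.pi ^ 2 * ((mult ρ : ℝ) * Gen.FF fejerData D (t - (ρ : ℂ).im) +
          (mult ρ : ℝ) * Gen.FF fejerData D (t + Real.pi / D - (ρ : ℂ).im)) := by
      intro ρ
      have := majorant_le hD0 (t - (ρ : ℂ).im)
      have e : t - (ρ : ℂ).im + Real.pi / D = t + Real.pi / D - (ρ : ℂ).im := by ring
      rw [e] at this
      calc _ ≤ (mult ρ : ℝ) * (4 * Real.pi ^ 2 * (Gen.FF fejerData D (t - (ρ : ℂ).im) +
            Gen.FF fejerData D (t + Real.pi / D - (ρ : ℂ).im))) := by gcongr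
        _ = _ := by ring
    have hsum : Summable (fun ρ : ntz =>
        (mult ρ : ℝ) * (D / (1 + (D * (t - (ρ : ℂ).im)) ^ 2))) :=
      Summable.of_nonneg_of_le (fun ρ => by positivity) hle h1.summable
    refine ⟨hsum, ?_⟩
    refine (hsum.tsum_le_tsum hle h1.summable).trans ?_
    rw [h1.tsum_eq]
    apply mul_le_mul_of_nonneg_left _ (by positivity)
    linarith
  · have hi1 := prime_int_le (T := T) (h := 0) (by linarith) hx2 hxT le_rfl hT0.le b hbb
    have hi2 := prime_int_le (T := T) (h := Real.pi / D) (by linarith) hx2 hxT hpiD0 hpiD b hbb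
    simp only [add_zero] at hi1
    have hcub : ∀ a b c : ℝ, 0 ≤ a → 0 ≤ b → 0 ≤ c →
        (a + b + c) ^ 4 ≤ 27 * (a ^ 4 + b ^ 4 + c ^ 4) := by
      intro a b c ha hb hc
      have h1 : (a + b + c) ^ 2 ≤ 3 * (a ^ 2 + b ^ 2 + c ^ 2) := by
        nlinarith [sq_nonneg (a - b), sq_nonneg (b - c), sq_nonneg (a - c)]
      have h2 : (a ^ 2 + b ^ 2 + c ^ 2) ^ 2 ≤ 3 * (a ^ 4 + b ^ 4 + c ^ 4) := by
        nlinarith [sq_nonneg (a ^ 2 - b ^ 2), sq_nonneg (b ^ 2 - c ^ 2),
          sq_nonneg (a ^ 2 - c ^ 2)]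
      calc (a + b + c) ^ 4 = ((a + b + c) ^ 2) ^ 2 := by ring
        _ ≤ (3 * (a ^ 2 + b ^ 2 + c ^ 2)) ^ 2 := by gcongr
        _ = 9 * (a ^ 2 + b ^ 2 + c ^ 2) ^ 2 := by ring
        _ ≤ 9 * (3 * (a ^ 4 + b ^ 4 + c ^ 4)) := by gcongr
        _ = _ := by ring
    have hmono : ∫ t in T..(2 * T), (4 * Real.pi ^ 2 *
        (2 * A0 * ℓ + p t + p (t + Real.pi / D))) ^ 4 ≤
        ∫ t in T..(2 * T), (4 * Real.pi ^ 2) ^ 4 *
          (27 * ((2 * A0 * ℓ) ^ 4 + p t ^ 4 + p (t + Real.pi / D) ^ 4)) := by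
      apply intervalIntegral.integral_mono_on (by linarith)
      · exact Continuous.intervalIntegrable (by fun_prop) _ _
      · exact Continuous.intervalIntegrable (by fun_prop) _ _
      · intro t _
        rw [mul_pow]
        apply mul_le_mul_of_nonneg_left _ (by positivity)
        exact hcub _ _ _ (by positivity) (hp0 _) (hp0 _)
    refine hmono.trans ?_
    rw [intervalIntegral.integral_const_mul, intervalIntegral.integral_const_mul]
    rw [intervalIntegral.integral_add (Continuous.intervalIntegrable (by fun_prop) _ _)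
      (Continuous.intervalIntegrable (by fun_prop) _ _),
      intervalIntegral.integral_add (Continuous.intervalIntegrable (by fun_prop) _ _)
      (Continuous.intervalIntegrable (by fun_prop) _ _), intervalIntegral.integral_const,
      smul_eq_mul]
    have hq : 24 * T * (2 * (6 * 2 ^ 2 * Real.log x ^ 2) ^ 2) ≤
        24 * (2 * (6 * 2 ^ 2) ^ 2) * (T * ℓ ^ 4) := by
      calc 24 * T * (2 * (6 * 2 ^ 2 * Real.log x ^ 2) ^ 2) ≤
          24 * T * (2 * (6 * 2 ^ 2 * ℓ ^ 2) ^ 2) := by gcongr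
        _ = _ := by ring
    have hfin : (2 * T - T) * (2 * A0 * ℓ) ^ 4 + (∫ t in T..(2 * T), p t ^ 4) +
        (∫ t in T..(2 * T), p (t + Real.pi / D) ^ 4) ≤
        ((2 * A0) ^ 4 + 2 * (24 * (2 * (6 * 2 ^ 2) ^ 2))) * (T * ℓ ^ 4) := by
      have e1 : (2 * T - T) * (2 * A0 * ℓ) ^ 4 = (2 * A0) ^ 4 * (T * ℓ ^ 4) := by ring
      rw [e1]
      simp only [hp]
      linarith
    calc _ ≤ (4 * Real.pi ^ 2) ^ 4 * (27 *
          (((2 * A0) ^ 4 + 2 * (24 * (2 * (6 * 2 ^ 2) ^ 2))) * (T * ℓ ^ 4))) := by gcongr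
      _ = _ := by ring

end Pool.Agent.ZetaGaps
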