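import Pool.Agent.ZetaGaps.NLPoint
import Pool.Agent.ZetaGaps.RvMCount

/-!
# The non-lattice theorem: block version and counting version
-/

open scoped ContDiff

namespace Pool.Agent.ZetaGaps

open MeasureTheory Real Set Filter Topology
open Pool.Agent.Hadamard Pool.Agent.DirPoly Pool.Agent.ZGap Pool.Agent.ZGap.OneSided
open Pool.Agent.ZGap.Res (bmp bmp_RS bmp_zero chat RS BD norm_hh_le)

/-- Integrated inequality. -/
lemma integrated {T L X C CH lam r c η : ℝ} {K0 : ℕ} {f1 f2 : ℝ → ℂ} {H : ℝ → ℝ}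
    (hT : 0 < T) (hL : 0 < L) (hX : 0 ≤ X) (hC : 0 < C) (hlam : 0 < lam)
    (hf1 : Continuous f1) (hf2 : Continuous f2) (hHc : Continuous H)
    (hgood : ∀ t ∈ Icc T (2 * T), Good c η r K0 t → ‖f1 t‖ ^ 2 - ‖f2 t‖ ^ 2 ≤ X * H t ^ 2)
    (hbad : ∀ t ∈ Icc T (2 * T), ‖f1 t‖ ^ 2 ≤ C ^ 2 * H t ^ 2)
    (hH4 : ∫ t in T..(2 * T), H t ^ 4 ≤ CH * T * L ^ 4) {mB : ℝ} (hmB : 0 ≤ mB)
    (hB : volume {t | t ∈ Set.Icc T (2 * T) ∧ ¬ Good c η r K0 t} ≤ ENNReal.ofReal mB) :
    (∫ t in T..(2 * T), ‖f1 t‖ ^ 2) - (∫ t in T..(2 * T), ‖f2 t‖ ^ 2) ≤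
      X * ((1 + CH) / 2 * (T * L ^ 2)) + C ^ 2 * ((lam * L ^ 2 * mB + CH * (T * L ^ 2) / lam) / 2) := by
  classical
  set Bd : Set ℝ := {t | t ∈ Set.Icc T (2 * T) ∧ ¬ Good c η r K0 t} with hBd
  set Bm : Set ℝ := toMeasurable volume Bd with hBm
  have hBmm : MeasurableSet Bm := measurableSet_toMeasurable _ _
  have hBmv : volume Bm ≤ ENNReal.ofReal mB := by rw [hBm, measure_toMeasurable]; exact hB
  have hBmf : volume Bm ≠ ⊤ := ne_top_of_le_ne_top ENNReal.ofReal_ne_top hBmv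
  have hBmr : volume.real Bm ≤ mB := by
    rw [Measure.real]
    exact ENNReal.toReal_le_of_le_ofReal hmB hBmv
  set D : ℝ → ℝ := fun t => (L ^ 2 + H t ^ 4 / L ^ 2) / 2 with hD
  set G : ℝ → ℝ := fun t => X * D t + C ^ 2 * ((lam * L ^ 2 * Bm.indicator (fun _ => (1:ℝ)) t +
    H t ^ 4 / (lam * L ^ 2)) / 2) with hG
  have hi4 : IntervalIntegrable (fun t => H t ^ 4) volume T (2 * T) :=
    Continuous.intervalIntegrable (by fun_prop) _ _
  have hiB : IntervalIntegrable (fun t => Bm.indicator (fun _ => (1:ℝ)) t) volume T (2 * T) := by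
    have : Integrable (Bm.indicator (fun _ => (1:ℝ))) volume :=
      (integrable_indicator_iff hBmm).mpr (integrableOn_const hBmf)
    exact this.intervalIntegrable
  have hGi : IntervalIntegrable G volume T (2 * T) := by
    simp only [hG, hD]
    refine IntervalIntegrable.add ?_ ?_
    · exact Continuous.intervalIntegrable (by fun_prop) _ _
    · refine IntervalIntegrable.const_mul ?_ _
      refine IntervalIntegrable.div_const ?_ _
      exact (hiB.const_mul _).add (hi4.div_const _)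
  have hpt : ∀ t ∈ Icc T (2 * T), ‖f1 t‖ ^ 2 - ‖f2 t‖ ^ 2 ≤ G t := by
    intro t ht
    have hH2 : H t ^ 2 ≤ D t := by
      simp only [hD]
      have h1 : 0 ≤ (L ^ 2 - H t ^ 2) ^ 2 / L ^ 2 := by positivity
      have h2 : (L ^ 2 - H t ^ 2) ^ 2 / L ^ 2 = L ^ 2 - 2 * H t ^ 2 + H t ^ 4 / L ^ 2 := by
        field_simp; ring
      rw [h2] at h1
      linarith
    have hD0 : 0 ≤ D t := by
      simp only [hD]; positivity
    have h40 : 0 ≤ H t ^ 4 / (lam * L ^ 2) := by positivity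
    by_cases hg : Good c η r K0 t
    · have h1 := hgood t ht hg
      have h2 : X * H t ^ 2 ≤ X * D t := by gcongr
      have h3 : 0 ≤ C ^ 2 * ((lam * L ^ 2 * Bm.indicator (fun _ => (1:ℝ)) t +
          H t ^ 4 / (lam * L ^ 2)) / 2) := by
        have : 0 ≤ Bm.indicator (fun _ => (1:ℝ)) t := indicator_nonneg (fun _ _ => zero_le_one) t
        positivity
      simp only [hG]
      linarith
    · have hmem : t ∈ Bm := subset_toMeasurable _ _ ⟨ht, hg⟩
      have h1 := hbad t ht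
      have h2 : H t ^ 2 ≤ (lam * L ^ 2 * 1 + H t ^ 4 / (lam * L ^ 2)) / 2 := by
        have h3 : 0 ≤ (lam * L ^ 2 - H t ^ 2) ^ 2 / (lam * L ^ 2) := by positivity
        have h4 : (lam * L ^ 2 - H t ^ 2) ^ 2 / (lam * L ^ 2) =
            lam * L ^ 2 - 2 * H t ^ 2 + H t ^ 4 / (lam * L ^ 2) := by field_simp; ring
        rw [h4] at h3
        linarith
      have h5 : C ^ 2 * H t ^ 2 ≤ C ^ 2 * ((lam * L ^ 2 * 1 + H t ^ 4 / (lam * L ^ 2)) / 2) := by
        gcongr
      have h6 : 0 ≤ X * D t := by positivity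
      have h7 : 0 ≤ ‖f2 t‖ ^ 2 := by positivity
      simp only [hG]
      rw [indicator_of_mem hmem]
      linarith
  have i1 : IntervalIntegrable (fun t => ‖f1 t‖ ^ 2) volume T (2 * T) :=
    Continuous.intervalIntegrable (by fun_prop) _ _
  have i2 : IntervalIntegrable (fun t => ‖f2 t‖ ^ 2) volume T (2 * T) :=
    Continuous.intervalIntegrable (by fun_prop) _ _
  rw [← intervalIntegral.integral_sub i1 i2]
  refine (intervalIntegral.integral_mono_on (by linarith) (i1.sub i2) hGi hpt).trans ?_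
  have hind : ∫ t in T..(2 * T), Bm.indicator (fun _ => (1:ℝ)) t ≤ mB := by
    rw [intervalIntegral.integral_of_le (by linarith)]
    have : Integrable (Bm.indicator (fun _ => (1:ℝ))) volume :=
      (integrable_indicator_iff hBmm).mpr (integrableOn_const hBmf)
    calc ∫ t in Ioc T (2 * T), Bm.indicator (fun _ => (1:ℝ)) t ≤
        ∫ t, Bm.indicator (fun _ => (1:ℝ)) t :=
          setIntegral_le_integral this
            (Eventually.of_forall fun t => indicator_nonneg (fun _ _ => zero_le_one) t)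
      _ = volume.real Bm := by
          rw [integral_indicator hBmm]
          simp
      _ ≤ mB := hBmr
  have hD4 : ∫ t in T..(2 * T), D t ≤ (1 + CH) / 2 * (T * L ^ 2) := by
    simp only [hD]
    rw [intervalIntegral.integral_div, intervalIntegral.integral_add (by simp) (hi4.div_const _),
      intervalIntegral.integral_const, intervalIntegral.integral_div, smul_eq_mul]
    have h1 : (∫ t in T..(2 * T), H t ^ 4) / L ^ 2 ≤ CH * T * L ^ 4 / L ^ 2 := by gcongr
    have h2 : CH * T * L ^ 4 / L ^ 2 = CH * (T * L ^ 2) := by field_simp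
    rw [h2] at h1
    linarith
  have hcalc : ∫ t in T..(2 * T), G t = X * (∫ t in T..(2 * T), D t) + C ^ 2 *
      ((lam * L ^ 2 * (∫ t in T..(2 * T), Bm.indicator (fun _ => (1:ℝ)) t) +
        (∫ t in T..(2 * T), H t ^ 4) / (lam * L ^ 2)) / 2) := by
    have hA' : IntervalIntegrable (fun t => X * D t) volume T (2 * T) := by
      simp only [hD]
      exact Continuous.intervalIntegrable (by fun_prop) _ _
    have hB0 : IntervalIntegrable (fun t => lam * L ^ 2 * Bm.indicator (fun _ => (1:ℝ)) t +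
        H t ^ 4 / (lam * L ^ 2)) volume T (2 * T) := (hiB.const_mul _).add (hi4.div_const _)
    have hB' : IntervalIntegrable (fun t => C ^ 2 *
        ((lam * L ^ 2 * Bm.indicator (fun _ => (1:ℝ)) t + H t ^ 4 / (lam * L ^ 2)) / 2))
        volume T (2 * T) := (hB0.div_const _).const_mul _
    have e1 : ∫ t in T..(2 * T), G t = (∫ t in T..(2 * T), X * D t) + ∫ t in T..(2 * T), C ^ 2 *
        ((lam * L ^ 2 * Bm.indicator (fun _ => (1:ℝ)) t + H t ^ 4 / (lam * L ^ 2)) / 2) :=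
      intervalIntegral.integral_add hA' hB'
    have e2 : ∫ t in T..(2 * T), (lam * L ^ 2 * Bm.indicator (fun _ => (1:ℝ)) t +
        H t ^ 4 / (lam * L ^ 2)) = lam * L ^ 2 * (∫ t in T..(2 * T),
          Bm.indicator (fun _ => (1:ℝ)) t) + (∫ t in T..(2 * T), H t ^ 4) / (lam * L ^ 2) := by
      rw [intervalIntegral.integral_add (hiB.const_mul _) (hi4.div_const _),
        intervalIntegral.integral_const_mul, intervalIntegral.integral_div]
    have e3 : ∫ t in T..(2 * T), (lam * L ^ 2 * Bm.indicator (fun _ => (1:ℝ)) t +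
        H t ^ 4 / (lam * L ^ 2)) / 2 = (lam * L ^ 2 * (∫ t in T..(2 * T),
          Bm.indicator (fun _ => (1:ℝ)) t) + (∫ t in T..(2 * T), H t ^ 4) / (lam * L ^ 2)) / 2 := by
      rw [intervalIntegral.integral_div, e2]
    rw [e1, intervalIntegral.integral_const_mul, intervalIntegral.integral_const_mul, e3]
  rw [hcalc]
  have h1 : (∫ t in T..(2 * T), H t ^ 4) / (lam * L ^ 2) ≤ CH * (T * L ^ 2) / lam := by
    calc (∫ t in T..(2 * T), H t ^ 4) / (lam * L ^ 2) ≤ (CH * T * L ^ 4) / (lam * L ^ 2) := by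
          gcongr
      _ = _ := by field_simp
  gcongr

lemma exists_zeroCount_le : ∃ C : ℝ, 0 < C ∧ ∀ T : ℝ, 2 ≤ T →
    (zeroCount (3 * T) : ℝ) ≤ C * (T * Real.log T) := by
  obtain ⟨C, hC, h⟩ := zeroCount_asymp
  refine ⟨9 + 9 * C, by positivity, fun T hT => ?_⟩
  have hT0 : 0 < T := by linarith
  have hlog2 := Real.log_two_gt_d9
  have hL : 1 / 2 ≤ Real.log T := by
    have : Real.log 2 ≤ Real.log T := Real.log_le_log (by norm_num) hT
    linarith
  have h1 := (abs_le.mp (h (3 * T) (by linarith))).2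
  have hpi := Real.pi_gt_three
  have hlog3 : Real.log (3 * T) ≤ 9 / 2 * Real.log T := by
    rw [Real.log_mul (by norm_num) hT0.ne']
    have h3 : Real.log 3 ≤ 3 / 2 := by
      rw [Real.log_le_iff_le_exp (by norm_num)]
      have := Real.exp_one_gt_d9
      have h5 : Real.exp (3 / 2) ^ 2 = Real.exp 1 ^ 3 := by
        rw [← Real.exp_nat_mul, ← Real.exp_nat_mul]; norm_num
      have h6 := Real.exp_pos (3 / 2)
      have h7 : (9:ℝ) ≤ Real.exp 1 ^ 3 := by
        have h8 : (2.7:ℝ) ^ 3 ≤ Real.exp 1 ^ 3 := by gcongr; linarith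
        have h9 : (9:ℝ) ≤ 2.7 ^ 3 := by norm_num
        exact h9.trans h8
      rw [← h5] at h7
      exact le_of_sq_le_sq (by linarith) h6.le
    linarith
  have hle : Real.log (3 * T / (2 * Real.pi * Real.exp 1)) ≤ Real.log (3 * T) := by
    apply Real.log_le_log (by positivity)
    apply div_le_self (by positivity)
    have h2 := Real.add_one_le_exp 1
    have h3 : 1 * 1 ≤ 2 * Real.pi * Real.exp 1 :=
      mul_le_mul (by linarith) (by linarith) (by norm_num) (by positivity)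
    linarith
  have h2 : 3 * T / (2 * Real.pi) * Real.log (3 * T / (2 * Real.pi * Real.exp 1)) ≤
      9 * (T * Real.log T) := by
    have h3 : 3 * T / (2 * Real.pi) ≤ T := by
      rw [div_le_iff₀ (by positivity), mul_comm 3 T]
      exact mul_le_mul_of_nonneg_left (by linarith) hT0.le
    calc 3 * T / (2 * Real.pi) * Real.log (3 * T / (2 * Real.pi * Real.exp 1))
        ≤ 3 * T / (2 * Real.pi) * (9 / 2 * Real.log T) := by
          apply mul_le_mul_of_nonneg_left _ (by positivity)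
          linarith
      _ ≤ T * (9 / 2 * Real.log T) := by gcongr
      _ ≤ _ := by
          have : 0 ≤ T * Real.log T := by positivity
          linarith
  have h3 : C * Real.log (3 * T) ≤ 9 * C * (T * Real.log T) := by
    have h4 : 9 / 2 * Real.log T ≤ 9 * (T * Real.log T) := by
      have : Real.log T ≤ T * Real.log T := le_mul_of_one_le_left (by linarith) (by linarith)
      linarith
    calc C * Real.log (3 * T) ≤ C * (9 * (T * Real.log T)) := by
          gcongr
          linarith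
      _ = _ := by ring
  linarith

/-- **Non-lattice theorem**, block version. -/
theorem nonlattice_block (hRH : RiemannHypothesis) {c : ℝ} (hc : 1 / 2 < c) :
    ∃ η κ R T0 : ℝ, 0 < η ∧ 0 < κ ∧ 0 < R ∧ 8 ≤ T0 ∧ (∀ T, T0 ≤ T → R / Real.log T ≤ T / 2) ∧
      ∀ T : ℝ, T0 ≤ T → ∀ A : Finset ℕ,
      (∀ i : ℕ, 1 ≤ i → ¬ NearL c η i → T - R / Real.log T < ordinate i →
        ordinate i < 2 * T + R / Real.log T → i ∈ A) →
      κ * (T * Real.log T) < A.card := by
  have hc0 : 0 < c := by linarith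
  obtain ⟨C, hC, hwf⟩ := exists_wf_le
  obtain ⟨CH, T1, hCH, hT1, hloc⟩ := exists_local_moment hRH
  obtain ⟨Cz, hCz, hz⟩ := exists_zeroCount_le
  have hb2 := b2_pos
  have hpi := Real.pi_pos
  -- parameters
  set u : ℝ := 1 / (2 * c) with hu
  have hu0 : 0 < u := by positivity
  have hu1 : u < 1 := by rw [hu, div_lt_one (by positivity)]; linarith
  set δ : ℝ := min (1 - u) u / 4 with hδ
  have hδ0 : 0 < δ := by
    rw [hδ]
    have : 0 < min (1 - u) u := lt_min (by linarith) hu0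
    positivity
  have hδ1 : 4 * δ ≤ 1 - u := by rw [hδ]; linarith [min_le_left (1 - u) u]
  have hδ2 : 4 * δ ≤ u := by rw [hδ]; linarith [min_le_right (1 - u) u]
  set Δ : ℝ := 2 * δ ^ 2 * b2 with hΔ
  have hΔ0 : 0 < Δ := by positivity
  set lam : ℝ := 4 * C ^ 2 * CH / Δ with hlam
  have hlam0 : 0 < lam := by positivity
  set R : ℝ := (1 + 16 * C ^ 2 * (1 + CH) / Δ) / δ with hR
  have hR0 : 0 < R := by positivity
  obtain ⟨K0', hK0'⟩ := exists_nat_ge (16 * C ^ 2 * lam * R * Cz / Δ + 1)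
  set K0 : ℕ := K0' with hK0
  have hK0r : 16 * C ^ 2 * lam * R * Cz / Δ + 1 ≤ (K0:ℝ) := hK0'
  have hK0pos : (0:ℝ) < K0 := by
    have : 0 ≤ 16 * C ^ 2 * lam * R * Cz / Δ := by positivity
    linarith
  have hK01 : 1 ≤ K0 := by exact_mod_cast hK0pos
  set κ : ℝ := Δ / (16 * C ^ 2 * lam * R) with hκ
  have hκ0 : 0 < κ := by positivity
  set η : ℝ := Δ * c / (16 * Real.pi * K0 * C ^ 2 * (1 + CH)) with hη
  have hη0 : 0 < η := by positivity
  set Lmin : ℝ := 16 * Real.pi * R * C ^ 2 * (1 + CH) / (Δ * c) with hLmin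
  have hLmin0 : 0 < Lmin := by positivity
  -- eventual conditions
  have hms1 := meanSq hRH (p := u + δ) (q := δ) hδ0 (by linarith) (by linarith) (Δ / 16)
    (by positivity)
  have hms2 := meanSq hRH (p := u - δ) (q := δ) hδ0 (by linarith) (by linarith) (Δ / 16)
    (by positivity)
  have hLbig : ∀ᶠ T : ℝ in atTop, max Lmin (max (1 / δ) (2 * R)) ≤ Real.log T :=
    tendsto_log_atTop.eventually_ge_atTop _
  obtain ⟨T2, hT2⟩ := eventually_atTop.mp (hms1.and (hms2.and hLbig))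
  refine ⟨η, κ, R, max (max T1 T2) 8, hη0, hκ0, hR0, le_max_right _ _, fun T hT => ?_,
    fun T hT A hA => ?_⟩
  · have hT2' := (hT2 T (((le_max_right _ _).trans (le_max_left _ _)).trans hT)).2.2
    have hT8 : 8 ≤ T := (le_max_right _ _).trans hT
    have h1 : 2 * R ≤ Real.log T := ((le_max_right _ _).trans (le_max_right _ _)).trans hT2'
    have hL0 : 0 < Real.log T := by linarith
    rw [div_le_iff₀ hL0]
    have h2 : Real.log T ≤ T * Real.log T := le_mul_of_one_le_left hL0.le (by linarith)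
    linarith
  have hT8 : 8 ≤ T := (le_max_right _ _).trans hT
  have hT0 : 0 < T := by linarith
  have hTT1 : T1 ≤ T := ((le_max_left _ _).trans (le_max_left _ _)).trans hT
  obtain ⟨hm1, hm2, hLb⟩ := hT2 T (((le_max_right _ _).trans (le_max_left _ _)).trans hT)
  set L := Real.log T with hL
  have hLm : Lmin ≤ L := (le_max_left _ _).trans hLb
  have hLd : 1 / δ ≤ L := ((le_max_left _ _).trans (le_max_right _ _)).trans hLb
  have hLR : 2 * R ≤ L := ((le_max_right _ _).trans (le_max_right _ _)).trans hLb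
  have hL0 : 0 < L := by linarith
  set a := δ * L with ha
  have ha1 : 1 ≤ a := by
    rw [div_le_iff₀ hδ0] at hLd
    linarith
  have ha0 : 0 < a := by linarith
  have ha2 : 2 * a ≤ L := by
    have h1 : δ * L ≤ 1 / 4 * L := mul_le_mul_of_nonneg_right (by linarith) hL0.le
    rw [ha]
    linarith
  obtain ⟨H, hHc, hH0, hHs, hH4⟩ := hloc T hTT1 a ha1 ha2
  rw [← hL] at hH4
  set r : ℝ := R / L with hr
  have hr0 : 0 < r := by positivity
  have hr1 : r ≤ 1 / 2 := by
    rw [hr, div_le_iff₀ hL0]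
    linarith
  set α1 := (u + δ) * L with hα1
  set α2 := (u - δ) * L with hα2
  have hαs : (α1 + α2) / 2 = Real.log T / (2 * c) := by
    rw [hα1, hα2, ← hL, hu]; field_simp; ring
  by_contra hcon
  rw [not_lt] at hcon
  -- bad set
  set mB : ℝ := A.card * (2 * r) + 2 * r * zeroCount (3 * T) / K0 with hmB
  have hmB0 : 0 ≤ mB := by positivity
  have hBad := volume_bad_le (c := c) (η := η) (T := T) hr0 (by linarith) hK01 A hA
  have hmBle : mB ≤ (2 * R * κ + 2 * R * Cz / K0) * T := by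
    have h1 : (A.card : ℝ) * (2 * r) ≤ κ * (T * L) * (2 * r) := by gcongr
    have h2 : κ * (T * L) * (2 * r) = 2 * R * κ * T := by rw [hr]; field_simp
    have h3 : 2 * r * zeroCount (3 * T) / K0 ≤ 2 * r * (Cz * (T * L)) / K0 := by
      have := hz T (by linarith)
      gcongr
    have h4 : 2 * r * (Cz * (T * L)) / K0 = 2 * R * Cz / K0 * T := by rw [hr]; field_simp
    rw [h2] at h1
    rw [h4] at h3
    rw [hmB]
    linarith
  set X : ℝ := 2 * (Real.pi / c * (K0 * η + r)) * C ^ 2 + 4 * C ^ 2 / (1 + (a * r) ^ 2) with hX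
  have hX0 : 0 ≤ X := by positivity
  have hCa : ∀ x : ℝ, |wf a x| ≤ C * (a / (1 + (a * x) ^ 2) ^ 2) := fun x => hwf a x ha0
  have hkey := integrated (f1 := SS α1 a) (f2 := SS α2 a) (c := c) (η := η) (K0 := K0) (r := r)
    hT0 hL0 hX0 hC hlam0 (SS_continuous ha1) (SS_continuous ha1) hHc
    (fun t ht hg => by
      obtain ⟨hs, hle⟩ := hHs t ht
      exact pointwise hC hCa ha1 hc0 hη0.le (by linarith) hr0 (by linarith) ht.1 ht.2 hg hαs hs hle)
    (fun t ht => by
      obtain ⟨hs, hle⟩ := hHs t ht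
      have h1 := SS_le (α := α1) hC hCa ha1 hs hle
      calc ‖SS α1 a t‖ ^ 2 ≤ (C * H t) ^ 2 := by gcongr
        _ = _ := by ring)
    hH4 hmB0 hBad
  -- lower bound
  have h1 := (abs_le.mp hm1).1
  have h2 := (abs_le.mp hm2).2
  have hTL : 0 < T * L ^ 2 := by positivity
  have hlow : (Δ - Δ / 8) * (T * L ^ 2) ≤
      (∫ t in T..(2 * T), ‖SS α1 a t‖ ^ 2) - (∫ t in T..(2 * T), ‖SS α2 a t‖ ^ 2) := by
    have e : (u + δ) * δ * b2 * (T * L ^ 2) - (u - δ) * δ * b2 * (T * L ^ 2) =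
        Δ * (T * L ^ 2) := by rw [hΔ]; ring
    have e2 : (Δ - Δ / 8) * (T * L ^ 2) = Δ * (T * L ^ 2) - 2 * (Δ / 16 * (T * L ^ 2)) := by ring
    rw [e2]
    linarith
  -- upper bounds
  have hX1 : 2 * (Real.pi / c * (K0 * η + r)) * C ^ 2 * ((1 + CH) / 2) ≤ Δ / 8 := by
    have e1 : 2 * (Real.pi / c * (K0 * η + r)) * C ^ 2 * ((1 + CH) / 2) =
        Real.pi / c * (K0 * η) * C ^ 2 * (1 + CH) + Real.pi / c * r * C ^ 2 * (1 + CH) := by ring
    have e2 : Real.pi / c * (K0 * η) * C ^ 2 * (1 + CH) = Δ / 16 := by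
      rw [hη]; field_simp
    have e3 : Real.pi / c * r * C ^ 2 * (1 + CH) ≤ Δ / 16 := by
      have h3 : r ≤ Δ * c / (16 * Real.pi * C ^ 2 * (1 + CH)) := by
        rw [hr, div_le_iff₀ hL0]
        have h4 : Δ * c / (16 * Real.pi * C ^ 2 * (1 + CH)) * Lmin = R := by
          rw [hLmin]; field_simp
        calc R = Δ * c / (16 * Real.pi * C ^ 2 * (1 + CH)) * Lmin := h4.symm
          _ ≤ _ := by gcongr
      calc Real.pi / c * r * C ^ 2 * (1 + CH) ≤
          Real.pi / c * (Δ * c / (16 * Real.pi * C ^ 2 * (1 + CH))) * C ^ 2 * (1 + CH) := by gcongr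
        _ = Δ / 16 := by field_simp
    rw [e1, e2]
    linarith
  have hX2 : 4 * C ^ 2 / (1 + (a * r) ^ 2) * ((1 + CH) / 2) ≤ Δ / 8 := by
    have e1 : a * r = 1 + 16 * C ^ 2 * (1 + CH) / Δ := by
      rw [ha, hr, hR]; field_simp
    have h3 : 16 * C ^ 2 * (1 + CH) / Δ ≤ 1 + (a * r) ^ 2 := by
      rw [e1]
      have h4 : 0 ≤ 16 * C ^ 2 * (1 + CH) / Δ := by positivity
      generalize 16 * C ^ 2 * (1 + CH) / Δ = z at h4
      have e5 : (1 + z) ^ 2 = 1 + 2 * z + z ^ 2 := by ring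
      rw [e5]
      linarith [sq_nonneg z]
    have h5 : 4 * C ^ 2 / (1 + (a * r) ^ 2) ≤ 4 * C ^ 2 / (16 * C ^ 2 * (1 + CH) / Δ) :=
      div_le_div_of_nonneg_left (by positivity) (by positivity) h3
    calc 4 * C ^ 2 / (1 + (a * r) ^ 2) * ((1 + CH) / 2) ≤
        4 * C ^ 2 / (16 * C ^ 2 * (1 + CH) / Δ) * ((1 + CH) / 2) := by gcongr
      _ = Δ / 8 := by field_simp; norm_num
  have hXX : X * ((1 + CH) / 2 * (T * L ^ 2)) ≤ (Δ / 4) * (T * L ^ 2) := by
    have e : X * ((1 + CH) / 2 * (T * L ^ 2)) =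
        (2 * (Real.pi / c * (K0 * η + r)) * C ^ 2 * ((1 + CH) / 2) +
          4 * C ^ 2 / (1 + (a * r) ^ 2) * ((1 + CH) / 2)) * (T * L ^ 2) := by rw [hX]; ring
    rw [e]
    apply mul_le_mul_of_nonneg_right _ hTL.le
    linarith
  have hY : C ^ 2 * ((lam * L ^ 2 * mB + CH * (T * L ^ 2) / lam) / 2) ≤
      (Δ / 4) * (T * L ^ 2) := by
    have h3 : C ^ 2 * ((lam * L ^ 2 * mB + CH * (T * L ^ 2) / lam) / 2) ≤
        C ^ 2 * ((lam * L ^ 2 * ((2 * R * κ + 2 * R * Cz / K0) * T) +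
          CH * (T * L ^ 2) / lam) / 2) := by gcongr
    have e1 : C ^ 2 * ((lam * L ^ 2 * ((2 * R * κ + 2 * R * Cz / K0) * T) +
          CH * (T * L ^ 2) / lam) / 2) = (C ^ 2 * lam * R * κ + C ^ 2 * lam * R * Cz / K0 +
          C ^ 2 * CH / (2 * lam)) * (T * L ^ 2) := by field_simp
    have e2 : C ^ 2 * lam * R * κ = Δ / 16 := by rw [hκ]; field_simp
    have e3 : C ^ 2 * lam * R * Cz / K0 ≤ Δ / 16 := by
      rw [div_le_iff₀ hK0pos]
      have h4 : 16 * C ^ 2 * lam * R * Cz / Δ ≤ K0 := by linarith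
      calc C ^ 2 * lam * R * Cz = Δ / 16 * (16 * C ^ 2 * lam * R * Cz / Δ) := by field_simp
        _ ≤ _ := by gcongr
    have e4 : C ^ 2 * CH / (2 * lam) = Δ / 8 := by rw [hlam]; field_simp; norm_num
    rw [e1] at h3
    refine h3.trans ?_
    apply mul_le_mul_of_nonneg_right _ hTL.le
    linarith
  have hfin : (Δ - Δ / 8) * (T * L ^ 2) ≤ (Δ / 2) * (T * L ^ 2) := by linarith
  have : Δ - Δ / 8 ≤ Δ / 2 := le_of_mul_le_mul_right hfin hTL
  linarith

open Classical in
/-- **Non-lattice theorem**: for `c > 1/2` a positive proportion of the normalised gaps keeps a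
positive distance from the lattice `c ℤ`. -/
theorem nonlattice (hRH : RiemannHypothesis) {c : ℝ} (hc : 1 / 2 < c) :
    ∃ η κ : ℝ, 0 < η ∧ 0 < κ ∧ ∃ N0 : ℕ, ∀ N : ℕ, N0 ≤ N →
      κ * N ≤ (({n ∈ Finset.Icc 1 N | ∀ m : ℤ, η ≤ |gap n - c * m|} : Finset ℕ).card : ℝ) := by
  obtain ⟨η, κ, R, T0, hη, hκ, hR, hT0, hRT, hblock⟩ := nonlattice_block hRH hc
  obtain ⟨Cz, hCz, hz⟩ := exists_zeroCount_le
  refine ⟨η, κ / Cz, hη, by positivity, zeroCount (3 * T0) + 1, fun N hN => ?_⟩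
  have hN1 : 1 ≤ N := by omega
  have hex := zeroCount_unbounded N
  set T : ℝ := ordinate N / 3 with hT
  have hTT0 : T0 ≤ T := by
    by_contra h
    push Not at h
    have h1 : ordinate N ≤ 3 * T0 := by linarith
    have h2 := (le_zeroCount_iff hex hN1).mpr h1
    omega
  have hT8 : 8 ≤ T := hT0.trans hTT0
  have hord : ordinate N = 3 * T := by rw [hT]; ring
  have hNle : (N : ℝ) ≤ Cz * (T * Real.log T) := by
    have h1 := le_zeroCount_ordinate hex hN1
    rw [hord] at h1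
    calc (N : ℝ) ≤ zeroCount (3 * T) := by exact_mod_cast h1
      _ ≤ _ := hz T (by linarith)
  have h1 := hblock T hTT0 {n ∈ Finset.Icc 1 N | ∀ m : ℤ, η ≤ |gap n - c * m|} (by
    intro i hi hnot hlow hup
    rw [Finset.mem_filter, Finset.mem_Icc]
    refine ⟨⟨hi, ?_⟩, ?_⟩
    · by_contra h
      push Not at h
      have h2 := ordinate_mono (zeroCount_unbounded i) hN1 h.le
      have h3 := hRT T hTT0
      rw [hord] at h2
      linarith
    · intro m
      by_contra h
      push Not at h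
      exact hnot ⟨m, h⟩)
  calc κ / Cz * N ≤ κ / Cz * (Cz * (T * Real.log T)) := by gcongr
    _ = κ * (T * Real.log T) := by field_simp
    _ ≤ _ := h1.le

end Pool.Agent.ZetaGaps
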