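import Pool.Agent.ZetaGaps.NLSum

/-!
# Mean squares of the local sums
-/

open scoped ContDiff

namespace Pool.Agent.ZetaGaps

open MeasureTheory Real Set Filter Topology
open Pool.Agent.Hadamard Pool.Agent.DirPoly Pool.Agent.ZGap Pool.Agent.ZGap.OneSided
open Pool.Agent.ZGap.Res (bmp bmp_RS bmp_zero chat RS BD norm_hh_le)
open ArithmeticFunction

lemma norm_SS_add (hRH : RiemannHypothesis) : ∃ K : ℝ, 0 < K ∧ ∀ a α : ℝ, 1 ≤ a → a ≤ α →
    ∀ x : ℕ, Real.exp (α + a) ≤ x + 1 → ∀ t : ℝ, 1 ≤ t →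
      ‖SS α a t + vmPoly (fun n => Bf α a (Real.log n)) x t‖ ≤ K * Real.exp (α + a) / t := by
  obtain ⟨K, hK, h⟩ := exists_adm
  refine ⟨32 * K, by positivity, fun a α ha hα x hx t ht => ?_⟩
  obtain ⟨S, hS, hSb⟩ := (h a α ha hα).explicit hRH hx ht
  have : SS α a t = S := by
    unfold SS
    exact hS.tsum_eq
  rw [this]
  refine hSb.trans (le_of_eq ?_)
  ring

/-- The integral of the square of the bump. -/
noncomputable def b2 : ℝ := ∫ v : ℝ, bmp v ^ 2

lemma b2_pos : 0 < b2 := by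
  have := Res.bmp_sq_pos
  unfold b2
  simpa [sq] using this

/-- coefficient -/
noncomputable def cf (α a : ℝ) (n : ℕ) : ℂ :=
  (vonMangoldt n : ℂ) * Bf α a (Real.log n) * (n : ℂ) ^ (-(1 / 2) : ℂ)

lemma vmPoly_eq (α a : ℝ) (x : ℕ) (t : ℝ) : vmPoly (fun n => Bf α a (Real.log n)) x t =
    ∑ n ∈ Finset.Icc 1 x, cf α a n * (n : ℂ) ^ (-(t * Complex.I) : ℂ) := by
  unfold vmPoly cf
  refine Finset.sum_congr rfl fun n hn => ?_
  rw [Finset.mem_Icc] at hn
  have hn0 : (n : ℂ) ≠ 0 := by exact_mod_cast (by omega : n ≠ 0)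
  rw [mul_assoc, mul_assoc, mul_assoc, ← Complex.cpow_add _ _ hn0]
  congr 3
  ring_nf

lemma norm_cf_sq (α a : ℝ) {n : ℕ} (hn : 1 ≤ n) : ‖cf α a n‖ ^ 2 =
    vonMangoldt n ^ 2 / n * bmp ((Real.log n - α) / a) ^ 2 := by
  unfold cf Bf
  rw [norm_mul, norm_mul, norm_cpow_neg_half (by omega), Complex.norm_real, Complex.norm_real,
    mul_pow, mul_pow, inv_pow, Real.sq_sqrt (by positivity), Real.norm_eq_abs, Real.norm_eq_abs,
    sq_abs, sq_abs]
  field_simp

/-- Mean square of the prime sum. -/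
lemma exists_meanSq_vm : ∃ C : ℝ, 0 < C ∧ ∀ (a α : ℝ) (N : ℕ) (T : ℝ), 1 ≤ a → a ≤ α →
    α + a ≤ Real.log N → 0 < T →
    |(∫ t in T..(2 * T), ‖vmPoly (fun n => Bf α a (Real.log n)) N t‖ ^ 2) - T * (a * α * b2)| ≤
      T * (C * (α + a)) + 4 * N * (1 + Real.log N) * (a * α * b2 + C * (α + a)) := by
  obtain ⟨Kl, hKl⟩ := bmp.contDiff.lipschitzWith_of_hasCompactSupport (n := 1) (𝕂 := ℝ)
    bmp.hasCompactSupport one_ne_zero (f := (bmp : ℝ → ℝ))
  obtain ⟨C, hC, h⟩ := Pool.Agent.NonLattice.sum_vonMangoldt_sq hKl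
    (fun v hv => bmp_zero (by linarith)) (fun v => bmp.neg v)
  refine ⟨C, hC, fun a α N T ha hα hN hT => ?_⟩
  have hN1 : 1 ≤ N := by
    rcases Nat.eq_zero_or_pos N with h0 | h0
    · rw [h0] at hN
      simp at hN
      linarith
    · exact h0
  have h1 := h a α N ha hα hN
  have h2 := Pool.Agent.NonLattice.mean_value hN1 (cf α a) T (2 * T)
  have e1 : ∑ n ∈ Finset.Icc 1 N, ‖cf α a n‖ ^ 2 =
      ∑ n ∈ Finset.Icc 1 N, vonMangoldt n ^ 2 / n * bmp ((Real.log n - α) / a) ^ 2 := by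
    refine Finset.sum_congr rfl fun n hn => ?_
    rw [Finset.mem_Icc] at hn
    exact norm_cf_sq α a hn.1
  have hb2 : ∫ v : ℝ, bmp v ^ 2 = b2 := rfl
  rw [e1] at h2
  rw [hb2] at h1
  simp_rw [← vmPoly_eq] at h2
  set Sg := ∑ n ∈ Finset.Icc 1 N, vonMangoldt n ^ 2 / n * bmp ((Real.log n - α) / a) ^ 2 with hSg
  set I := ∫ t in T..(2 * T), ‖vmPoly (fun n => Bf α a (Real.log n)) N t‖ ^ 2 with hI
  have hlog : 0 ≤ Real.log N := Real.log_natCast_nonneg N
  have h3 : Sg ≤ a * α * b2 + C * (α + a) := by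
    have := (abs_le.mp h1).2
    linarith
  have h4 : 4 * N * (1 + Real.log N) * Sg ≤
      4 * N * (1 + Real.log N) * (a * α * b2 + C * (α + a)) := by gcongr
  have h5 : |T * (Sg - a * α * b2)| ≤ T * (C * (α + a)) := by
    rw [abs_mul, abs_of_pos hT]
    gcongr
  have e2 : I - T * (a * α * b2) = (I - (2 * T - T) * Sg) + T * (Sg - a * α * b2) := by ring
  rw [e2]
  refine (abs_add_le _ _).trans ?_
  linarith

/-- Mean square of the local sum. -/
theorem meanSq (hRH : RiemannHypothesis) {p q : ℝ} (hq : 0 < q) (hqp : q ≤ p) (hs : p + q < 1) :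
    ∀ ε : ℝ, 0 < ε → ∀ᶠ T : ℝ in atTop,
      |(∫ t in T..(2 * T), ‖SS (p * Real.log T) (q * Real.log T) t‖ ^ 2) -
        p * q * b2 * (T * Real.log T ^ 2)| ≤ ε * (T * Real.log T ^ 2) := by
  intro ε hε
  obtain ⟨K, hK, hSS⟩ := norm_SS_add hRH
  obtain ⟨C, hC, hvm⟩ := exists_meanSq_vm
  have hp : 0 < p := by linarith
  have hb2 := b2_pos
  set s : ℝ := p + q with hsdef
  have hs0 : 0 < s := by positivity
  -- constants
  set C1 : ℝ := p * q * b2 + C * s with hC1
  have hC1pos : 0 < C1 := by positivity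
  set A : ℝ := C * s + 32 * C1 + K * (K + 1) + K * (C1 + C * s + 32 * C1) with hA
  have hApos : 0 < A := by positivity
  -- eventual smallness
  have h1 : ∀ᶠ T : ℝ in atTop, 1 / Real.log T ≤ ε / (2 * A) := by
    have : Tendsto (fun T : ℝ => 1 / Real.log T) atTop (𝓝 0) := by
      refine (tendsto_inv_atTop_zero.comp tendsto_log_atTop).congr fun T => ?_
      simp [one_div]
    exact this.eventually_le_const (by positivity)
  have h2 : ∀ᶠ T : ℝ in atTop, T ^ (s - 1) * Real.log T ≤ ε / (2 * A) ∧ T ^ (s - 1) * Real.log T ≤ 1 := by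
    have hlo := isLittleO_log_rpow_atTop (show 0 < 1 - s by linarith)
    have : ∀ δ : ℝ, 0 < δ → ∀ᶠ T : ℝ in atTop, T ^ (s - 1) * Real.log T ≤ δ := by
      intro δ hδ
      filter_upwards [hlo.bound hδ, eventually_gt_atTop 1] with T hT hT1
      have hT0 : 0 < T := by linarith
      have hl : 0 < Real.log T := Real.log_pos hT1
      rw [Real.norm_of_nonneg hl.le, Real.norm_of_nonneg (by positivity)] at hT
      calc T ^ (s - 1) * Real.log T ≤ T ^ (s - 1) * (δ * T ^ (1 - s)) := by gcongr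
        _ = δ * (T ^ (s - 1) * T ^ (1 - s)) := by ring
        _ = δ := by
            rw [← Real.rpow_add hT0]
            simp
    exact (this _ (by positivity)).and (this 1 one_pos)
  filter_upwards [h1, h2, eventually_ge_atTop (Real.exp (1 / q)), eventually_ge_atTop 8]
    with T hT1 hT2 hTq hT8
  obtain ⟨hT2, hT3⟩ := hT2
  have hT0 : 0 < T := by linarith
  set L := Real.log T with hL
  have hqL : 1 ≤ q * L := by
    have : 1 / q ≤ L := by rw [hL, Real.le_log_iff_exp_le hT0]; exact hTq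
    rw [div_le_iff₀ hq] at this
    linarith
  have hL2 : 2 ≤ L := by
    rw [hL, Real.le_log_iff_exp_le hT0]
    have := Real.exp_one_lt_d9
    have h2 : Real.exp 2 = Real.exp 1 ^ 2 := by rw [← Real.exp_nat_mul]; norm_num
    have h3 : Real.exp 1 ^ 2 ≤ (2.8:ℝ) ^ 2 := by gcongr; linarith
    have h4 : (2.8:ℝ) ^ 2 ≤ 8 := by norm_num
    rw [h2]
    linarith
  have hL0 : 0 < L := by linarith
  set a := q * L with ha
  set α := p * L with hα
  have haα : a ≤ α := by rw [ha, hα]; gcongr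
  have hsum : α + a = s * L := by rw [ha, hα, hsdef]; ring
  set N : ℕ := ⌊Real.exp (α + a)⌋₊ + 1 with hN
  have hNge : Real.exp (α + a) ≤ N := by
    rw [hN]; push_cast
    exact (Nat.lt_floor_add_one _).le
  have hexpT : Real.exp (α + a) = T ^ s := by
    rw [Real.rpow_def_of_pos hT0, hsum, mul_comm]
  have hTs1 : 1 ≤ T ^ s := Real.one_le_rpow (by linarith) hs0.le
  have hNle : (N : ℝ) ≤ 2 * T ^ s := by
    rw [hN]; push_cast
    have := Nat.floor_le (Real.exp_pos (α + a)).le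
    rw [hexpT] at this ⊢
    linarith
  have hTsT : T ^ s ≤ T := by
    calc T ^ s ≤ T ^ (1:ℝ) := Real.rpow_le_rpow_of_exponent_le (by linarith) hs.le
      _ = T := Real.rpow_one T
  have hNpos : (0:ℝ) < N := by rw [hN]; positivity
  have hlogN : α + a ≤ Real.log N := by
    rw [Real.le_log_iff_exp_le hNpos]
    exact hNge
  have hlogN2 : Real.log N ≤ 2 * L := by
    have h3 : Real.log N ≤ Real.log (T * T) := by
      apply Real.log_le_log hNpos
      have h4 : (N : ℝ) ≤ 2 * T := by linarith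
      have h5 : 2 * T ≤ T * T := mul_le_mul_of_nonneg_right (by linarith) hT0.le
      linarith
    rw [Real.log_mul hT0.ne' hT0.ne'] at h3
    linarith
  have hx : Real.exp (α + a) ≤ N + 1 := by linarith
  have hV := hvm a α N T hqL haα hlogN hT0
  have hSt := hSS a α hqL haα N hx
  set P : ℝ → ℂ := fun t => vmPoly (fun n => Bf α a (Real.log n)) N t with hP
  have hPc : Continuous P := by
    simp only [hP, vmPoly_eq]
    refine continuous_finsetSum _ fun n hn => ?_
    rw [Finset.mem_Icc] at hn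
    have hn0 : (n : ℂ) ≠ 0 := by exact_mod_cast (by omega : n ≠ 0)
    refine continuous_const.mul ?_
    exact Continuous.const_cpow (by fun_prop) (Or.inl hn0)
  have hSc : Continuous (SS α a) := SS_continuous hqL
  set IP := ∫ t in T..(2 * T), ‖P t‖ ^ 2 with hIP
  have hmain : a * α * b2 = p * q * b2 * L ^ 2 := by rw [ha, hα]; ring
  rw [hmain, hsum] at hV
  -- bound of the error of V
  have hV2 : |IP - p * q * b2 * (T * L ^ 2)| ≤ C * s * (T * L) + 32 * C1 * (T ^ s * L ^ 3) := by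
    have e1 : T * (p * q * b2 * L ^ 2) = p * q * b2 * (T * L ^ 2) := by ring
    rw [e1] at hV
    refine hV.trans ?_
    have h3 : p * q * b2 * L ^ 2 + C * (s * L) ≤ C1 * L ^ 2 := by
      have h5 : L ≤ L ^ 2 := le_self_pow₀ (by linarith) (by norm_num)
      have h6 : C * (s * L) ≤ C * s * L ^ 2 := by
        rw [← mul_assoc]
        exact mul_le_mul_of_nonneg_left h5 (by positivity)
      have e2 : C1 * L ^ 2 = p * q * b2 * L ^ 2 + C * s * L ^ 2 := by rw [hC1]; ring
      linarith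
    have h4 : 4 * (N:ℝ) * (1 + Real.log N) * (p * q * b2 * L ^ 2 + C * (s * L)) ≤
        4 * (2 * T ^ s) * (L + 2 * L) * (C1 * L ^ 2) := by
      have : 0 ≤ Real.log N := Real.log_natCast_nonneg N
      gcongr
      linarith
    have h5 : 4 * (2 * T ^ s) * (L + 2 * L) * (C1 * L ^ 2) = 24 * C1 * (T ^ s * L ^ 3) := by ring
    have h6 : 24 * C1 * (T ^ s * L ^ 3) ≤ 32 * C1 * (T ^ s * L ^ 3) := by
      gcongr; norm_num
    have e2 : T * (C * (s * L)) = C * s * (T * L) := by ring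
    linarith
  -- comparison of S and P
  set e : ℝ := K * T ^ (s - 1) with he
  have he0 : 0 < e := by positivity
  have hTs' : T ^ (s - 1) = T ^ s / T := by rw [Real.rpow_sub hT0, Real.rpow_one]
  have hpt : ∀ t ∈ Icc T (2 * T), |‖SS α a t‖ ^ 2 - ‖P t‖ ^ 2| ≤ e * (K + 1) + e * ‖P t‖ ^ 2 := by
    intro t ht
    have h3 : ‖SS α a t + P t‖ ≤ e := by
      refine (hSt t (by linarith [ht.1])).trans ?_
      rw [hexpT, he, hTs', ← mul_div_assoc]
      apply div_le_div_of_nonneg_left (by positivity) hT0 ht.1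
    have h4 : |‖SS α a t‖ - ‖P t‖| ≤ e := by
      have := abs_norm_sub_norm_le (SS α a t) (-(P t))
      rw [norm_neg, sub_neg_eq_add] at this
      linarith
    have h5 : e ≤ K := by
      rw [he]
      have h6 : T ^ (s - 1) ≤ 1 := by
        apply Real.rpow_le_one_of_one_le_of_nonpos (by linarith) (by linarith)
      exact mul_le_of_le_one_right hK.le h6
    have h6 : ‖SS α a t‖ ^ 2 - ‖P t‖ ^ 2 = (‖SS α a t‖ - ‖P t‖) * (‖SS α a t‖ + ‖P t‖) := by ring
    rw [h6, abs_mul, abs_of_nonneg (by positivity : 0 ≤ ‖SS α a t‖ + ‖P t‖)]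
    have h7 : ‖SS α a t‖ + ‖P t‖ ≤ K + 2 * ‖P t‖ := by
      have := (abs_le.mp h4).2
      linarith
    have h8 : 2 * ‖P t‖ ≤ 1 + ‖P t‖ ^ 2 := by
      have e1 := sq_nonneg (‖P t‖ - 1)
      have e2 : (‖P t‖ - 1) ^ 2 = ‖P t‖ ^ 2 - 2 * ‖P t‖ + 1 := by ring
      rw [e2] at e1
      linarith
    have h9 : ‖SS α a t‖ + ‖P t‖ ≤ K + (1 + ‖P t‖ ^ 2) := by linarith
    calc |‖SS α a t‖ - ‖P t‖| * (‖SS α a t‖ + ‖P t‖) ≤ e * (K + (1 + ‖P t‖ ^ 2)) :=
          mul_le_mul h4 h9 (by positivity) he0.le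
      _ = _ := by ring
  have hcmp : |(∫ t in T..(2 * T), ‖SS α a t‖ ^ 2) - IP| ≤ T * (e * (K + 1)) + e * IP := by
    have i1 : IntervalIntegrable (fun t => ‖SS α a t‖ ^ 2) volume T (2 * T) :=
      Continuous.intervalIntegrable (by fun_prop) _ _
    have i2 : IntervalIntegrable (fun t => ‖P t‖ ^ 2) volume T (2 * T) :=
      Continuous.intervalIntegrable (by fun_prop) _ _
    rw [hIP, ← intervalIntegral.integral_sub i1 i2]
    calc |∫ t in T..(2 * T), (‖SS α a t‖ ^ 2 - ‖P t‖ ^ 2)|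
        ≤ ∫ t in T..(2 * T), |‖SS α a t‖ ^ 2 - ‖P t‖ ^ 2| :=
          intervalIntegral.abs_integral_le_integral_abs (by linarith)
      _ ≤ ∫ t in T..(2 * T), (e * (K + 1) + e * ‖P t‖ ^ 2) := by
          apply intervalIntegral.integral_mono_on (by linarith)
          · exact Continuous.intervalIntegrable (by fun_prop) _ _
          · exact Continuous.intervalIntegrable (by fun_prop) _ _
          · exact hpt
      _ = _ := by
          rw [intervalIntegral.integral_add (by simp) (i2.const_mul _),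
            intervalIntegral.integral_const, intervalIntegral.integral_const_mul, smul_eq_mul]
          ring
  have hTL : T * L ≤ T * L ^ 2 := by
    have : L ≤ L ^ 2 := le_self_pow₀ (by linarith) (by norm_num)
    exact mul_le_mul_of_nonneg_left this hT0.le
  have hTs3 : T ^ s * L ^ 3 ≤ T * L ^ 2 := by
    have e1 : T ^ s * L ^ 3 = (T ^ (s - 1) * L) * (T * L ^ 2) := by
      rw [hTs']; field_simp
    rw [e1]
    exact mul_le_of_le_one_left (by positivity) hT3
  have hIPle : IP ≤ (C1 + C * s + 32 * C1) * (T * L ^ 2) := by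
    have h3 := (abs_le.mp hV2).2
    have h4 : C * s * (T * L) ≤ C * s * (T * L ^ 2) := by gcongr
    have h5 : 32 * C1 * (T ^ s * L ^ 3) ≤ 32 * C1 * (T * L ^ 2) := by gcongr
    have h6 : p * q * b2 * (T * L ^ 2) ≤ C1 * (T * L ^ 2) := by
      have : p * q * b2 ≤ C1 := by rw [hC1]; have := mul_pos hC hs0; linarith
      exact mul_le_mul_of_nonneg_right this (by positivity)
    have e1 : (C1 + C * s + 32 * C1) * (T * L ^ 2) = C1 * (T * L ^ 2) + C * s * (T * L ^ 2) +
        32 * C1 * (T * L ^ 2) := by ring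
    linarith
  have htot : |(∫ t in T..(2 * T), ‖SS α a t‖ ^ 2) - p * q * b2 * (T * L ^ 2)| ≤
      A * (T * L + T ^ s * L ^ 3) := by
    have e1 : (∫ t in T..(2 * T), ‖SS α a t‖ ^ 2) - p * q * b2 * (T * L ^ 2) =
        ((∫ t in T..(2 * T), ‖SS α a t‖ ^ 2) - IP) + (IP - p * q * b2 * (T * L ^ 2)) := by ring
    rw [e1]
    refine (abs_add_le _ _).trans ?_
    have h3 : T * (e * (K + 1)) = K * (K + 1) * T ^ s := by
      rw [he, hTs']; field_simp
    have h4 : e * IP ≤ K * (C1 + C * s + 32 * C1) * (T ^ s * L ^ 2) := by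
      calc e * IP ≤ e * ((C1 + C * s + 32 * C1) * (T * L ^ 2)) := by gcongr
        _ = _ := by rw [he, hTs']; field_simp
    have h5 : T ^ s ≤ T ^ s * L ^ 3 := by
      apply le_mul_of_one_le_right (by positivity)
      exact one_le_pow₀ (by linarith)
    have h6 : T ^ s * L ^ 2 ≤ T ^ s * L ^ 3 := by
      have : L ^ 2 ≤ L ^ 3 := pow_le_pow_right₀ (by linarith) (by norm_num)
      gcongr
    have h7 : K * (K + 1) * T ^ s ≤ K * (K + 1) * (T ^ s * L ^ 3) := by gcongr
    have h8 : K * (C1 + C * s + 32 * C1) * (T ^ s * L ^ 2) ≤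
        K * (C1 + C * s + 32 * C1) * (T ^ s * L ^ 3) := by gcongr
    have h9 : 0 ≤ (32 * C1 + K * (K + 1) + K * (C1 + C * s + 32 * C1)) * (T * L) := by positivity
    have h10 : 0 ≤ C * s * (T ^ s * L ^ 3) := by positivity
    have e2 : A * (T * L + T ^ s * L ^ 3) = C * s * (T * L) + 32 * C1 * (T ^ s * L ^ 3) +
        K * (K + 1) * (T ^ s * L ^ 3) + K * (C1 + C * s + 32 * C1) * (T ^ s * L ^ 3) +
        ((32 * C1 + K * (K + 1) + K * (C1 + C * s + 32 * C1)) * (T * L) +
          C * s * (T ^ s * L ^ 3)) := by rw [hA]; ring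
    rw [e2]
    linarith
  refine htot.trans ?_
  have h3 : T * L ≤ ε / (2 * A) * (T * L ^ 2) := by
    have e1 : T * L = (1 / L) * (T * L ^ 2) := by field_simp
    rw [e1]
    gcongr
  have h4 : T ^ s * L ^ 3 ≤ ε / (2 * A) * (T * L ^ 2) := by
    have e1 : T ^ s * L ^ 3 = (T ^ (s - 1) * L) * (T * L ^ 2) := by
      rw [hTs']; field_simp
    rw [e1]
    gcongr
  calc A * (T * L + T ^ s * L ^ 3) ≤ A * (ε / (2 * A) * (T * L ^ 2) +
        ε / (2 * A) * (T * L ^ 2)) := by gcongr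
    _ = _ := by field_simp; ring

end Pool.Agent.ZetaGaps
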