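import Pool.Agent.ZetaGaps.NLMean

/-!
# The pointwise inequality in good windows
-/

open scoped ContDiff

namespace Pool.Agent.ZetaGaps

open MeasureTheory Real Set Filter Topology
open Pool.Agent.Hadamard Pool.Agent.DirPoly Pool.Agent.ZGap Pool.Agent.ZGap.OneSided
open Pool.Agent.ZGap.Res (bmp bmp_RS bmp_zero chat RS BD norm_hh_le)

lemma norm_sum_sq {ι : Type*} (F : Finset ι) (w y : ι → ℝ) (α : ℝ) :
    ‖∑ j ∈ F, Complex.exp (((-(α * y j) : ℝ) : ℂ) * Complex.I) * ((w j : ℝ) : ℂ)‖ ^ 2 =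
      ∑ j ∈ F, ∑ k ∈ F, w j * w k * Real.cos (α * (y j - y k)) := by
  have hre : (∑ j ∈ F, Complex.exp (((-(α * y j) : ℝ) : ℂ) * Complex.I) * ((w j : ℝ) : ℂ)).re =
      ∑ j ∈ F, w j * Real.cos (α * y j) := by
    rw [Complex.re_sum]
    refine Finset.sum_congr rfl fun j _ => ?_
    rw [mul_comm, Complex.re_ofReal_mul, Complex.exp_ofReal_mul_I_re, Real.cos_neg]
  have him : (∑ j ∈ F, Complex.exp (((-(α * y j) : ℝ) : ℂ) * Complex.I) * ((w j : ℝ) : ℂ)).im =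
      -∑ j ∈ F, w j * Real.sin (α * y j) := by
    rw [Complex.im_sum, ← Finset.sum_neg_distrib]
    refine Finset.sum_congr rfl fun j _ => ?_
    rw [mul_comm, Complex.im_ofReal_mul, Complex.exp_ofReal_mul_I_im, Real.sin_neg, mul_neg]
  rw [Complex.sq_norm, Complex.normSq_apply, hre, him, neg_mul_neg, Finset.sum_mul_sum,
    Finset.sum_mul_sum, ← Finset.sum_add_distrib]
  refine Finset.sum_congr rfl fun j _ => ?_
  rw [← Finset.sum_add_distrib]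
  refine Finset.sum_congr rfl fun k _ => ?_
  rw [mul_sub, Real.cos_sub]
  ring

lemma abs_cos_sub_cos_le (a b : ℝ) : |Real.cos a - Real.cos b| ≤ 2 * |Real.sin ((a + b) / 2)| := by
  rw [Real.cos_sub_cos, abs_mul, abs_mul]
  have h1 : |(-2:ℝ)| = 2 := by norm_num
  rw [h1]
  have := Real.abs_sin_le_one ((a - b) / 2)
  calc 2 * |Real.sin ((a + b) / 2)| * |Real.sin ((a - b) / 2)|
      ≤ 2 * |Real.sin ((a + b) / 2)| * 1 := by gcongr
    _ = _ := mul_one _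

lemma finite_diff_le {ι : Type*} (F : Finset ι) (w y : ι → ℝ) {α1 α2 σ : ℝ}
    (hσ : ∀ j ∈ F, ∀ k ∈ F, |Real.sin ((α1 + α2) / 2 * (y j - y k))| ≤ σ) :
    ‖∑ j ∈ F, Complex.exp (((-(α1 * y j) : ℝ) : ℂ) * Complex.I) * ((w j : ℝ) : ℂ)‖ ^ 2 -
      ‖∑ j ∈ F, Complex.exp (((-(α2 * y j) : ℝ) : ℂ) * Complex.I) * ((w j : ℝ) : ℂ)‖ ^ 2 ≤
      2 * σ * (∑ j ∈ F, |w j|) ^ 2 := by
  rw [norm_sum_sq, norm_sum_sq, ← Finset.sum_sub_distrib]
  have h1 : ∀ j ∈ F, (∑ k ∈ F, w j * w k * Real.cos (α1 * (y j - y k))) -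
      (∑ k ∈ F, w j * w k * Real.cos (α2 * (y j - y k))) ≤
      ∑ k ∈ F, 2 * σ * (|w j| * |w k|) := by
    intro j hj
    rw [← Finset.sum_sub_distrib]
    refine Finset.sum_le_sum fun k hk => ?_
    rw [← mul_sub]
    refine (le_abs_self _).trans ?_
    rw [abs_mul, abs_mul]
    have h2 := abs_cos_sub_cos_le (α1 * (y j - y k)) (α2 * (y j - y k))
    have e : (α1 * (y j - y k) + α2 * (y j - y k)) / 2 = (α1 + α2) / 2 * (y j - y k) := by ring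
    rw [e] at h2
    have h3 := hσ j hj k hk
    calc |w j| * |w k| * |Real.cos (α1 * (y j - y k)) - Real.cos (α2 * (y j - y k))|
        ≤ |w j| * |w k| * (2 * σ) := by
          apply mul_le_mul_of_nonneg_left _ (by positivity)
          linarith
      _ = _ := by ring
  refine (Finset.sum_le_sum h1).trans (le_of_eq ?_)
  rw [sq, Finset.sum_mul_sum, Finset.mul_sum]
  refine Finset.sum_congr rfl fun j _ => ?_
  rw [Finset.mul_sum]

/-- The pointwise inequality. -/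
lemma pointwise {C a α1 α2 c η r T t Hh : ℝ} {K0 : ℕ}
    (hC0 : 0 < C) (hC : ∀ x : ℝ, |wf a x| ≤ C * (a / (1 + (a * x) ^ 2) ^ 2)) (ha : 1 ≤ a)
    (hc : 0 < c) (hη : 0 ≤ η) (hT : 2 ≤ T) (hr : 0 < r) (hrT : r ≤ T / 2) (ht : T ≤ t)
    (ht2 : t ≤ 2 * T) (hgood : Good c η r K0 t)
    (hα : (α1 + α2) / 2 = Real.log T / (2 * c))
    (hsum : Summable (fun ρ : ntz => (mult ρ : ℝ) * (a / (1 + (a * (t - (ρ : ℂ).im)) ^ 2))))
    (hH : ∑' ρ : ntz, (mult ρ : ℝ) * (a / (1 + (a * (t - (ρ : ℂ).im)) ^ 2)) ≤ Hh) :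
    ‖SS α1 a t‖ ^ 2 - ‖SS α2 a t‖ ^ 2 ≤
      (2 * (Real.pi / c * (K0 * η + r)) * C ^ 2 + 4 * C ^ 2 / (1 + (a * r) ^ 2)) * Hh ^ 2 := by
  classical
  have ha0 : 0 < a := by linarith
  set g : ntz → ℝ := fun ρ => (mult ρ : ℝ) * (a / (1 + (a * (t - (ρ : ℂ).im)) ^ 2)) with hg
  have hg0 : ∀ ρ, 0 ≤ g ρ := fun ρ => by positivity
  have hH0 : 0 ≤ Hh := (tsum_nonneg hg0).trans hH
  -- the finite set of near zeros
  have hfin : {ρ : ntz | |(ρ : ℂ).im - t| < r}.Finite := by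
    have h1 := finite_ntz_im (|t| + r)
    refine Set.Finite.of_finite_image (f := (Subtype.val : ntz → ℂ)) (h1.subset ?_)
      Subtype.val_injective.injOn
    rintro _ ⟨ρ, hρ, rfl⟩
    refine ⟨ρ.2, ?_⟩
    have h2 : |(ρ : ℂ).im| ≤ |(ρ : ℂ).im - t| + |t| := by
      have := abs_add_le ((ρ : ℂ).im - t) t
      rwa [sub_add_cancel] at this
    have h3 : |(ρ : ℂ).im - t| < r := hρ
    linarith
  set F : Finset ntz := hfin.toFinset with hF
  have hmemF : ∀ ρ, ρ ∈ F ↔ |(ρ : ℂ).im - t| < r := fun ρ => by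
    rw [hF, Set.Finite.mem_toFinset]
    rfl
  set w : ntz → ℝ := fun ρ => (mult ρ : ℝ) * wf a (t - (ρ : ℂ).im) with hw
  have hwg : ∀ ρ, |w ρ| ≤ C * g ρ := by
    intro ρ
    simp only [hw, hg]
    rw [abs_mul, Nat.abs_cast]
    have h1 := hC (t - (ρ : ℂ).im)
    have h2 : a / (1 + (a * (t - (ρ : ℂ).im)) ^ 2) ^ 2 ≤ a / (1 + (a * (t - (ρ : ℂ).im)) ^ 2) := by
      apply div_le_div_of_nonneg_left ha0.le (by positivity)
      nlinarith [sq_nonneg (a * (t - (ρ : ℂ).im)), sq_nonneg ((a * (t - (ρ : ℂ).im)) ^ 2)]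
    calc (mult ρ : ℝ) * |wf a (t - (ρ : ℂ).im)| ≤
        (mult ρ : ℝ) * (C * (a / (1 + (a * (t - (ρ : ℂ).im)) ^ 2))) := by
          apply mul_le_mul_of_nonneg_left _ (Nat.cast_nonneg _)
          exact h1.trans (by gcongr)
      _ = _ := by ring
  have hwout : ∀ ρ, ρ ∉ F → |w ρ| ≤ C / (1 + (a * r) ^ 2) * g ρ := by
    intro ρ hρ
    rw [hmemF, not_lt] at hρ
    simp only [hw, hg]
    rw [abs_mul, Nat.abs_cast]
    have h1 := hC (t - (ρ : ℂ).im)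
    set y := a * (t - (ρ : ℂ).im) with hy
    have h2 : (a * r) ^ 2 ≤ y ^ 2 := by
      rw [sq_le_sq, hy, abs_mul, abs_mul, abs_of_pos ha0, abs_of_pos hr, abs_sub_comm]
      gcongr
    have h3 : a / (1 + y ^ 2) ^ 2 ≤ 1 / (1 + (a * r) ^ 2) * (a / (1 + y ^ 2)) := by
      rw [div_mul_div_comm, one_mul]
      apply div_le_div_of_nonneg_left ha0.le (by positivity)
      calc (1 + (a * r) ^ 2) * (1 + y ^ 2) ≤ (1 + y ^ 2) * (1 + y ^ 2) :=
            mul_le_mul_of_nonneg_right (by linarith) (by positivity)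
        _ = _ := by ring
    calc (mult ρ : ℝ) * |wf a (t - (ρ : ℂ).im)| ≤
        (mult ρ : ℝ) * (C * (1 / (1 + (a * r) ^ 2) * (a / (1 + y ^ 2)))) := by
          apply mul_le_mul_of_nonneg_left _ (Nat.cast_nonneg _)
          exact h1.trans (by gcongr)
      _ = _ := by ring
  -- terms
  set f : ℝ → ntz → ℂ := fun α ρ => (mult ρ : ℂ) * ff (Bf α a) (t - (ρ : ℂ).im) with hf
  have hfw : ∀ α ρ, f α ρ = Complex.exp (((-(α * (t - (ρ : ℂ).im)) : ℝ) : ℂ) * Complex.I) *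
      ((w ρ : ℝ) : ℂ) := by
    intro α ρ
    simp only [hf, hw]
    rw [ff_Bf ha0]
    push_cast
    ring
  have hnf : ∀ α ρ, ‖f α ρ‖ = |w ρ| := by
    intro α ρ
    rw [hfw, norm_mul, Complex.norm_exp_ofReal_mul_I, one_mul, Complex.norm_real, Real.norm_eq_abs]
  have hfs : ∀ α, Summable (f α) := by
    intro α
    refine Summable.of_norm_bounded (hsum.mul_left C) fun ρ => ?_
    rw [hnf]
    exact hwg ρ
  set out : ℝ := C / (1 + (a * r) ^ 2) * Hh with hout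
  set E : ℝ := C * Hh with hE
  have hout0 : 0 ≤ out := by positivity
  have hE0 : 0 ≤ E := by positivity
  have hSSin : ∀ α, ‖SS α a t - ∑ ρ ∈ F, f α ρ‖ ≤ out := by
    intro α
    have h1 : SS α a t - ∑ ρ ∈ F, f α ρ = ∑' ρ : ntz, (if ρ ∈ F then 0 else f α ρ) := by
      have h2 : ∑ ρ ∈ F, f α ρ = ∑' ρ : ntz, (if ρ ∈ F then f α ρ else 0) := by
        rw [tsum_eq_sum (s := F) (fun ρ hρ => if_neg hρ)]
        exact Finset.sum_congr rfl fun ρ hρ => (if_pos hρ).symm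
      have hs2 : Summable (fun ρ : ntz => if ρ ∈ F then f α ρ else 0) :=
        summable_of_ne_finset_zero (s := F) (fun ρ hρ => if_neg hρ)
      have h3 : SS α a t = ∑' ρ : ntz, f α ρ := rfl
      rw [h3, h2, ← (hfs α).tsum_sub hs2]
      refine tsum_congr fun ρ => ?_
      split_ifs <;> simp
    rw [h1]
    have hs3 : Summable (fun ρ : ntz => C / (1 + (a * r) ^ 2) * g ρ) := hsum.mul_left _
    refine (tsum_of_norm_bounded hs3.hasSum fun ρ => ?_).trans ?_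
    · split_ifs with h
      · rw [norm_zero]
        have := hg0 ρ
        positivity
      · rw [hnf]
        exact hwout ρ h
    · rw [tsum_mul_left, hout]
      gcongr
  have hsumF : ∑ ρ ∈ F, |w ρ| ≤ E := by
    calc ∑ ρ ∈ F, |w ρ| ≤ ∑ ρ ∈ F, C * g ρ := Finset.sum_le_sum fun ρ _ => hwg ρ
      _ = C * ∑ ρ ∈ F, g ρ := by rw [Finset.mul_sum]
      _ ≤ C * ∑' ρ, g ρ := by
          gcongr
          exact hsum.sum_le_tsum F fun ρ _ => hg0 ρ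
      _ ≤ _ := by rw [hE]; gcongr
  have hin : ∀ α, ‖∑ ρ ∈ F, f α ρ‖ ≤ E := by
    intro α
    refine (norm_sum_le _ _).trans ?_
    simp_rw [hnf]
    exact hsumF
  have hSSE : ∀ α, ‖SS α a t‖ ≤ E := by
    intro α
    have hs3 : Summable (fun ρ : ntz => C * g ρ) := hsum.mul_left _
    refine (tsum_of_norm_bounded (f := f α) hs3.hasSum fun ρ => ?_).trans ?_
    · rw [hnf]
      exact hwg ρ
    · rw [tsum_mul_left, hE]
      gcongr
  -- sin bound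
  have hσ : ∀ ρ ∈ F, ∀ ρ' ∈ F, |Real.sin ((α1 + α2) / 2 *
      ((t - (ρ : ℂ).im) - (t - (ρ' : ℂ).im)))| ≤ Real.pi / c * (K0 * η + r) := by
    intro ρ hρ ρ' hρ'
    rw [hmemF] at hρ hρ'
    have h1 := sin_le_of_good hc hη hT hr hrT ht ht2 hgood ρ'.2 ρ.2 hρ' hρ
    rw [hα]
    have e : Real.log T / (2 * c) * ((t - (ρ : ℂ).im) - (t - (ρ' : ℂ).im)) =
        Real.log T * ((ρ' : ℂ).im - (ρ : ℂ).im) / (2 * c) := by ring
    rw [e]
    exact h1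
  have hdiff := finite_diff_le F w (fun ρ : ntz => t - (ρ : ℂ).im) hσ
  have hσ0 : 0 ≤ Real.pi / c * (K0 * η + r) := by
    have := Real.pi_pos
    positivity
  simp_rw [← hfw] at hdiff
  have h1 : ‖∑ ρ ∈ F, f α1 ρ‖ ^ 2 - ‖∑ ρ ∈ F, f α2 ρ‖ ^ 2 ≤
      2 * (Real.pi / c * (K0 * η + r)) * E ^ 2 := by
    refine hdiff.trans ?_
    have : 0 ≤ ∑ ρ ∈ F, |w ρ| := Finset.sum_nonneg fun ρ _ => abs_nonneg _
    gcongr
  have h2 : ∀ α, |‖SS α a t‖ ^ 2 - ‖∑ ρ ∈ F, f α ρ‖ ^ 2| ≤ 2 * E * out := by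
    intro α
    have e : ‖SS α a t‖ ^ 2 - ‖∑ ρ ∈ F, f α ρ‖ ^ 2 = (‖SS α a t‖ - ‖∑ ρ ∈ F, f α ρ‖) *
        (‖SS α a t‖ + ‖∑ ρ ∈ F, f α ρ‖) := by ring
    rw [e, abs_mul, abs_of_nonneg (by positivity : 0 ≤ ‖SS α a t‖ + ‖∑ ρ ∈ F, f α ρ‖)]
    have h3 := (abs_norm_sub_norm_le (SS α a t) (∑ ρ ∈ F, f α ρ)).trans (hSSin α)
    have h4 : ‖SS α a t‖ + ‖∑ ρ ∈ F, f α ρ‖ ≤ 2 * E := by linarith [hSSE α, hin α]
    calc _ ≤ out * (2 * E) := mul_le_mul h3 h4 (by positivity) hout0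
      _ = _ := by ring
  have h3 := (abs_le.mp (h2 α1)).2
  have h4 := (abs_le.mp (h2 α2)).1
  have e5 : (2 * (Real.pi / c * (K0 * η + r)) * C ^ 2 + 4 * C ^ 2 / (1 + (a * r) ^ 2)) * Hh ^ 2 =
      2 * (Real.pi / c * (K0 * η + r)) * E ^ 2 + 4 * E * out := by
    rw [hE, hout]; ring
  rw [e5]
  linarith

/-- The trivial bound. -/
lemma SS_le {C a α t Hh : ℝ} (hC0 : 0 < C)
    (hC : ∀ x : ℝ, |wf a x| ≤ C * (a / (1 + (a * x) ^ 2) ^ 2)) (ha : 1 ≤ a)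
    (hsum : Summable (fun ρ : ntz => (mult ρ : ℝ) * (a / (1 + (a * (t - (ρ : ℂ).im)) ^ 2))))
    (hH : ∑' ρ : ntz, (mult ρ : ℝ) * (a / (1 + (a * (t - (ρ : ℂ).im)) ^ 2)) ≤ Hh) :
    ‖SS α a t‖ ≤ C * Hh := by
  have ha0 : 0 < a := by linarith
  have hs3 := hsum.mul_left C
  unfold SS
  refine (tsum_of_norm_bounded hs3.hasSum fun ρ => ?_).trans ?_
  · rw [norm_mul, Complex.norm_natCast, norm_ff_Bf ha0]
    have h1 := hC (t - (ρ : ℂ).im)
    have h2 : a / (1 + (a * (t - (ρ : ℂ).im)) ^ 2) ^ 2 ≤ a / (1 + (a * (t - (ρ : ℂ).im)) ^ 2) := by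
      apply div_le_div_of_nonneg_left ha0.le (by positivity)
      nlinarith [sq_nonneg (a * (t - (ρ : ℂ).im)), sq_nonneg ((a * (t - (ρ : ℂ).im)) ^ 2)]
    calc (mult ρ : ℝ) * |wf a (t - (ρ : ℂ).im)| ≤
        (mult ρ : ℝ) * (C * (a / (1 + (a * (t - (ρ : ℂ).im)) ^ 2))) := by
          apply mul_le_mul_of_nonneg_left _ (Nat.cast_nonneg _)
          exact h1.trans (by gcongr)
      _ = _ := by ring
  · rw [tsum_mul_left]
    gcongr

end Pool.Agent.ZetaGaps
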