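import Pool.Agent.ZGap.Res.Om
import Pool.Agent.ZGap.NonLattice.B
import Pool.Agent.ZetaGaps.LocalMoment
import Pool.Agent.ZetaGaps.Bad

/-!
# The local sums `S_α(t) = ∑ m(ρ) e^{-iα(t-γ)} w(t-γ)` and their mean squares
-/

open scoped ContDiff

namespace Pool.Agent.ZetaGaps

open MeasureTheory Real Set Filter Topology
open Pool.Agent.Hadamard Pool.Agent.DirPoly Pool.Agent.ZGap Pool.Agent.ZGap.OneSided
open Pool.Agent.ZGap.Res (bmp bmp_RS bmp_zero chat RS BD norm_hh_le)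

/-- spectral side -/
noncomputable def Bf (α a : ℝ) (ξ : ℝ) : ℂ := ((bmp ((ξ - α) / a) : ℝ) : ℂ)

/-- real local weight -/
noncomputable def wf (a x : ℝ) : ℝ := a * chat bmp (a * x)

lemma ff_Bf {a : ℝ} (ha : 0 < a) (α x : ℝ) :
    ff (Bf α a) x = Complex.exp (((-(α * x) : ℝ) : ℂ) * Complex.I) * ((wf a x : ℝ) : ℂ) := by
  set F : ℝ → ℂ := fun s => ((bmp s : ℝ) : ℂ) * Complex.exp (((-((α + a * s) * x) : ℝ) : ℂ) * Complex.I)
    with hF
  have h1 : ff (Bf α a) x = ∫ ξ : ℝ, F ((ξ - α) / a) := by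
    unfold ff Bf
    refine integral_congr_ae (Eventually.of_forall fun ξ => ?_)
    simp only [hF]
    have e : α + a * ((ξ - α) / a) = ξ := by field_simp; ring
    rw [e]
    congr 2
    push_cast; ring
  have h2 : ∫ ξ : ℝ, F ((ξ - α) / a) = (a : ℂ) * ∫ s : ℝ, F s := by
    rw [integral_sub_right_eq_self (fun u => F (u / a)) α, Measure.integral_comp_div F a,
      abs_of_pos ha, Complex.real_smul]
  have h3 : ∀ s : ℝ, F s = Complex.exp (((-(α * x) : ℝ) : ℂ) * Complex.I) *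
      (((bmp s * Real.cos (s * (a * x)) : ℝ) : ℂ) -
        ((bmp s * Real.sin (s * (a * x)) : ℝ) : ℂ) * Complex.I) := by
    intro s
    simp only [hF]
    have e1 : Complex.exp (((-((α + a * s) * x) : ℝ) : ℂ) * Complex.I) =
        Complex.exp (((-(α * x) : ℝ) : ℂ) * Complex.I) *
          Complex.exp (((-(s * (a * x)) : ℝ) : ℂ) * Complex.I) := by
      rw [← Complex.exp_add]
      congr 1
      push_cast; ring
    rw [e1, Complex.exp_mul_I (((-(s * (a * x)) : ℝ) : ℂ)), ← Complex.ofReal_cos,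
      ← Complex.ofReal_sin, Real.cos_neg, Real.sin_neg]
    push_cast
    ring
  rw [h1, h2]
  simp_rw [h3]
  rw [MeasureTheory.integral_const_mul,
    integral_sub (bmp_RS.integrable_mul_cos _).ofReal
      ((bmp_RS.integrable_mul_sin _).ofReal.mul_const _), integral_mul_const,
    integral_complex_ofReal, integral_complex_ofReal, bmp_RS.integral_sin]
  unfold wf
  have : (∫ s : ℝ, bmp s * Real.cos (s * (a * x))) = chat bmp (a * x) := rfl
  rw [this]
  push_cast
  ring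

lemma norm_ff_Bf {a : ℝ} (ha : 0 < a) (α x : ℝ) : ‖ff (Bf α a) x‖ = |wf a x| := by
  rw [ff_Bf ha, norm_mul, Complex.norm_exp_ofReal_mul_I, one_mul, Complex.norm_real,
    Real.norm_eq_abs]

lemma exists_wf_le : ∃ C : ℝ, 0 < C ∧ ∀ a x : ℝ, 0 < a →
    |wf a x| ≤ C * (a / (1 + (a * x) ^ 2) ^ 2) := by
  obtain ⟨C0, hC0, h0⟩ := bmp_RS.chat.decay 0 0
  obtain ⟨C4, hC4, h4⟩ := bmp_RS.chat.decay 4 0
  refine ⟨2 * (C0 + C4), by positivity, fun a x ha => ?_⟩
  have h1 := h0 (a * x)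
  have h2 := h4 (a * x)
  simp only [iteratedDeriv_zero, pow_zero, one_mul] at h1 h2
  unfold wf
  rw [abs_mul, abs_of_pos ha]
  set y := a * x with hy
  have h3 : |chat bmp y| ≤ 2 * (C0 + C4) / (1 + y ^ 2) ^ 2 := by
    rw [le_div_iff₀ (by positivity)]
    have e1 : (1 + y ^ 2) ^ 2 ≤ 2 * (1 + |y| ^ 4) := by
      have : |y| ^ 4 = (y ^ 2) ^ 2 := by rw [← sq_abs y]; ring
      rw [this]
      nlinarith [sq_nonneg (1 - y ^ 2)]
    calc |chat bmp y| * (1 + y ^ 2) ^ 2 ≤ |chat bmp y| * (2 * (1 + |y| ^ 4)) := by gcongr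
      _ = 2 * (|chat bmp y| + |y| ^ 4 * |chat bmp y|) := by ring
      _ ≤ _ := by linarith
  calc a * |chat bmp y| ≤ a * (2 * (C0 + C4) / (1 + y ^ 2) ^ 2) := by gcongr
    _ = _ := by ring

lemma wf_continuous (a : ℝ) : Continuous (wf a) := by
  unfold wf
  have := bmp_RS.chat.continuous
  fun_prop

lemma exists_adm : ∃ K : ℝ, 0 < K ∧ ∀ a α : ℝ, 1 ≤ a → a ≤ α →
    Adm (Bf α a) (α + a) (K * Real.exp (α + a)) := by
  obtain ⟨K, hK, hb⟩ := bmp_RS.bd
  refine ⟨K, hK, fun a α ha hα => ?_⟩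
  have ha0 : 0 < a := by linarith
  have hs : ContDiff ℝ ∞ (fun v : ℝ => bmp ((v - α) / a)) := by
    have h0 : ContDiff ℝ ∞ (bmp : ℝ → ℝ) := bmp.contDiff
    exact h0.comp (by fun_prop)
  have h0 : ∀ v, v ≤ 0 → bmp ((v - α) / a) = 0 := by
    intro v hv
    apply bmp_zero
    rw [abs_div, abs_of_pos ha0, abs_of_nonpos (by linarith), le_div_iff₀ ha0]
    linarith
  have h1 : ∀ v, α + a ≤ v → bmp ((v - α) / a) = 0 := by
    intro v hv
    apply bmp_zero
    rw [abs_div, abs_of_pos ha0, abs_of_nonneg (by linarith), le_div_iff₀ ha0]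
    linarith
  have h4 : ∀ v, |iteratedDeriv 4 (fun v : ℝ => bmp ((v - α) / a)) v| ≤ K := by
    intro v
    have e1 : (fun v : ℝ => bmp ((v - α) / a)) =
        fun v : ℝ => (fun y : ℝ => bmp (y - α / a)) (a⁻¹ * v) := by
      funext v
      simp only
      congr 1
      field_simp
    have hsh : ContDiff ℝ ∞ (fun y : ℝ => bmp (y - α / a)) := by
      have h0 : ContDiff ℝ ∞ (bmp : ℝ → ℝ) := bmp.contDiff
      exact h0.comp (by fun_prop)
    have hbd : BD K (fun y : ℝ => bmp (y - α / a)) := by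
      intro n hn x
      rw [iteratedDeriv_comp_sub_const]
      exact hb n hn _
    rw [e1]
    refine (hbd.comp_mul hsh ?_) 4 le_rfl v
    rw [abs_of_pos (by positivity)]
    exact inv_le_one_of_one_le₀ ha
  refine ⟨?_, ?_, ?_, ?_⟩
  · have := hs.continuous
    unfold Bf
    fun_prop
  · intro v hv
    rw [Bf, h0 v hv, Complex.ofReal_zero]
  · intro v hv
    rw [Bf, h1 v hv, Complex.ofReal_zero]
  · intro u
    exact norm_hh_le hs (by linarith) h0 h1 h4 u

/-- the local sum -/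
noncomputable def SS (α a t : ℝ) : ℂ := ∑' ρ : ntz, (mult ρ : ℂ) * ff (Bf α a) (t - (ρ : ℂ).im)

lemma mult_summable_of_le {g : ℝ → ℝ} {K : ℝ} (hg : ∀ x, |g x| ≤ K / (1 + x ^ 2)) (t : ℝ) :
    Summable (fun ρ : ntz => (mult ρ : ℝ) * |g (t - (ρ : ℂ).im)|) := by
  refine Summable.of_nonneg_of_le (fun ρ => by positivity) (fun ρ => ?_)
    ((summable_weight t).mul_left K)
  calc _ ≤ (mult ρ : ℝ) * (K / (1 + (t - (ρ : ℂ).im) ^ 2)) := by
        have := hg (t - (ρ : ℂ).im)
        gcongr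
    _ = _ := by ring

lemma wf_le {C a : ℝ} (hC : ∀ x : ℝ, |wf a x| ≤ C * (a / (1 + (a * x) ^ 2) ^ 2)) (hC0 : 0 < C)
    (ha : 1 ≤ a) (x : ℝ) : |wf a x| ≤ C * a / (1 + x ^ 2) := by
  refine (hC x).trans ?_
  rw [← mul_div_assoc]
  apply div_le_div_of_nonneg_left (by positivity) (by positivity)
  have h1 : x ^ 2 ≤ (a * x) ^ 2 := by
    rw [mul_pow]
    exact le_mul_of_one_le_left (sq_nonneg x) (one_le_pow₀ ha)
  nlinarith [sq_nonneg (a * x), sq_nonneg ((a * x) ^ 2)]

lemma SS_continuous {α a : ℝ} (ha : 1 ≤ a) : Continuous (SS α a) := by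
  have ha0 : 0 < a := by linarith
  obtain ⟨C, hC, hw⟩ := exists_wf_le
  have hw1 := wf_le (fun x => hw a x ha0) hC ha
  rw [continuous_iff_continuousAt]
  intro t0
  have h1 : ContinuousOn (SS α a) (Icc (t0 - 1) (t0 + 1)) := by
    unfold SS
    refine continuousOn_tsum (u := fun ρ : ntz => (2 * (C * a) * (1 + (|t0| + 1) ^ 2)) *
      ((mult ρ : ℝ) / (1 + (0 - (ρ : ℂ).im) ^ 2))) (fun ρ => ?_)
      ((summable_weight 0).mul_left _) fun ρ t ht => ?_
    · apply Continuous.continuousOn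
      refine continuous_const.mul ?_
      have hc : Continuous (ff (Bf α a)) := by
        have : ff (Bf α a) = fun x => Complex.exp (((-(α * x) : ℝ) : ℂ) * Complex.I) *
            ((wf a x : ℝ) : ℂ) := funext fun x => ff_Bf ha0 α x
        rw [this]
        have := wf_continuous a
        fun_prop
      exact hc.comp (by fun_prop)
    · rw [norm_mul, Complex.norm_natCast, norm_ff_Bf ha0]
      have h2 := hw1 (t - (ρ : ℂ).im)
      have h4 := Res.inv_shift_le t (ρ : ℂ).im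
      have h5 : t ^ 2 ≤ (|t0| + 1) ^ 2 := by
        rw [sq_le_sq, abs_of_nonneg (by positivity : 0 ≤ |t0| + 1)]
        have : |t - t0| ≤ 1 := abs_le.mpr ⟨by linarith [ht.1] , by linarith [ht.2]⟩
        calc |t| = |(t - t0) + t0| := by ring_nf
          _ ≤ |t - t0| + |t0| := abs_add_le _ _
          _ ≤ _ := by linarith
      calc (mult ρ : ℝ) * |wf a (t - (ρ : ℂ).im)|
          ≤ (mult ρ : ℝ) * ((C * a) * (2 * (1 + (|t0| + 1) ^ 2) / (1 + (ρ : ℂ).im ^ 2))) := by
            gcongr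
            refine h2.trans ?_
            rw [div_eq_mul_one_div]
            refine mul_le_mul_of_nonneg_left (h4.trans ?_) (by positivity)
            gcongr
        _ = _ := by rw [zero_sub, neg_sq]; ring
  exact h1.continuousAt (Icc_mem_nhds (by linarith) (by linarith))

end Pool.Agent.ZetaGaps
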