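import Pool.Agent.ZetaGaps.FewTail

/-!
# Gaps close to a lattice: combinatorics inside a window
-/

open Complex Filter Topology MeasureTheory
open Pool.Agent.Hadamard (ntz mult)

namespace Pool.Agent.ZetaGaps

/-- The gap `δ_n` is at distance less than `η` from the lattice `c ℤ`. -/
def NearL (c η : ℝ) (n : ℕ) : Prop := ∃ m : ℤ, |gap n - c * m| < η

lemma sum_near {c η : ℝ} {n l : ℕ} (h : n ≤ l) (hnear : ∀ i, n ≤ i → i < l → NearL c η i) :
    ∃ m : ℤ, |normOrdinate l - normOrdinate n - c * m| ≤ ((l:ℝ) - n) * η := by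
  induction l, h using Nat.le_induction with
  | base => exact ⟨0, by simp⟩
  | succ l hl ih =>
    obtain ⟨m, hm⟩ := ih (fun i hi hil => hnear i hi (by omega))
    obtain ⟨m', hm'⟩ := hnear l hl (by omega)
    refine ⟨m + m', ?_⟩
    have e : normOrdinate (l + 1) - normOrdinate n - c * ((m + m' : ℤ) : ℝ) =
        (normOrdinate l - normOrdinate n - c * m) + (gap l - c * m') := by
      unfold gap; push_cast; ring
    rw [e]
    refine (abs_add_le _ _).trans ?_
    push_cast
    linarith

lemma ordinate_zeroCount {ρ : ℂ} (hρ : ρ ∈ ntz) (hpos : 0 < ρ.im) :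
    1 ≤ zeroCount ρ.im ∧ ordinate (zeroCount ρ.im) = ρ.im := by
  have h1 : 1 ≤ zeroCount ρ.im := by
    have := zeroCount_lt_of_exists le_rfl hρ hpos le_rfl
    omega
  refine ⟨h1, ?_⟩
  have hex := zeroCount_unbounded (zeroCount ρ.im)
  have h2 : ordinate (zeroCount ρ.im) ≤ ρ.im := (le_zeroCount_iff hex h1).mp le_rfl
  rcases h2.lt_or_eq with h | h
  · exfalso
    have h3 := le_zeroCount_ordinate hex h1
    have h4 := zeroCount_lt_of_exists (ordinate_pos hex h1).le hρ h le_rfl
    omega
  · exact h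

/-- Comparison of the global and the local normalisation. -/
lemma norm_compare {T y z : ℝ} (hT : 2 ≤ T) (hyz : y ≤ z) (hy : T / 2 ≤ y) (hz : z ≤ 3 * T) :
    |(z * Real.log z - y * Real.log y) - (z - y) * Real.log T| ≤ 3 * (z - y) := by
  have hypos : 0 < y := by linarith
  have hzpos : 0 < z := by linarith
  have hTpos : 0 < T := by linarith
  have h1 := mul_log_sub_le hypos hyz
  have h2 : (z - y) * Real.log y ≤ z * Real.log z - y * Real.log y := by
    have : z * Real.log y ≤ z * Real.log z :=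
      mul_le_mul_of_nonneg_left (Real.log_le_log hypos hyz) hzpos.le
    linarith
  have hl2 : Real.log 2 ≤ 1 := by have := Real.log_two_lt_d9; linarith
  have h3 : Real.log z ≤ Real.log T + 2 := by
    have : Real.log z ≤ Real.log (3 * T) := Real.log_le_log hzpos hz
    rw [Real.log_mul (by norm_num) hTpos.ne'] at this
    have h4 : Real.log 3 ≤ 2 := by
      have := Real.log_le_sub_one_of_pos (show (0:ℝ) < 3 by norm_num)
      linarith
    linarith
  have h4 : Real.log T - 1 ≤ Real.log y := by
    have : Real.log (T / 2) ≤ Real.log y := Real.log_le_log (by linarith) hy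
    rw [Real.log_div hTpos.ne' (by norm_num)] at this
    linarith
  have h5 : 0 ≤ z - y := by linarith
  rw [abs_le]
  constructor
  · have : (z - y) * (Real.log T - 1) ≤ (z - y) * Real.log y := mul_le_mul_of_nonneg_left h4 h5
    nlinarith
  · have : (z - y) * (Real.log z + 1) ≤ (z - y) * (Real.log T + 3) :=
      mul_le_mul_of_nonneg_left (by linarith) h5
    nlinarith

/-- `t` is a good centre. -/
def Good (c η r : ℝ) (K0 : ℕ) (t : ℝ) : Prop :=
  (∀ i : ℕ, 1 ≤ i → |ordinate i - t| < r → NearL c η i) ∧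
    zeroCount (t + r) ≤ zeroCount (t - r) + K0

/-- In a good window all differences are close to the lattice. -/
lemma sin_le_of_good {c η r T t : ℝ} {K0 : ℕ} (hc : 0 < c) (hη : 0 ≤ η) (hT : 2 ≤ T)
    (hr : 0 < r) (hrT : r ≤ T / 2) (ht : T ≤ t) (ht2 : t ≤ 2 * T) (hgood : Good c η r K0 t)
    {ρ ρ' : ℂ} (hρ : ρ ∈ ntz) (hρ' : ρ' ∈ ntz) (h1 : |ρ.im - t| < r) (h2 : |ρ'.im - t| < r) :
    |Real.sin (Real.log T * (ρ.im - ρ'.im) / (2 * c))| ≤ Real.pi / c * (K0 * η + r) := by
  -- reduce to `ρ'.im ≤ ρ.im`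
  have key : ∀ {ρ ρ' : ℂ}, ρ ∈ ntz → ρ' ∈ ntz → |ρ.im - t| < r → |ρ'.im - t| < r →
      ρ'.im ≤ ρ.im →
      |Real.sin (Real.log T * (ρ.im - ρ'.im) / (2 * c))| ≤ Real.pi / c * (K0 * η + r) := by
    intro ρ ρ' hρ hρ' h1 h2 hle
    rw [abs_lt] at h1 h2
    have hp' : 0 < ρ'.im := by linarith [h2.1]
    have hp : 0 < ρ.im := by linarith
    obtain ⟨hn1, hn2⟩ := ordinate_zeroCount hρ' hp'
    obtain ⟨hl1, hl2⟩ := ordinate_zeroCount hρ hp
    set n := zeroCount ρ'.im with hn
    set l := zeroCount ρ.im with hl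
    have hnl : n ≤ l := zeroCount_mono hle
    obtain ⟨m, hm⟩ := sum_near (c := c) (η := η) hnl (fun i hi hil => by
      apply hgood.1 i (by omega)
      have e1 : ρ'.im ≤ ordinate i := by
        rw [← hn2]
        exact ordinate_mono (zeroCount_unbounded i) hn1 hi
      have e2 : ordinate i ≤ ρ.im := by
        rw [← hl2]
        exact ordinate_mono (zeroCount_unbounded l) (by omega) hil.le
      rw [abs_lt]
      constructor <;> linarith [h1.2, h2.1])
    have hcount : (l:ℝ) - n ≤ K0 := by
      have e1 : l ≤ zeroCount (t + r) := zeroCount_mono (by linarith [h1.2])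
      have e2 : zeroCount (t - r) ≤ n := zeroCount_mono (by linarith [h2.1])
      have e3 := hgood.2
      have e4 : l ≤ n + K0 := by omega
      have : (l:ℝ) ≤ n + K0 := by exact_mod_cast e4
      linarith
    have hcmp := norm_compare hT hle (by linarith [h2.1]) (by linarith [h1.2])
    have hno : normOrdinate l - normOrdinate n =
        (ρ.im * Real.log ρ.im - ρ'.im * Real.log ρ'.im) / (2 * Real.pi) := by
      unfold normOrdinate
      rw [hn2, hl2, sub_div]
    have hpi := Real.pi_pos
    have hpi3 := Real.pi_gt_three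
    -- distance of `x - x'` from `c m`
    have hdist : |Real.log T * (ρ.im - ρ'.im) / (2 * Real.pi) - c * m| ≤ K0 * η + r := by
      have e1 : Real.log T * (ρ.im - ρ'.im) / (2 * Real.pi) - c * m =
          (normOrdinate l - normOrdinate n - c * m) -
          ((ρ.im * Real.log ρ.im - ρ'.im * Real.log ρ'.im) -
            (ρ.im - ρ'.im) * Real.log T) / (2 * Real.pi) := by
        rw [hno]; ring
      rw [e1]
      refine (abs_sub _ _).trans ?_
      have e2 : |((ρ.im * Real.log ρ.im - ρ'.im * Real.log ρ'.im) -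
            (ρ.im - ρ'.im) * Real.log T) / (2 * Real.pi)| ≤ r := by
        rw [abs_div, abs_of_pos (show 0 < 2 * Real.pi by positivity),
          div_le_iff₀ (by positivity)]
        have e3 : ρ.im - ρ'.im ≤ 2 * r := by linarith [h1.2, h2.1]
        nlinarith
      have e3 : ((l:ℝ) - n) * η ≤ K0 * η := mul_le_mul_of_nonneg_right hcount hη
      linarith
    have e1 : Real.log T * (ρ.im - ρ'.im) / (2 * c) =
        Real.pi / c * (Real.log T * (ρ.im - ρ'.im) / (2 * Real.pi) - c * m) + m * Real.pi := by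
      field_simp
      ring
    rw [e1, Real.sin_add_int_mul_pi, abs_mul]
    have e2 : |((-1:ℝ)) ^ m| = 1 := by
      rw [abs_zpow, abs_neg, abs_one, one_zpow]
    rw [e2, one_mul]
    refine (Real.abs_sin_le_abs).trans ?_
    rw [abs_mul, abs_of_pos (show 0 < Real.pi / c by positivity)]
    exact mul_le_mul_of_nonneg_left hdist (by positivity)
  rcases le_total ρ'.im ρ.im with h | h
  · exact key hρ hρ' h1 h2 h
  · have := key hρ' hρ h2 h1 h
    have e : Real.log T * (ρ.im - ρ'.im) / (2 * c) =
        -(Real.log T * (ρ'.im - ρ.im) / (2 * c)) := by ring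
    rw [e, Real.sin_neg, abs_neg]
    exact this

end Pool.Agent.ZetaGaps
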