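import Pool.Agent.ZetaGaps.Tail

/-!
# (not a hand-in) a lower bound for the speed of convergence, under RH

The laws of `δ_1, …, δ_N` stay at Kolmogorov-type distance
`≥ c logloglog N / (log N loglog N)` from every law of mean `1` on `[0, ∞)`.
-/

open Pool.Agent.ZetaGaps MeasureTheory

theorem Pool.Agent.ZetaGaps.rateLowerBound (hRH : RiemannHypothesis) :
    ∃ c : ℝ, 0 < c ∧ ∃ N₀ : ℕ, ∀ N : ℕ, N₀ ≤ N →
      ∀ (μ : Measure ℝ) [IsProbabilityMeasure μ],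
      μ (Set.Iio 0) = 0 → Integrable (fun x : ℝ => x) μ → ∫ x, x ∂μ = 1 →
      ∃ a b : ℝ, 0 ≤ a ∧ a < b ∧
        c * Real.log (Real.log (Real.log N)) / (Real.log N * Real.log (Real.log N)) <
        |((({n ∈ Finset.Icc 1 N | a < gap n ∧ gap n ≤ b} : Finset ℕ).card : ℕ) : ℝ) / N -
          (μ (Set.Ioc a b)).toReal| := by
  obtain ⟨s0, hs0, h⟩ := largeGapTail hRH (show (0:ℝ) < 1 / 2 by norm_num)
  obtain ⟨N1, hM⟩ := exists_meanLower hRH
  have hT : TailUpper s0 := by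
    intro s hs N
    refine (h s hs N).trans (le_of_eq ?_)
    norm_num
  obtain ⟨N0, hN0⟩ := rate_core hT (by norm_num) hM
  refine ⟨1 / 4 / 32, by norm_num, N0, fun N hN μ _ h1 h2 h3 => ?_⟩
  obtain ⟨a, b, ha, hab, h4⟩ := hN0 N hN μ h1 h2 h3
  refine ⟨a, b, ha, hab, ?_⟩
  rw [mul_div_assoc]
  exact h4
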