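import Pool.Agent.ZetaGaps.Unbounded
import Mathlib.Analysis.SpecialFunctions.Trigonometric.ArctanDeriv
import Mathlib.Analysis.SpecialFunctions.Integrals.Basic

/-!
# The Riemann-von Mangoldt formula under RH
-/

open Complex Filter Topology MeasureTheory intervalIntegral
open Pool.Agent.Hadamard (ntz mult)

namespace Pool.Agent.ZetaGaps

/-- The Poisson kernel at height `3/2`. -/
noncomputable def K (x : ℝ) : ℝ := (3 / 2) / (9 / 4 + x ^ 2)

/-- Its conjugate. -/
noncomputable def cK (x : ℝ) : ℝ := (3 / 2) * x / (9 / 4 + x ^ 2)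

/-- Its primitive. -/
noncomputable def AK (x : ℝ) : ℝ := Real.arctan (2 * x / 3)

/-- The sign, `+1` at `0`. -/
noncomputable def sg (x : ℝ) : ℝ := if 0 ≤ x then 1 else -1

/-- The remainder. -/
noncomputable def hK (x : ℝ) : ℝ := AK x - Real.pi / 2 * sg x + cK x

lemma K_pos (x : ℝ) : 0 < K x := by unfold K; positivity

lemma K_neg (x : ℝ) : K (-x) = K x := by unfold K; ring_nf

lemma hasDerivAt_AK (x : ℝ) : HasDerivAt AK (K x) x := by
  have h1 : HasDerivAt (fun x : ℝ => 2 * x / 3) (2 / 3) x := by
    have := ((hasDerivAt_id x).const_mul (2:ℝ)).div_const 3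
    simpa using this
  have h2 := (Real.hasDerivAt_arctan (2 * x / 3)).comp x h1
  have h3 : 1 / (1 + (2 * x / 3) ^ 2) * (2 / 3) = K x := by
    unfold K
    field_simp
    ring
  rw [h3] at h2
  exact h2

lemma K_continuous : Continuous K := by
  unfold K
  exact continuous_const.div (by fun_prop) (fun x => by positivity)

lemma arctan_ge {y : ℝ} (hy : 0 ≤ y) : y / (1 + y ^ 2) ≤ Real.arctan y := by
  -- `arctan y = ∫ 1/(1+t^2) ≥ y/(1+y^2)`, by monotonicity
  have hmono : MonotoneOn (fun y => Real.arctan y - y / (1 + y ^ 2)) (Set.Ici 0) := by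
    apply monotoneOn_of_deriv_nonneg (convex_Ici 0)
    · apply Continuous.continuousOn
      apply Real.continuous_arctan.sub
      exact continuous_id.div (by fun_prop) (fun x => by positivity)
    · intro x _
      apply DifferentiableAt.differentiableWithinAt
      apply (Real.differentiable_arctan x).sub
      exact (differentiableAt_id).div (by fun_prop) (by positivity)
    · intro x hx
      have h1 : HasDerivAt (fun y : ℝ => y / (1 + y ^ 2))
          ((1 * (1 + x ^ 2) - x * (2 * x)) / (1 + x ^ 2) ^ 2) x := by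
        have h2 : HasDerivAt (fun y : ℝ => 1 + y ^ 2) (2 * x) x := by
          simpa using (hasDerivAt_pow 2 x).const_add (1:ℝ)
        exact (hasDerivAt_id x).div h2 (by positivity)
      have h3 := (Real.hasDerivAt_arctan x).sub h1
      have h4 : deriv (fun y => Real.arctan y - y / (1 + y ^ 2)) x =
          1 / (1 + x ^ 2) - (1 * (1 + x ^ 2) - x * (2 * x)) / (1 + x ^ 2) ^ 2 := h3.deriv
      rw [h4]
      have h5 : 1 / (1 + x ^ 2) - (1 * (1 + x ^ 2) - x * (2 * x)) / (1 + x ^ 2) ^ 2 =
          2 * x ^ 2 / (1 + x ^ 2) ^ 2 := by field_simp; ring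
      rw [h5]; positivity
  have h := hmono (Set.mem_Ici.mpr le_rfl) (Set.mem_Ici.mpr hy) hy
  simp at h
  linarith

/-- `|h(x)| ≤ (3π/2) K(x)`. -/
lemma abs_hK_le (x : ℝ) : |hK x| ≤ 3 * Real.pi / 2 * K x := by
  have hpi := Real.pi_pos
  -- positive `x`
  have hpos : ∀ x : ℝ, 0 < x → |AK x - Real.pi / 2 + cK x| ≤ 3 * Real.pi / 2 * K x := by
    intro x hx
    set y := 3 / (2 * x) with hy
    have hypos : 0 < y := by positivity
    have h1 : AK x = Real.pi / 2 - Real.arctan y := by
      unfold AK
      have h2 : 2 * x / 3 = y⁻¹ := by rw [hy, inv_div]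
      rw [h2, Real.arctan_inv_of_pos hypos]
    have h2 : cK x = y / (1 + y ^ 2) := by
      unfold cK; rw [hy]; field_simp; ring
    have h3 : K x = 2 / 3 * (y ^ 2 / (1 + y ^ 2)) := by
      unfold K; rw [hy]; field_simp; ring
    rw [h1, h2, h3]
    have h4 := arctan_ge hypos.le
    have h5 : Real.arctan y ≤ y := by
      have := Real.arctan_pos.mpr hypos
      have h51 := Real.lt_tan this (Real.arctan_lt_pi_div_two y)
      rw [Real.tan_arctan] at h51
      exact h51.le
    have h6 : Real.arctan y < Real.pi / 2 := Real.arctan_lt_pi_div_two y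
    have h7 : 0 < y / (1 + y ^ 2) := by positivity
    have h8 : y - y / (1 + y ^ 2) = y * (y ^ 2 / (1 + y ^ 2)) := by field_simp; ring
    have h9 : 0 < y ^ 2 / (1 + y ^ 2) := by positivity
    have hpi3 := Real.pi_gt_three
    rw [abs_le]
    constructor
    · rcases le_total y 1 with hy1 | hy1
      · nlinarith
      · have h10 : 1 / 2 ≤ y ^ 2 / (1 + y ^ 2) := by
          rw [div_le_div_iff₀ (by norm_num) (by positivity)]
          nlinarith
        nlinarith
    · have : 0 ≤ 3 * Real.pi / 2 * (2 / 3 * (y ^ 2 / (1 + y ^ 2))) := by positivity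
      linarith
  rcases lt_trichotomy x 0 with hx | hx | hx
  · have h1 := hpos (-x) (by linarith)
    rw [K_neg] at h1
    have h2 : AK (-x) = - AK x := by
      unfold AK
      rw [show 2 * -x / 3 = -(2 * x / 3) by ring, Real.arctan_neg]
    have h3 : cK (-x) = - cK x := by
      unfold cK; rw [neg_sq]; ring
    have h4 : hK x = -(AK (-x) - Real.pi / 2 + cK (-x)) := by
      unfold hK sg
      rw [if_neg (by linarith), h2, h3]; ring
    rw [h4, abs_neg]; exact h1
  · subst hx
    unfold hK sg AK cK K
    simp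
    rw [abs_of_pos (by positivity)]
    norm_num
    nlinarith
  · have h4 : hK x = AK x - Real.pi / 2 + cK x := by
      unfold hK sg
      rw [if_pos hx.le]; ring
    rw [h4]; exact hpos x hx

end Pool.Agent.ZetaGaps
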