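import Pool.Agent.ZetaGaps.RvM2
import Mathlib.NumberTheory.ZetaValues

/-!
# The Riemann-von Mangoldt formula under RH, part 3: the main term
-/

open Complex Filter Topology MeasureTheory intervalIntegral
open Pool.Agent.Hadamard (ntz mult)

namespace Pool.Agent.ZetaGaps

lemma s_ne_one (t : ℝ) : (2:ℂ) + t * I ≠ 1 := by
  intro h
  have := congrArg Complex.re h
  rw [two_add_mul_I_re] at this
  norm_num at this

lemma PS_eq_xiF (t : ℝ) : PS t = (logDeriv Hadamard.xiF (2 + t * I)).re :=
  (hasSum_PS t).unique (Hadamard.hasSum_re_zeros_xi (by rw [two_add_mul_I_re]; norm_num))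

lemma continuous_PS : Continuous PS := by
  have h1 : Continuous (fun t : ℝ => (2:ℂ) + t * I) := by fun_prop
  have h2 : Continuous (fun t : ℝ => (logDeriv Hadamard.xiF (2 + t * I))) := by
    simp_rw [logDeriv_apply]
    apply Continuous.div
    · have : Continuous (deriv Hadamard.xiF) :=
        (Hadamard.xiF_differentiable.contDiff (n := 1)).continuous_deriv (le_refl _)
      exact this.comp h1
    · exact Hadamard.xiF_differentiable.continuous.comp h1
    · intro t
      exact Hadamard.xiF_ne_zero_of_one_le (by rw [two_add_mul_I_re]; norm_num)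
  have h3 : PS = fun t : ℝ => (logDeriv Hadamard.xiF (2 + t * I)).re := funext PS_eq_xiF
  rw [h3]
  exact continuous_re.comp h2

/-- Main term of the Poisson sum. -/
noncomputable def MT (t : ℝ) : ℝ := (Real.log ((t + 2) / 2) - Real.log Real.pi) / 2

lemma abs_PS_sub_le {t : ℝ} (ht : 0 ≤ t) :
    |PS t - (logDeriv riemannZeta (2 + t * I)).re - MT t| ≤ 12 / (1 + t) := by
  have hs : 1 ≤ ((2:ℂ) + t * I).re := by rw [two_add_mul_I_re]; norm_num
  have h3 := (Hadamard.hasSum_re_zeros hs (s_ne_one t)).unique (hasSum_PS t)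
  rw [← h3]
  have ht1 : 0 < 1 + t := by linarith
  have a2 : |(1 / ((2:ℂ) + t * I - 1)).re| ≤ 2 / (1 + t) := by
    have e : (1 / ((2:ℂ) + t * I - 1)).re = 1 / (1 + t ^ 2) := by
      rw [one_div, Complex.inv_re, Complex.normSq_apply]
      simp
      norm_num
      ring_nf
    rw [e, abs_of_pos (by positivity), div_le_div_iff₀ (by positivity) ht1]
    nlinarith [sq_nonneg (t - 1)]
  have a3 : |(1 / ((2:ℂ) + t * I)).re| ≤ 2 / (1 + t) := by
    have e : (1 / ((2:ℂ) + t * I)).re = 2 / (4 + t ^ 2) := by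
      rw [one_div, Complex.inv_re, Complex.normSq_apply]
      simp
      norm_num
      ring_nf
    rw [e, abs_of_pos (by positivity), div_le_div_iff₀ (by positivity) ht1]
    nlinarith [sq_nonneg (t - 1)]
  set z : ℂ := ((2:ℂ) + t * I) / 2 with hz
  have hzre : z.re = 1 := by rw [hz]; simp
  have hzim : z.im = t / 2 := by rw [hz]; simp
  have hznsq : ‖z‖ ^ 2 = 1 + t ^ 2 / 4 := by
    rw [← Complex.normSq_eq_norm_sq, Complex.normSq_apply, hzre, hzim]; ring
  have hzn : 1 ≤ ‖z‖ := by
    calc (1:ℝ) = |z.re| := by rw [hzre]; simp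
      _ ≤ _ := abs_re_le_norm _
  have hzpos : 0 < ‖z‖ := by linarith
  have hz3 : (1 + t) / 3 ≤ ‖z‖ := by
    apply le_of_sq_le_sq _ hzpos.le
    rw [hznsq]
    nlinarith [sq_nonneg (t - 1)]
  have a4 : ‖logDeriv Complex.Gamma z - Complex.log z‖ ≤ 12 / (1 + t) := by
    refine (Hadamard.norm_digamma_sub_log_le (by rw [hzre]; norm_num)).trans ?_
    have e1 : 2 / ‖z‖ ^ 2 ≤ 2 / ‖z‖ := by
      apply div_le_div_of_nonneg_left (by norm_num) hzpos
      nlinarith
    have e2 : 2 / ‖z‖ ≤ 6 / (1 + t) := by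
      rw [div_le_div_iff₀ hzpos ht1]
      linarith
    have e3 : 12 / (1 + t) = 6 / (1 + t) + 6 / (1 + t) := by ring
    linarith
  have a4' : |(logDeriv Complex.Gamma z - Complex.log z).re| ≤ 12 / (1 + t) :=
    (abs_re_le_norm _).trans a4
  rw [Complex.sub_re, Complex.log_re] at a4'
  have hlogz : Real.log ‖z‖ = Real.log (1 + t ^ 2 / 4) / 2 := by
    rw [← hznsq, Real.log_pow]; push_cast; ring
  have a5 : 0 ≤ Real.log ((t + 2) / 2) - Real.log ‖z‖ ∧
      Real.log ((t + 2) / 2) - Real.log ‖z‖ ≤ 3 / (1 + t) := by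
    have e1 : Real.log ((t + 2) / 2) - Real.log ‖z‖ =
        Real.log (1 + t / (1 + t ^ 2 / 4)) / 2 := by
      rw [hlogz]
      have e2 : Real.log ((t + 2) / 2) = Real.log (((t + 2) / 2) ^ 2) / 2 := by
        rw [Real.log_pow]; push_cast; ring
      have e3 : (1 + t / (1 + t ^ 2 / 4)) = ((t + 2) / 2) ^ 2 / (1 + t ^ 2 / 4) := by
        field_simp; ring
      have e10 : Real.log (((t + 2) / 2) ^ 2 / (1 + t ^ 2 / 4)) =
          Real.log (((t + 2) / 2) ^ 2) - Real.log (1 + t ^ 2 / 4) :=
        Real.log_div (by positivity) (by positivity)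
      rw [e3, e10, e2]
      ring
    rw [e1]
    constructor
    · apply div_nonneg _ (by norm_num)
      apply Real.log_nonneg
      have : 0 ≤ t / (1 + t ^ 2 / 4) := by positivity
      linarith
    · have e4 : Real.log (1 + t / (1 + t ^ 2 / 4)) ≤ t / (1 + t ^ 2 / 4) := by
        have := Real.log_le_sub_one_of_pos (show 0 < 1 + t / (1 + t ^ 2 / 4) by positivity)
        linarith
      have e5 : t / (1 + t ^ 2 / 4) ≤ 6 / (1 + t) := by
        rw [div_le_div_iff₀ (by positivity) ht1]
        nlinarith [sq_nonneg (t - 1)]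
      have e6 : (3:ℝ) / (1 + t) = (6 / (1 + t)) / 2 := by ring
      rw [e6]; linarith
  unfold MT
  have e7 : (12:ℝ) / (1 + t) = 2 / (1 + t) + 2 / (1 + t) + (12 / (1 + t)) / 2 + 2 / (1 + t) := by
    ring
  have e8 : (3:ℝ) / (1 + t) ≤ 4 / (1 + t) :=
    div_le_div_of_nonneg_right (by norm_num) ht1.le
  have e9 : (4:ℝ) / (1 + t) = 2 * (2 / (1 + t)) := by ring
  rw [e7]
  rw [abs_le] at a2 a3 a4' ⊢
  constructor
  · linarith [a2.1, a3.1, a4'.1, a5.1, a5.2]
  · linarith [a2.2, a3.2, a4'.2, a5.1, a5.2]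

/-- `Re ζ(2 + it) > 0`. -/
lemma re_zeta_two_pos (t : ℝ) : 0 < (riemannZeta (2 + t * I)).re := by
  have hs : 1 < ((2:ℂ) + t * I).re := by rw [two_add_mul_I_re]; norm_num
  have h1 := zeta_eq_tsum_one_div_nat_add_one_cpow hs
  have hnorm : ∀ n : ℕ, ‖1 / ((n:ℂ) + 1) ^ ((2:ℂ) + t * I)‖ = 1 / ((n:ℝ) + 1) ^ 2 := by
    intro n
    rw [norm_div, norm_one]
    congr 1
    have h2 : ((n:ℂ) + 1) = (((n + 1 : ℕ) : ℝ) : ℂ) := by push_cast; ring
    rw [h2, Complex.norm_cpow_eq_rpow_re_of_pos (by positivity), two_add_mul_I_re]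
    push_cast
    rw [← Real.rpow_natCast]
    norm_num
  have hsq : HasSum (fun n : ℕ => 1 / ((n:ℝ) + 1) ^ 2) (Real.pi ^ 2 / 6) := by
    have h2 := hasSum_zeta_two
    rw [← hasSum_nat_add_iff' 1] at h2
    simpa using h2
  have hsum : Summable (fun n : ℕ => 1 / ((n:ℂ) + 1) ^ ((2:ℂ) + t * I)) := by
    apply Summable.of_norm
    simp_rw [hnorm]
    exact hsq.summable
  rw [hsum.tsum_eq_zero_add] at h1
  simp only [Nat.cast_zero, zero_add, Complex.one_cpow, div_one] at h1
  have hsum' : HasSum (fun n : ℕ => 1 / (((n + 1 : ℕ):ℝ) + 1) ^ 2) (Real.pi ^ 2 / 6 - 1) := by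
    have := (hasSum_nat_add_iff' 1).mpr hsq
    simpa using this
  have h2 : ‖∑' n : ℕ, 1 / (((n + 1 : ℕ):ℂ) + 1) ^ ((2:ℂ) + t * I)‖ ≤ Real.pi ^ 2 / 6 - 1 := by
    apply tsum_of_norm_bounded hsum'
    intro n
    rw [hnorm (n + 1)]
  have h3 : Real.pi ^ 2 / 6 - 1 < 1 := by
    have := Real.pi_lt_d2
    have h4 := Real.pi_pos
    nlinarith
  rw [h1, Complex.add_re, Complex.one_re]
  have h4 := (abs_re_le_norm (∑' n : ℕ, 1 / (((n + 1 : ℕ):ℂ) + 1) ^ ((2:ℂ) + t * I))).trans h2
  have h5 := (abs_le.mp h4).1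
  linarith

lemma continuous_logDeriv_zeta : Continuous (fun t : ℝ => logDeriv riemannZeta (2 + t * I)) := by
  rw [continuous_iff_continuousAt]
  intro t
  have h1 : ContinuousAt (fun t : ℝ => (2:ℂ) + t * I) t := by fun_prop
  have han : AnalyticAt ℂ riemannZeta (2 + t * I) := Hadamard.zeta_analyticAt (s_ne_one t)
  have hne : riemannZeta (2 + t * I) ≠ 0 :=
    riemannZeta_ne_zero_of_one_le_re (by rw [two_add_mul_I_re]; norm_num)
  have h2 : ContinuousAt (logDeriv riemannZeta) (2 + t * I) := by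
    have : logDeriv riemannZeta = fun s => deriv riemannZeta s / riemannZeta s := by
      funext s; rw [logDeriv_apply]
    rw [this]
    exact han.deriv.continuousAt.div han.continuousAt hne
  exact ContinuousAt.comp (f := fun t : ℝ => (2:ℂ) + t * I) h2 h1

lemma abs_integral_logDeriv_zeta_le (T : ℝ) :
    |∫ t in (0:ℝ)..T, (logDeriv riemannZeta (2 + t * I)).re| ≤ 2 * Real.pi := by
  have h : ∀ t ∈ Set.uIcc 0 T, HasDerivAt (fun t : ℝ => (Complex.log (riemannZeta (2 + t * I))).im)
      ((logDeriv riemannZeta (2 + t * I)).re) t := by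
    intro t _
    have hd : HasDerivAt riemannZeta (deriv riemannZeta (2 + t * I)) (2 + t * I) :=
      (differentiableAt_riemannZeta (s_ne_one t)).hasDerivAt
    have hin : HasDerivAt (fun t : ℝ => (2:ℂ) + t * I) I t := by
      have h1 : HasDerivAt (fun t : ℝ => (t:ℂ)) 1 t := (hasDerivAt_id t).ofReal_comp
      simpa using (h1.mul_const I).const_add (2:ℂ)
    have h2 : HasDerivAt (fun t : ℝ => riemannZeta (2 + t * I))
        (deriv riemannZeta (2 + t * I) * I) t := hd.comp t hin
    have hslit : riemannZeta (2 + t * I) ∈ Complex.slitPlane := Or.inl (re_zeta_two_pos t)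
    have h3 := h2.clog_real hslit
    have h4 : HasDerivAt (fun t : ℝ => (Complex.log (riemannZeta (2 + t * I))).im)
        ((deriv riemannZeta (2 + t * I) * I / riemannZeta (2 + t * I)).im) t :=
      (Complex.imCLM.hasFDerivAt.comp_hasDerivAt t h3)
    convert h4 using 1
    rw [logDeriv_apply, mul_div_right_comm, Complex.mul_I_im]
  rw [intervalIntegral.integral_eq_sub_of_hasDerivAt h
    ((continuous_re.comp continuous_logDeriv_zeta).intervalIntegrable _ _)]
  rw [Complex.log_im, Complex.log_im]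
  have h1 := Complex.abs_arg_le_pi (riemannZeta (2 + T * I))
  have h2 := Complex.abs_arg_le_pi (riemannZeta (2 + ((0:ℝ):ℂ) * I))
  rw [abs_le] at h1 h2 ⊢
  constructor <;> linarith [h1.1, h1.2, h2.1, h2.2]

lemma integral_MT {T : ℝ} (hT : 0 ≤ T) : ∫ t in (0:ℝ)..T, MT t =
    ((T + 2) * Real.log ((T + 2) / 2) - T - T * Real.log Real.pi) / 2 := by
  have h : ∀ t ∈ Set.uIcc 0 T, HasDerivAt
      (fun t : ℝ => ((t + 2) * Real.log ((t + 2) / 2) - t - t * Real.log Real.pi) / 2) (MT t) t := by
    intro t ht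
    rw [Set.uIcc_of_le hT] at ht
    have htpos : 0 < t + 2 := by linarith [ht.1]
    have h1 : HasDerivAt (fun t : ℝ => t + 2) 1 t := (hasDerivAt_id t).add_const 2
    have h2 : HasDerivAt (fun t : ℝ => (t + 2) / 2) (1 / 2) t := h1.div_const 2
    have h3 := h2.log (by positivity)
    have h4 := ((h1.mul h3).sub (hasDerivAt_id t)).sub
      ((hasDerivAt_id t).mul_const (Real.log Real.pi))
    have h5 := h4.div_const 2
    refine h5.congr_deriv ?_
    unfold MT
    have : (1:ℝ) / 2 / ((t + 2) / 2) = 1 / (t + 2) := by field_simp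
    rw [this]
    field_simp
    ring
  have hcont : ContinuousOn MT (Set.uIcc 0 T) := by
    rw [Set.uIcc_of_le hT]
    unfold MT
    apply ContinuousOn.div_const
    apply ContinuousOn.sub _ continuousOn_const
    apply ContinuousOn.log
    · fun_prop
    · intro t ht
      have := ht.1
      positivity
  rw [intervalIntegral.integral_eq_sub_of_hasDerivAt h hcont.intervalIntegrable]
  norm_num

/-- **Riemann-von Mangoldt** under RH. -/
theorem riemann_vonMangoldt (hRH : RiemannHypothesis) : ∃ C : ℝ, 0 < C ∧ ∀ T : ℝ, 2 ≤ T →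
    |zeroCount T - T / (2 * Real.pi) * (Real.log T - Real.log (2 * Real.pi) - 1)| ≤
      C * Real.log T := by
  obtain ⟨C1, hC1, h1⟩ := zeroCount_integral hRH
  obtain ⟨C2, hC2, h2⟩ := PS_bound
  have hpi := Real.pi_pos
  have hl2 : 0 < Real.log 2 := Real.log_pos (by norm_num)
  refine ⟨(C1 + 3 * Real.pi / 2 * (1 + C2) + 24 + 2 * Real.pi + 2) * (1 + 1 / Real.log 2), by positivity,
    fun T hT => ?_⟩
  have hT0 : 0 ≤ T := by linarith
  have hlT : 0 < Real.log T := Real.log_pos (by linarith)
  have hlT2 : Real.log 2 ≤ Real.log T := Real.log_le_log (by norm_num) hT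
  have a1 := h1 T hT0
  have a2 := h2 T (by rw [abs_of_nonneg hT0]; linarith)
  rw [abs_of_nonneg hT0] at a2
  -- integral of PS
  have hcz : Continuous (fun t : ℝ => (logDeriv riemannZeta (2 + t * I)).re) :=
    continuous_re.comp continuous_logDeriv_zeta
  have hcontMT : ContinuousOn MT (Set.uIcc 0 T) := by
    rw [Set.uIcc_of_le hT0]
    unfold MT
    apply ContinuousOn.div_const
    apply ContinuousOn.sub _ continuousOn_const
    apply ContinuousOn.log
    · fun_prop
    · intro t ht
      have := ht.1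
      positivity
  have a3 : |(∫ t in (0:ℝ)..T, PS t) - (∫ t in (0:ℝ)..T, (logDeriv riemannZeta (2 + t * I)).re) -
      ∫ t in (0:ℝ)..T, MT t| ≤ 12 * Real.log (1 + T) := by
    have hi1 : IntervalIntegrable (fun t : ℝ => PS t - (logDeriv riemannZeta (2 + t * I)).re)
        volume 0 T := (continuous_PS.sub hcz).intervalIntegrable _ _
    rw [← intervalIntegral.integral_sub (continuous_PS.intervalIntegrable _ _)
      (hcz.intervalIntegrable _ _), ← intervalIntegral.integral_sub
      hi1 hcontMT.intervalIntegrable]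
    have hint : ∫ t in (0:ℝ)..T, 12 / (1 + t) = 12 * Real.log (1 + T) := by
      have h : ∀ t ∈ Set.uIcc 0 T, HasDerivAt (fun t : ℝ => 12 * Real.log (1 + t))
          (12 / (1 + t)) t := by
        intro t ht
        rw [Set.uIcc_of_le hT0] at ht
        have htpos : 0 < 1 + t := by linarith [ht.1]
        have h1 : HasDerivAt (fun t : ℝ => 1 + t) 1 t := (hasDerivAt_id t).const_add 1
        have h3 := (h1.log htpos.ne').const_mul 12
        exact h3.congr_deriv (by ring)
      rw [intervalIntegral.integral_eq_sub_of_hasDerivAt h]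
      · simp
      · apply ContinuousOn.intervalIntegrable
        rw [Set.uIcc_of_le hT0]
        apply ContinuousOn.div continuousOn_const (by fun_prop)
        intro t ht
        have := ht.1
        positivity
    rw [← hint]
    rw [← Real.norm_eq_abs]
    apply intervalIntegral.norm_integral_le_of_norm_le hT0
    · filter_upwards with t ht
      rw [Real.norm_eq_abs]
      exact abs_PS_sub_le ht.1.le
    · apply ContinuousOn.intervalIntegrable
      rw [Set.uIcc_of_le hT0]
      apply ContinuousOn.div continuousOn_const (by fun_prop)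
      intro t ht
      have := ht.1
      positivity
  have a4 := abs_integral_logDeriv_zeta_le T
  rw [integral_MT hT0] at a3
  -- elementary comparison
  have a5 : 0 ≤ (T + 2) * Real.log ((T + 2) / 2) - T * Real.log (T / 2) ∧
      (T + 2) * Real.log ((T + 2) / 2) - T * Real.log (T / 2) ≤ 2 * Real.log T + 2 := by
    have e1 : Real.log ((T + 2) / 2) = Real.log (T / 2) + Real.log (1 + 2 / T) := by
      rw [← Real.log_mul (by positivity) (by positivity)]
      congr 1
      field_simp
    have e2 : 0 ≤ Real.log (1 + 2 / T) := Real.log_nonneg (by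
      have : 0 ≤ 2 / T := by positivity
      linarith)
    have e3 : T * Real.log (1 + 2 / T) ≤ 2 := by
      have := Real.log_le_sub_one_of_pos (show 0 < 1 + 2 / T by positivity)
      calc T * Real.log (1 + 2 / T) ≤ T * (2 / T) := mul_le_mul_of_nonneg_left (by linarith) hT0
        _ = 2 := by field_simp
    have e4 : 0 ≤ Real.log ((T + 2) / 2) := Real.log_nonneg (by linarith)
    have e5 : Real.log ((T + 2) / 2) ≤ Real.log T := Real.log_le_log (by positivity) (by linarith)
    have e6 : (T + 2) * Real.log ((T + 2) / 2) - T * Real.log (T / 2) =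
        2 * Real.log ((T + 2) / 2) + T * Real.log (1 + 2 / T) := by
      rw [show (T + 2) * Real.log ((T + 2) / 2) = 2 * Real.log ((T + 2) / 2) +
        T * Real.log ((T + 2) / 2) by ring]
      rw [e1]; ring
    rw [e6]
    constructor
    · have : 0 ≤ T * Real.log (1 + 2 / T) := by positivity
      linarith
    · linarith
  have a6 : Real.log (1 + T) ≤ 2 * Real.log T := by
    rw [show (2:ℝ) * Real.log T = Real.log (T ^ 2) by rw [Real.log_pow]; push_cast; ring]
    apply Real.log_le_log (by linarith)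
    nlinarith
  -- assemble
  have hmain : Real.pi * (T / (2 * Real.pi) * (Real.log T - Real.log (2 * Real.pi) - 1)) =
      (T * Real.log (T / 2) - T - T * Real.log Real.pi) / 2 := by
    rw [Real.log_mul (by norm_num) hpi.ne', Real.log_div (by positivity) (by norm_num)]
    field_simp
    ring
  have key : |Real.pi * (zeroCount T - T / (2 * Real.pi) *
      (Real.log T - Real.log (2 * Real.pi) - 1))| ≤
      (C1 + 3 * Real.pi / 2 * (Real.log T / 2 + C2)) + 24 * Real.log T + 2 * Real.pi +
        (Real.log T + 1) := by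
    rw [mul_sub, hmain]
    have b2 : 3 * Real.pi / 2 * PS T ≤ 3 * Real.pi / 2 * (Real.log T / 2 + C2) :=
      mul_le_mul_of_nonneg_left (by linarith [(abs_le.mp a2).2]) (by positivity)
    rw [abs_le] at a1 a3 a4 ⊢
    constructor
    · linarith [a1.1, a3.1, a4.1, a5.1, a5.2]
    · linarith [a1.2, a3.2, a4.2, a5.1, a5.2]
  rw [abs_mul, abs_of_pos hpi] at key
  have key2 : |(zeroCount T : ℝ) - T / (2 * Real.pi) *
      (Real.log T - Real.log (2 * Real.pi) - 1)| ≤
      (C1 + 3 * Real.pi / 2 * (Real.log T / 2 + C2)) + 24 * Real.log T + 2 * Real.pi +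
        (Real.log T + 1) := by
    refine le_trans ?_ key
    have := Real.pi_gt_three
    have h0 := abs_nonneg ((zeroCount T : ℝ) - T / (2 * Real.pi) *
      (Real.log T - Real.log (2 * Real.pi) - 1))
    nlinarith
  refine key2.trans ?_
  have b1 : 1 ≤ 1 / Real.log 2 * Real.log T := by
    rw [one_div, inv_mul_eq_div, one_le_div hl2]; exact hlT2
  have b2 : (C1 + 3 * Real.pi / 2 * (1 + C2) + 24 + 2 * Real.pi + 2) * (1 + 1 / Real.log 2) *
      Real.log T = (C1 + 3 * Real.pi / 2 * (1 + C2) + 24 + 2 * Real.pi + 2) * Real.log T +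
      (C1 + 3 * Real.pi / 2 * (1 + C2) + 24 + 2 * Real.pi + 2) *
        (1 / Real.log 2 * Real.log T) := by ring
  rw [b2]
  have b3 : (C1 + 3 * Real.pi / 2 * (1 + C2) + 24 + 2 * Real.pi + 2) * 1 ≤
      (C1 + 3 * Real.pi / 2 * (1 + C2) + 24 + 2 * Real.pi + 2) *
        (1 / Real.log 2 * Real.log T) := mul_le_mul_of_nonneg_left b1 (by positivity)
  have b4 : 0 ≤ C1 * Real.log T := by positivity
  have b5 : 0 ≤ Real.pi * Real.log T := by positivity
  have b6 : 0 ≤ Real.pi * C2 * Real.log T := by positivity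
  nlinarith

end Pool.Agent.ZetaGaps
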