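import Pool.Agent.ZetaGaps.Mean
import Pool.Agent.ZGap.Bridge

/-!
# The tail bound under RH
-/

namespace Pool.Agent.ZetaGaps

/-- `#{n ≤ N : δ_n > s} ≤ N exp(-(1-ε) s log s)` for `s ≥ s₀(ε)`, all `N`. -/
theorem largeGapTail (hRH : RiemannHypothesis) {ε : ℝ} (hε : 0 < ε) :
    ∃ s₀ : ℝ, 1 ≤ s₀ ∧ ∀ s : ℝ, s₀ ≤ s → ∀ N : ℕ,
      (largeGapCount N s : ℝ) ≤ N * Real.exp (-(1 - ε) * (s * Real.log s)) := by
  set ε' : ℝ := min ε (1 / 2) / 4 with hε'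
  have h1 : 0 < ε' := by positivity
  have h2 : ε' < 1 / 4 := by
    have := min_le_right ε (1 / 2)
    rw [hε']; linarith
  have h3 : 4 * ε' ≤ ε := by
    have := min_le_left ε (1 / 2)
    rw [hε']; linarith
  obtain ⟨C, hC, k0, T0, hV⟩ := Pool.Agent.ZGap.exists_voidBound hRH h1
  obtain ⟨T0', hL⟩ := exists_countLower hRH
  obtain ⟨s0, hs0, h⟩ := tail_of_voidBound h1 h2 hC hV (by norm_num) hL
  refine ⟨s0, hs0, fun s hs N => (h s hs N).trans ?_⟩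
  apply mul_le_mul_of_nonneg_left _ (Nat.cast_nonneg _)
  rw [Real.exp_le_exp]
  have h4 : 0 ≤ s * Real.log s :=
    mul_nonneg (by linarith) (Real.log_nonneg (by linarith))
  nlinarith

end Pool.Agent.ZetaGaps
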